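import Mathlib

set_option autoImplicit false

namespace Pool.Agent.Helper33.Cyc

open Finset

section Weights

variable {ι : Type*} [DecidableEq ι]

/-- `c` is not blocked by an earlier member of `D`. -/
def Feas (R : ι → ι → Prop) (lab : ι → ℤ) (c : ι) (D : Finset ι) : Prop :=
  ∀ c' ∈ D, lab c' < lab c → R c' c

/-- pairwise compatible families -/
def Valid (R : ι → ι → Prop) (D : Finset ι) : Prop :=
  ∀ c ∈ D, ∀ c' ∈ D, c ≠ c' → R c c'

open Classical in
/-- sequential factor -/
noncomputable def fac (R : ι → ι → Prop) (lab : ι → ℤ) (q : ι → ℝ) (c : ι) (D : Finset ι) : ℝ :=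
  if c ∈ D then q c else if Feas R lab c D then 1 - q c else 1

theorem fac_nonneg (R : ι → ι → Prop) (lab : ι → ℤ) (q : ι → ℝ) (hq0 : ∀ c, 0 ≤ q c)
    (hq1 : ∀ c, q c ≤ 1) (c : ι) (D : Finset ι) : 0 ≤ fac R lab q c D := by
  unfold fac
  split_ifs
  · exact hq0 c
  · linarith [hq1 c]
  · norm_num

theorem fac_le_one (R : ι → ι → Prop) (lab : ι → ℤ) (q : ι → ℝ) (hq0 : ∀ c, 0 ≤ q c)
    (hq1 : ∀ c, q c ≤ 1) (c : ι) (D : Finset ι) : fac R lab q c D ≤ 1 := by
  unfold fac
  split_ifs
  · exact hq1 c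
  · linarith [hq0 c]
  · norm_num

theorem fac_pos (R : ι → ι → Prop) (lab : ι → ℤ) (q : ι → ℝ) (hq0 : ∀ c, 0 < q c)
    (hq1 : ∀ c, q c < 1) (c : ι) (D : Finset ι) : 0 < fac R lab q c D := by
  unfold fac
  split_ifs
  · exact hq0 c
  · linarith [hq1 c]
  · norm_num

open Classical in
theorem sum_nu_le_one (R : ι → ι → Prop) (lab : ι → ℤ) (q : ι → ℝ) (hq0 : ∀ c, 0 ≤ q c)
    (hq1 : ∀ c, q c ≤ 1) (S : Finset ι) (hinj : Set.InjOn lab S) :
    ∑ D ∈ S.powerset with Valid R D, ∏ c ∈ S, fac R lab q c D ≤ 1 := by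
  induction S using Finset.induction_on_max_value lab with
  | empty =>
    have h : (∑ D ∈ (∅ : Finset ι).powerset with Valid R D,
        ∏ c ∈ (∅ : Finset ι), fac R lab q c D) =
        (({D ∈ (∅ : Finset ι).powerset | Valid R D}.card : ℕ) : ℝ) := by simp
    rw [h]
    exact_mod_cast (Finset.card_filter_le _ _).trans (by simp)
  | insert a s ha hmax ih =>
    have hinj' : Set.InjOn lab s := hinj.mono (by simp)
    have hlt : ∀ x ∈ s, lab x < lab a := by
      intro x hx
      refine lt_of_le_of_ne (hmax x hx) ?_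
      intro h
      have := hinj (by simp [hx]) (by simp) h
      exact ha (this ▸ hx)
    refine le_trans ?_ (ih hinj')
    rw [Finset.sum_filter, Finset.sum_filter, Finset.sum_powerset_insert ha,
      ← Finset.sum_add_distrib]
    apply Finset.sum_le_sum
    intro D hD
    rw [Finset.mem_powerset] at hD
    have haD : a ∉ D := fun h => ha (hD h)
    have hP : 0 ≤ ∏ c ∈ s, fac R lab q c D :=
      Finset.prod_nonneg fun c _ => fac_nonneg R lab q hq0 hq1 c D
    have h1 : ∏ c ∈ insert a s, fac R lab q c D = fac R lab q a D * ∏ c ∈ s, fac R lab q c D := by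
      rw [Finset.prod_insert ha]
    have h2 : ∏ c ∈ insert a s, fac R lab q c (insert a D) = q a * ∏ c ∈ s, fac R lab q c D := by
      rw [Finset.prod_insert ha]
      congr 1
      · unfold fac
        simp
      · apply Finset.prod_congr rfl
        intro c hc
        have hca : c ≠ a := fun h => ha (h ▸ hc)
        have hF : Feas R lab c (insert a D) ↔ Feas R lab c D := by
          unfold Feas
          constructor
          · intro h c' hc' hl
            exact h c' (by simp [hc']) hl
          · intro h c' hc' hl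
            rw [Finset.mem_insert] at hc'
            rcases hc' with rfl | hc'
            · exact absurd hl (not_lt.mpr (hmax c hc))
            · exact h c' hc' hl
        unfold fac
        simp only [Finset.mem_insert, hca, false_or, hF]
    rw [h1, h2]
    by_cases hV : Valid R D
    · rw [if_pos hV, if_pos hV]
      by_cases hV' : Valid R (insert a D)
      · rw [if_pos hV']
        have hfeas : Feas R lab a D := by
          intro c' hc' _
          exact hV' c' (by simp [hc']) a (by simp) (fun h => haD (h ▸ hc'))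
        have : fac R lab q a D = 1 - q a := by
          unfold fac
          rw [if_neg haD, if_pos hfeas]
        rw [this]
        apply le_of_eq
        ring
      · rw [if_neg hV', add_zero]
        calc fac R lab q a D * ∏ c ∈ s, fac R lab q c D ≤ 1 * ∏ c ∈ s, fac R lab q c D :=
              mul_le_mul_of_nonneg_right (fac_le_one R lab q hq0 hq1 a D) hP
          _ = _ := one_mul _
    · have hV' : ¬ Valid R (insert a D) := by
        intro h
        apply hV
        intro c hc c' hc' hne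
        exact h c (by simp [hc]) c' (by simp [hc']) hne
      rw [if_neg hV, if_neg hV', if_neg hV]
      simp

end Weights

theorem card_mul_log_card_le {κ : Type*} (S : Finset κ) (ν : κ → ℝ) (hν : ∀ i ∈ S, 0 < ν i)
    (hsum : ∑ i ∈ S, ν i ≤ 1) :
    (S.card : ℝ) * Real.log S.card ≤ ∑ i ∈ S, - Real.log (ν i) := by
  rcases S.eq_empty_or_nonempty with rfl | hS
  · simp
  have hN : (0 : ℝ) < S.card := by exact_mod_cast hS.card_pos
  have h1 : ∀ i ∈ S, Real.log S.card + Real.log (ν i) ≤ S.card * ν i - 1 := by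
    intro i hi
    rw [← Real.log_mul hN.ne' (hν i hi).ne']
    exact Real.log_le_sub_one_of_pos (mul_pos hN (hν i hi))
  have h2 := Finset.sum_le_sum h1
  rw [Finset.sum_add_distrib, Finset.sum_sub_distrib, ← Finset.mul_sum] at h2
  simp only [Finset.sum_const, nsmul_eq_mul, mul_one] at h2
  have h3 : (S.card : ℝ) * ∑ i ∈ S, ν i ≤ S.card * 1 := mul_le_mul_of_nonneg_left hsum hN.le
  rw [Finset.sum_neg_distrib]
  linarith

section Space

variable {α : Type*} [DecidableEq α]

/-- a minimal nonempty member of the family -/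
def IsCirc (𝓥 : Finset (Finset α)) (C : Finset α) : Prop :=
  C ∈ 𝓥 ∧ C.Nonempty ∧ ∀ D ∈ 𝓥, D ⊆ C → D.Nonempty → D = C

structure IsSpace (𝓥 : Finset (Finset α)) : Prop where
  empty_mem : ∅ ∈ 𝓥
  symmDiff_mem : ∀ A ∈ 𝓥, ∀ B ∈ 𝓥, symmDiff A B ∈ 𝓥

theorem sdiff_mem {𝓥 : Finset (Finset α)} (h : IsSpace 𝓥) {A B : Finset α} (hA : A ∈ 𝓥)
    (hB : B ∈ 𝓥) (hBA : B ⊆ A) : A \ B ∈ 𝓥 := by
  have := h.symmDiff_mem A hA B hB
  rwa [symmDiff_of_ge hBA] at this

theorem exists_circ {𝓥 : Finset (Finset α)} {F : Finset α} (hF : F ∈ 𝓥)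
    (hne : F.Nonempty) : ∃ C, IsCirc 𝓥 C ∧ C ⊆ F := by
  classical
  have hS : (𝓥.filter (fun C => C ⊆ F ∧ C.Nonempty)).Nonempty :=
    ⟨F, by simp [hF, hne]⟩
  obtain ⟨C, hC, hmin⟩ := Finset.exists_min_image _ (fun C => C.card) hS
  rw [Finset.mem_filter] at hC
  refine ⟨C, ⟨hC.1, hC.2.2, ?_⟩, hC.2.1⟩
  intro D hD hDC hDne
  have := hmin D (by rw [Finset.mem_filter]; exact ⟨hD, hDC.trans hC.2.1, hDne⟩)
  exact Finset.eq_of_subset_of_card_le hDC this

theorem exists_dec {𝓥 : Finset (Finset α)} (h : IsSpace 𝓥) : ∀ (n : ℕ) (F : Finset α),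
    F.card = n → F ∈ 𝓥 →
    ∃ D : Finset (Finset α), (∀ C ∈ D, IsCirc 𝓥 C) ∧
      (∀ C ∈ D, ∀ C' ∈ D, C ≠ C' → Disjoint C C') ∧ D.biUnion id = F := by
  intro n
  induction n using Nat.strong_induction_on with
  | _ n ih =>
    intro F hn hF
    rcases F.eq_empty_or_nonempty with rfl | hne
    · exact ⟨∅, by simp, by simp, by simp⟩
    · obtain ⟨C, hC, hCF⟩ := exists_circ hF hne
      have hlt : (F \ C).card < n := by
        rw [← hn]
        apply Finset.card_lt_card
        rw [Finset.ssubset_iff_subset_ne]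
        refine ⟨Finset.sdiff_subset, ?_⟩
        intro he
        have hd : Disjoint F C := by
          rw [← Finset.sdiff_eq_self_iff_disjoint]; exact he
        obtain ⟨x, hx⟩ := hC.2.1
        exact (Finset.disjoint_left.mp hd (hCF hx)) hx
      obtain ⟨D, hD1, hD2, hD3⟩ := ih _ hlt (F \ C) rfl (sdiff_mem h hF hC.1 hCF)
      have hsub : ∀ C' ∈ D, C' ⊆ F \ C := by
        intro C' hC'
        rw [← hD3]
        exact Finset.subset_biUnion_of_mem id hC'
      have hdisj : ∀ C' ∈ D, Disjoint C C' := by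
        intro C' hC'
        exact Finset.disjoint_of_subset_right (hsub C' hC') Finset.disjoint_sdiff
      refine ⟨insert C D, ?_, ?_, ?_⟩
      · intro C' hC'
        rw [Finset.mem_insert] at hC'
        rcases hC' with rfl | hC'
        · exact hC
        · exact hD1 C' hC'
      · intro C1 h1 C2 h2 hne'
        rw [Finset.mem_insert] at h1 h2
        rcases h1 with rfl | h1 <;> rcases h2 with rfl | h2
        · exact absurd rfl hne'
        · exact hdisj C2 h2
        · exact (hdisj C1 h1).symm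
        · exact hD2 C1 h1 C2 h2 hne'
      · rw [Finset.biUnion_insert, hD3]
        simp [Finset.union_sdiff_of_subset hCF]

open Classical in
/-- chosen decomposition -/
noncomputable def dec (𝓥 : Finset (Finset α)) (F : Finset α) : Finset (Finset α) :=
  if h : ∃ D : Finset (Finset α), (∀ C ∈ D, IsCirc 𝓥 C) ∧
      (∀ C ∈ D, ∀ C' ∈ D, C ≠ C' → Disjoint C C') ∧ D.biUnion id = F then h.choose else ∅

theorem dec_spec {𝓥 : Finset (Finset α)} (h : IsSpace 𝓥) {F : Finset α} (hF : F ∈ 𝓥) :
    (∀ C ∈ dec 𝓥 F, IsCirc 𝓥 C) ∧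
      (∀ C ∈ dec 𝓥 F, ∀ C' ∈ dec 𝓥 F, C ≠ C' → Disjoint C C') ∧
      (dec 𝓥 F).biUnion id = F := by
  have hex := exists_dec h _ F rfl hF
  unfold dec
  rw [dif_pos hex]
  exact hex.choose_spec

theorem card_filter_sub_eq {𝓥 : Finset (Finset α)} (h : IsSpace 𝓥) {C : Finset α} (hC : C ∈ 𝓥) :
    (𝓥.filter (fun F => C ⊆ F)).card = (𝓥.filter (fun F => Disjoint F C)).card := by
  apply Finset.card_nbij' (fun F => symmDiff F C) (fun F => symmDiff F C)
  · intro F hF
    simp only [Finset.coe_filter, Set.mem_ofPred_eq] at hF ⊢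
    refine ⟨h.symmDiff_mem F hF.1 C hC, ?_⟩
    rw [symmDiff_of_ge hF.2]
    exact Finset.sdiff_disjoint
  · intro F hF
    simp only [Finset.coe_filter, Set.mem_ofPred_eq] at hF ⊢
    refine ⟨h.symmDiff_mem F hF.1 C hC, ?_⟩
    rw [Disjoint.symmDiff_eq_sup hF.2]
    exact le_sup_right
  · intro F _
    simp
  · intro F _
    simp

theorem card_X {𝓥 : Finset (Finset α)} (h : IsSpace 𝓥) {C : Finset α} (hC : C ∈ 𝓥)
    (hne : C.Nonempty) :
    (𝓥.filter (fun F => Disjoint F C ∨ C ⊆ F)).card
      = 2 * (𝓥.filter (fun F => Disjoint F C)).card := by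
  rw [Finset.filter_or, Finset.card_union_of_disjoint, card_filter_sub_eq h hC, two_mul]
  rw [Finset.disjoint_filter]
  intro F _ hd hs
  obtain ⟨x, hx⟩ := hne
  exact (Finset.disjoint_left.mp hd (hs hx)) hx

theorem quarter {𝓥 : Finset (Finset α)} (h : IsSpace 𝓥) {C F0 : Finset α} (hC : C ∈ 𝓥)
    (hne : C.Nonempty) (hF0 : F0 ∈ 𝓥) (h1 : ¬ Disjoint F0 C) (h2 : ¬ C ⊆ F0) :
    4 * (𝓥.filter (fun F => Disjoint F C)).card ≤ 𝓥.card := by
  have hX := card_X h hC hne
  have hle : (𝓥.filter (fun F => Disjoint F C ∨ C ⊆ F)).card ≤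
      (𝓥.filter (fun F => ¬ (Disjoint F C ∨ C ⊆ F))).card := by
    apply Finset.card_le_card_of_injOn (fun F => symmDiff F F0)
    · intro F hF
      simp only [Finset.coe_filter, Set.mem_ofPred_eq] at hF ⊢
      refine ⟨h.symmDiff_mem F hF.1 F0 hF0, ?_⟩
      rw [Finset.not_disjoint_iff] at h1
      obtain ⟨x, hx0, hxC⟩ := h1
      rw [Finset.not_subset] at h2
      obtain ⟨y, hyC, hy0⟩ := h2
      rw [not_or]
      rcases hF.2 with hd | hs
      · constructor
        · rw [Finset.not_disjoint_iff]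
          refine ⟨x, ?_, hxC⟩
          rw [Finset.mem_symmDiff]
          exact Or.inr ⟨hx0, fun hx => (Finset.disjoint_left.mp hd hx) hxC⟩
        · rw [Finset.not_subset]
          refine ⟨y, hyC, ?_⟩
          rw [Finset.mem_symmDiff]
          rintro (⟨hy, _⟩ | ⟨hy, _⟩)
          · exact (Finset.disjoint_left.mp hd hy) hyC
          · exact hy0 hy
      · constructor
        · rw [Finset.not_disjoint_iff]
          refine ⟨y, ?_, hyC⟩
          rw [Finset.mem_symmDiff]
          exact Or.inl ⟨hs hyC, hy0⟩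
        · rw [Finset.not_subset]
          refine ⟨x, hxC, ?_⟩
          rw [Finset.mem_symmDiff]
          rintro (⟨_, hx⟩ | ⟨_, hx⟩)
          · exact hx hx0
          · exact hx (hs hxC)
    · intro F _ F' _ heq
      exact symmDiff_left_injective F0 heq
  have hsum := Finset.card_filter_add_card_filter_not (s := 𝓥) (fun F => Disjoint F C ∨ C ⊆ F)
  omega

theorem half {𝓥 : Finset (Finset α)} (h : IsSpace 𝓥) {C : Finset α} (hC : C ∈ 𝓥)
    (hne : C.Nonempty) (hiso : ∀ F ∈ 𝓥, Disjoint F C ∨ C ⊆ F) :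
    2 * (𝓥.filter (fun F => Disjoint F C)).card = 𝓥.card := by
  rw [← card_X h hC hne, Finset.filter_true_of_mem hiso]

theorem edge_half {𝓥 : Finset (Finset α)} (h : IsSpace 𝓥) (e : α) :
    2 * (𝓥.filter (fun F => e ∈ F)).card ≤ 𝓥.card := by
  have hsum := Finset.card_filter_add_card_filter_not (s := 𝓥) (fun F => e ∈ F)
  by_cases hex : ∃ F0 ∈ 𝓥, e ∈ F0
  · obtain ⟨F0, hF0, he⟩ := hex
    have hle : (𝓥.filter (fun F => e ∈ F)).card ≤ (𝓥.filter (fun F => ¬ e ∈ F)).card := by
      apply Finset.card_le_card_of_injOn (fun F => symmDiff F F0)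
      · intro F hF
        simp only [Finset.coe_filter, Set.mem_ofPred_eq] at hF ⊢
        refine ⟨h.symmDiff_mem F hF.1 F0 hF0, ?_⟩
        rw [Finset.mem_symmDiff]
        rintro (⟨_, hx⟩ | ⟨_, hx⟩)
        · exact hx he
        · exact hx hF.2
      · intro F _ F' _ heq
        exact symmDiff_left_injective F0 heq
    omega
  · have : 𝓥.filter (fun F => e ∈ F) = ∅ := by
      rw [Finset.filter_eq_empty_iff]
      intro F hF he
      exact hex ⟨F, hF, he⟩
    rw [this]
    simp

theorem sum_card_le {𝓥 : Finset (Finset α)} (h : IsSpace 𝓥) {E : Finset α}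
    (hE : ∀ F ∈ 𝓥, F ⊆ E) : 2 * ∑ F ∈ 𝓥, F.card ≤ 𝓥.card * E.card := by
  have h1 : ∑ F ∈ 𝓥, F.card = ∑ e ∈ E, (𝓥.filter (fun F => e ∈ F)).card := by
    have : ∀ F ∈ 𝓥, F.card = ∑ e ∈ E, if e ∈ F then 1 else 0 := by
      intro F hF
      rw [← Finset.sum_filter, Finset.filter_mem_eq_inter, Finset.inter_eq_right.mpr (hE F hF)]
      simp
    rw [Finset.sum_congr rfl this, Finset.sum_comm]
    apply Finset.sum_congr rfl
    intro e _
    rw [Finset.card_filter]
  rw [h1, Finset.mul_sum, mul_comm 𝓥.card]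
  calc ∑ e ∈ E, 2 * (𝓥.filter (fun F => e ∈ F)).card ≤ ∑ e ∈ E, 𝓥.card :=
        Finset.sum_le_sum fun e _ => edge_half h e
    _ = E.card * 𝓥.card := by simp

open Classical in
/-- all circuits -/
noncomputable def circs (𝓥 : Finset (Finset α)) : Finset (Finset α) := 𝓥.filter (IsCirc 𝓥)

open Classical in
theorem mem_circs {𝓥 : Finset (Finset α)} {C : Finset α} : C ∈ circs 𝓥 ↔ IsCirc 𝓥 C := by
  unfold circs
  rw [Finset.mem_filter]
  exact ⟨fun h => h.2, fun h => ⟨h.1, h⟩⟩

open Classical in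
theorem one_order {𝓥 : Finset (Finset α)} (h : IsSpace 𝓥) (lab : Finset α → ℤ)
    (hinj : Set.InjOn lab (circs 𝓥)) (q : Finset α → ℝ) (hq0 : ∀ C, 0 < q C)
    (hq1 : ∀ C, q C < 1) :
    (𝓥.card : ℝ) * Real.log 𝓥.card ≤
      ∑ F ∈ 𝓥, ∑ C ∈ circs 𝓥, - Real.log (fac Disjoint lab q C (dec 𝓥 F)) := by
  have h1 := card_mul_log_card_le 𝓥 (fun F => ∏ C ∈ circs 𝓥, fac Disjoint lab q C (dec 𝓥 F))
    (fun F _ => Finset.prod_pos fun C _ => fac_pos Disjoint lab q hq0 hq1 C _) ?_
  · refine h1.trans (le_of_eq ?_)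
    apply Finset.sum_congr rfl
    intro F _
    rw [Real.log_prod (fun C _ => (fac_pos Disjoint lab q hq0 hq1 C _).ne'),
      Finset.sum_neg_distrib]
  · refine le_trans ?_ (sum_nu_le_one Disjoint lab q (fun C => (hq0 C).le) (fun C => (hq1 C).le)
      (circs 𝓥) hinj)
    have hdinj : Set.InjOn (dec 𝓥) 𝓥 := by
      intro F hF F' hF' heq
      rw [← (dec_spec h hF).2.2, ← (dec_spec h hF').2.2, heq]
    rw [← Finset.sum_image (f := fun D => ∏ C ∈ circs 𝓥, fac Disjoint lab q C D) hdinj]
    apply Finset.sum_le_sum_of_subset_of_nonneg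
    · intro D hD
      rw [Finset.mem_image] at hD
      obtain ⟨F, hF, rfl⟩ := hD
      rw [Finset.mem_filter, Finset.mem_powerset]
      exact ⟨fun C hC => mem_circs.mpr ((dec_spec h hF).1 C hC), (dec_spec h hF).2.1⟩
    · intro D _ _
      exact Finset.prod_nonneg fun C _ => (fac_pos Disjoint lab q hq0 hq1 C _).le

open Classical in
theorem two_orders {𝓥 : Finset (Finset α)} (h : IsSpace 𝓥)
    (hdist : ∀ C C', IsCirc 𝓥 C → IsCirc 𝓥 C' → C.card = C'.card → C = C')
    (q : Finset α → ℝ) (hq0 : ∀ C, 0 < q C) (hq1 : ∀ C, q C < 1) :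
    2 * ((𝓥.card : ℝ) * Real.log 𝓥.card) ≤
      ∑ C ∈ circs 𝓥, (2 * ((𝓥.filter (fun F => C ∈ dec 𝓥 F)).card : ℝ) * (- Real.log (q C)) +
        ((𝓥.card : ℝ) - ((𝓥.filter (fun F => C ∈ dec 𝓥 F)).card : ℝ) +
          ((𝓥.filter (fun F => Disjoint F C)).card : ℝ)) * (- Real.log (1 - q C))) := by
  have hi1 : Set.InjOn (fun C : Finset α => (C.card : ℤ)) (circs 𝓥) := by
    intro C hC C' hC' heq
    exact hdist C C' (mem_circs.mp hC) (mem_circs.mp hC') (by
      have : (C.card : ℤ) = (C'.card : ℤ) := heq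
      exact_mod_cast this)
  have hi2 : Set.InjOn (fun C : Finset α => - (C.card : ℤ)) (circs 𝓥) := by
    intro C hC C' hC' heq
    exact hdist C C' (mem_circs.mp hC) (mem_circs.mp hC') (by
      have : - (C.card : ℤ) = - (C'.card : ℤ) := heq
      omega)
  have h1 := one_order h _ hi1 q hq0 hq1
  have h2 := one_order h _ hi2 q hq0 hq1
  rw [two_mul]
  refine (add_le_add h1 h2).trans ?_
  rw [← Finset.sum_add_distrib]
  simp_rw [← Finset.sum_add_distrib]
  rw [Finset.sum_comm]
  apply Finset.sum_le_sum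
  intro C hC
  have hCc := mem_circs.mp hC
  have hlq : 0 ≤ - Real.log (1 - q C) := by
    rw [neg_nonneg]
    exact Real.log_nonpos (by linarith [hq1 C]) (by linarith [hq0 C])
  have hpt : ∀ F ∈ 𝓥, (- Real.log (fac Disjoint (fun C : Finset α => (C.card : ℤ)) q C (dec 𝓥 F)) +
      - Real.log (fac Disjoint (fun C : Finset α => - (C.card : ℤ)) q C (dec 𝓥 F))) ≤
      (if C ∈ dec 𝓥 F then 1 else 0) * (2 * (- Real.log (q C)) - (- Real.log (1 - q C))) +
      (1 + (if Disjoint F C then 1 else 0)) * (- Real.log (1 - q C)) := by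
    intro F hF
    obtain ⟨hd1, hd2, hd3⟩ := dec_spec h hF
    by_cases hm : C ∈ dec 𝓥 F
    · have e1 : ∀ lab : Finset α → ℤ, fac Disjoint lab q C (dec 𝓥 F) = q C := by
        intro lab
        unfold fac
        rw [if_pos hm]
      rw [e1, e1, if_pos hm]
      have : (0 : ℝ) ≤ (if Disjoint F C then 1 else 0) * (- Real.log (1 - q C)) :=
        mul_nonneg (by split_ifs <;> norm_num) hlq
      nlinarith
    · rw [if_neg hm]
      have e1 : ∀ lab : Finset α → ℤ, - Real.log (fac Disjoint lab q C (dec 𝓥 F)) ≤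
          - Real.log (1 - q C) := by
        intro lab
        unfold fac
        rw [if_neg hm]
        split_ifs
        · exact le_rfl
        · simpa using hlq
      by_cases hdis : Disjoint F C
      · rw [if_pos hdis]
        have := e1 (fun C : Finset α => (C.card : ℤ))
        have := e1 (fun C : Finset α => - (C.card : ℤ))
        linarith
      · rw [if_neg hdis]
        -- find a member of the decomposition meeting `C`
        rw [Finset.not_disjoint_iff] at hdis
        obtain ⟨x, hxF, hxC⟩ := hdis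
        rw [← hd3, Finset.mem_biUnion] at hxF
        obtain ⟨C', hC', hxC'⟩ := hxF
        have hne : C' ≠ C := fun he => hm (he ▸ hC')
        have hcard : C'.card ≠ C.card := fun he => hne (hdist C' C (hd1 C' hC') hCc he)
        have hnd : ¬ Disjoint C' C := by
          rw [Finset.not_disjoint_iff]
          exact ⟨x, hxC', hxC⟩
        rcases lt_or_gt_of_ne hcard with hlt | hgt
        · have e2 : fac Disjoint (fun C : Finset α => (C.card : ℤ)) q C (dec 𝓥 F) = 1 := by
            unfold fac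
            rw [if_neg hm, if_neg]
            intro hfe
            exact hnd (hfe C' hC' (by simpa using hlt))
          rw [e2]
          have := e1 (fun C : Finset α => - (C.card : ℤ))
          simp only [Real.log_one, neg_zero]
          linarith
        · have e2 : fac Disjoint (fun C : Finset α => - (C.card : ℤ)) q C (dec 𝓥 F) = 1 := by
            unfold fac
            rw [if_neg hm, if_neg]
            intro hfe
            exact hnd (hfe C' hC' (by simpa using hgt))
          rw [e2]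
          have := e1 (fun C : Finset α => (C.card : ℤ))
          simp only [Real.log_one, neg_zero]
          linarith
  refine (Finset.sum_le_sum hpt).trans (le_of_eq ?_)
  rw [Finset.sum_add_distrib, ← Finset.sum_mul, ← Finset.sum_mul, Finset.sum_add_distrib,
    Finset.sum_boole, Finset.sum_boole]
  simp only [Finset.sum_const, nsmul_eq_mul, mul_one]
  ring

/-- the per-cycle weight -/
noncomputable def om (lam : ℝ) (c : ℕ) : ℝ :=
  max (2 * Real.log 2 - c * lam) (3 / 2 * Real.log (1 + Real.exp (- (lam * c))))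

theorem om_nonneg (lam : ℝ) (c : ℕ) : 0 ≤ om lam c := by
  unfold om
  refine le_max_of_le_right ?_
  have : 0 ≤ Real.log (1 + Real.exp (- (lam * c))) :=
    Real.log_nonneg (by linarith [Real.exp_pos (- (lam * c))])
  linarith

open Classical in
theorem abstract_bound {𝓥 : Finset (Finset α)} (h : IsSpace 𝓥)
    (hdist : ∀ C C', IsCirc 𝓥 C → IsCirc 𝓥 C' → C.card = C'.card → C = C')
    {E : Finset α} (hE : ∀ F ∈ 𝓥, F ⊆ E) (lam : ℝ) (hlam : 0 < lam) :
    2 * Real.log 𝓥.card ≤ lam * E.card + ∑ i ∈ Finset.Icc 1 E.card, om lam i := by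
  set q : Finset α → ℝ := fun C =>
    if (∀ F ∈ 𝓥, Disjoint F C ∨ C ⊆ F) then 1 / 2
    else Real.exp (- (lam * C.card)) / (1 + Real.exp (- (lam * C.card))) with hq
  have hq0 : ∀ C, 0 < q C := by
    intro C
    simp only [hq]
    split_ifs
    · norm_num
    · positivity
  have hq1 : ∀ C, q C < 1 := by
    intro C
    simp only [hq]
    split_ifs
    · norm_num
    · rw [div_lt_one (by positivity)]
      linarith
  have hNpos : (0 : ℝ) < 𝓥.card := by
    exact_mod_cast Finset.card_pos.mpr ⟨∅, h.empty_mem⟩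
  have key := two_orders h hdist q hq0 hq1
  -- bound each summand
  have hbound : ∀ C ∈ circs 𝓥,
      (2 * ((𝓥.filter (fun F => C ∈ dec 𝓥 F)).card : ℝ) * (- Real.log (q C)) +
        ((𝓥.card : ℝ) - ((𝓥.filter (fun F => C ∈ dec 𝓥 F)).card : ℝ) +
          ((𝓥.filter (fun F => Disjoint F C)).card : ℝ)) * (- Real.log (1 - q C))) ≤
      2 * lam * (((𝓥.filter (fun F => C ∈ dec 𝓥 F)).card : ℝ) * C.card) +
        (𝓥.card : ℝ) * om lam C.card := by
    intro C hC
    have hCc := mem_circs.mp hC
    have hsub : ((𝓥.filter (fun F => C ∈ dec 𝓥 F)).card : ℝ) ≤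
        ((𝓥.filter (fun F => Disjoint F C)).card : ℝ) := by
      rw [← card_filter_sub_eq h hCc.1]
      norm_cast
      apply Finset.card_le_card
      intro F hF
      rw [Finset.mem_filter] at hF ⊢
      refine ⟨hF.1, ?_⟩
      have := (dec_spec h hF.1).2.2
      rw [← this]
      exact Finset.subset_biUnion_of_mem id hF.2
    set a : ℝ := ((𝓥.filter (fun F => C ∈ dec 𝓥 F)).card : ℝ) with ha
    set r : ℝ := ((𝓥.filter (fun F => Disjoint F C)).card : ℝ) with hr
    set N : ℝ := (𝓥.card : ℝ) with hN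
    have ha0 : 0 ≤ a := by rw [ha]; positivity
    by_cases hiso : ∀ F ∈ 𝓥, Disjoint F C ∨ C ⊆ F
    · have hqC : q C = 1 / 2 := by simp only [hq]; rw [if_pos hiso]
      have h12 : (1 : ℝ) - 1 / 2 = 1 / 2 := by norm_num
      have hl : - Real.log (1 / 2) = Real.log 2 := by
        rw [one_div, Real.log_inv, neg_neg]
      rw [hqC, h12, hl]
      have hr2 : 2 * r = N := by
        rw [hr, hN]
        exact_mod_cast half h hCc.1 hCc.2.1 hiso
      have har : a = r := by
        apply le_antisymm hsub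
        rw [hr, ← card_filter_sub_eq h hCc.1, ha]
        norm_cast
        apply Finset.card_le_card
        intro F hF
        rw [Finset.mem_filter] at hF ⊢
        refine ⟨hF.1, ?_⟩
        obtain ⟨hd1, hd2, hd3⟩ := dec_spec h hF.1
        obtain ⟨x, hx⟩ := hCc.2.1
        have hxF := hF.2 hx
        rw [← hd3, Finset.mem_biUnion] at hxF
        obtain ⟨C', hC', hxC'⟩ := hxF
        rcases hiso C' (hd1 C' hC').1 with hdj | hss
        · exact absurd hx (Finset.disjoint_left.mp hdj hxC')
        · have : C = C' := (hd1 C' hC').2.2 C hCc.1 hss hCc.2.1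
          rw [this]
          exact hC'
      have hom : 2 * Real.log 2 - C.card * lam ≤ om lam C.card := le_max_left _ _
      have hN0 : 0 ≤ N := hNpos.le
      have : N * (2 * Real.log 2 - C.card * lam) ≤ N * om lam C.card :=
        mul_le_mul_of_nonneg_left hom hN0
      have h2a : 2 * a = N := by rw [har]; exact hr2
      have : 2 * lam * (a * C.card) = N * (C.card * lam) := by
        rw [← h2a]; ring
      rw [this]
      have hrr : r = N / 2 := by linarith
      have haa : a = N / 2 := by linarith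
      rw [hrr, haa]
      nlinarith
    · have hqC : q C = Real.exp (- (lam * C.card)) / (1 + Real.exp (- (lam * C.card))) := by
        simp only [hq]; rw [if_neg hiso]
      push Not at hiso
      obtain ⟨F0, hF0, hnd, hns⟩ := hiso
      have h4 : 4 * r ≤ N := by
        rw [hr, hN]
        exact_mod_cast quarter h hCc.1 hCc.2.1 hF0 hnd hns
      set u : ℝ := Real.exp (- (lam * C.card)) with hu
      have hu0 : 0 < u := Real.exp_pos _
      set L : ℝ := Real.log (1 + u) with hL
      have hL0 : 0 ≤ L := Real.log_nonneg (by linarith)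
      have e1 : - Real.log (q C) = C.card * lam + L := by
        rw [hqC, Real.log_div hu0.ne' (by positivity), hu, Real.log_exp, ← hu, ← hL]
        ring
      have e2 : - Real.log (1 - q C) = L := by
        have : 1 - q C = (1 + u)⁻¹ := by
          rw [hqC]
          field_simp
          ring
        rw [this, Real.log_inv, neg_neg]
      rw [e1, e2]
      have hom : 3 / 2 * L ≤ om lam C.card := le_max_right _ _
      have hN0 : 0 ≤ N := hNpos.le
      have h5 : N * (3 / 2 * L) ≤ N * om lam C.card := mul_le_mul_of_nonneg_left hom hN0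
      have h6 : (N + a + r) * L ≤ (N * (3 / 2)) * L := by
        apply mul_le_mul_of_nonneg_right _ hL0
        linarith
      nlinarith
  have key2 := key.trans (Finset.sum_le_sum hbound)
  rw [Finset.sum_add_distrib, ← Finset.mul_sum, ← Finset.mul_sum] at key2
  -- total length
  have hlen : ∑ C ∈ circs 𝓥, (((𝓥.filter (fun F => C ∈ dec 𝓥 F)).card : ℝ) * C.card) =
      ∑ F ∈ 𝓥, (F.card : ℝ) := by
    have e : ∀ C ∈ circs 𝓥, (((𝓥.filter (fun F => C ∈ dec 𝓥 F)).card : ℝ) * C.card) =
        ∑ F ∈ 𝓥, if C ∈ dec 𝓥 F then (C.card : ℝ) else 0 := by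
      intro C _
      rw [← Finset.sum_filter, Finset.sum_const, nsmul_eq_mul]
    rw [Finset.sum_congr rfl e, Finset.sum_comm]
    apply Finset.sum_congr rfl
    intro F hF
    obtain ⟨hd1, hd2, hd3⟩ := dec_spec h hF
    rw [← Finset.sum_filter]
    have e2 : (circs 𝓥).filter (fun C => C ∈ dec 𝓥 F) = dec 𝓥 F := by
      ext C
      rw [Finset.mem_filter]
      exact ⟨fun hh => hh.2, fun hh => ⟨mem_circs.mpr (hd1 C hh), hh⟩⟩
    rw [e2]
    have e3 : F.card = ∑ C ∈ dec 𝓥 F, C.card := by
      conv_lhs => rw [← hd3]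
      rw [Finset.card_biUnion]
      · simp
      · intro C hC C' hC' hne
        exact hd2 C hC C' hC' hne
    rw [e3]
    push_cast
    rfl
  rw [hlen] at key2
  have hle : 2 * ∑ F ∈ 𝓥, (F.card : ℝ) ≤ 𝓥.card * E.card := by
    exact_mod_cast sum_card_le h hE
  have homsum : ∑ C ∈ circs 𝓥, om lam C.card ≤ ∑ i ∈ Finset.Icc 1 E.card, om lam i := by
    have hinj : Set.InjOn (fun C : Finset α => C.card) (circs 𝓥) := by
      intro C hC C' hC' heq
      exact hdist C C' (mem_circs.mp hC) (mem_circs.mp hC') heq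
    rw [← Finset.sum_image (f := fun i => om lam i) hinj]
    apply Finset.sum_le_sum_of_subset_of_nonneg
    · intro i hi
      rw [Finset.mem_image] at hi
      obtain ⟨C, hC, rfl⟩ := hi
      have hCc := mem_circs.mp hC
      rw [Finset.mem_Icc]
      exact ⟨Finset.card_pos.mpr hCc.2.1, Finset.card_le_card (hE C hCc.1)⟩
    · intro i _ _
      exact om_nonneg lam i
  have h7 : 2 * ((𝓥.card : ℝ) * Real.log 𝓥.card) ≤
      𝓥.card * (lam * E.card + ∑ i ∈ Finset.Icc 1 E.card, om lam i) := by
    have h8 : (𝓥.card : ℝ) * ∑ C ∈ circs 𝓥, om lam C.card ≤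
        𝓥.card * ∑ i ∈ Finset.Icc 1 E.card, om lam i :=
      mul_le_mul_of_nonneg_left homsum hNpos.le
    have h9 : lam * (2 * ∑ F ∈ 𝓥, (F.card : ℝ)) ≤ lam * (𝓥.card * E.card) :=
      mul_le_mul_of_nonneg_left hle hlam.le
    nlinarith
  have h10 : (𝓥.card : ℝ) * (2 * Real.log 𝓥.card) ≤
      𝓥.card * (lam * E.card + ∑ i ∈ Finset.Icc 1 E.card, om lam i) := by
    linarith
  exact le_of_mul_le_mul_left h10 hNpos

end Space

end Pool.Agent.Helper33.Cyc
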