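import Mathlib
import Pool.Agent.Helper33.CycSpace

set_option autoImplicit false

namespace Pool.Agent.Helper33.Cyc

open Finset

theorem exp_neg_le (t : ℝ) (ht : 0 ≤ t) : Real.exp (-t) ≤ 1 - t + t ^ 2 / 2 := by
  have h := Real.quadratic_le_exp_of_nonneg ht
  have hpos : 0 < 1 + t + t ^ 2 / 2 := by positivity
  rw [Real.exp_neg]
  rw [inv_le_comm₀ (Real.exp_pos _) (by nlinarith [sq_nonneg (t - 1)])]
  refine le_trans ?_ h
  rw [inv_le_comm₀ (by nlinarith [sq_nonneg (t - 1)]) hpos]
  rw [inv_le_iff_one_le_mul₀ hpos]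
  nlinarith [sq_nonneg (t ^ 2)]

theorem log_one_add_le (u : ℝ) (h0 : 0 ≤ u) (h1 : u ≤ 1 / 2) :
    Real.log (1 + u) ≤ u - u ^ 2 / 3 := by
  rw [Real.log_le_iff_le_exp (by linarith)]
  have hy : 0 ≤ u - u ^ 2 / 3 := by nlinarith
  refine le_trans ?_ (Real.quadratic_le_exp_of_nonneg hy)
  nlinarith [mul_nonneg (mul_nonneg h0 h0) (sub_nonneg.mpr h1), pow_nonneg h0 4]

/-- `b = 4^(-3/5)` -/
noncomputable def bb : ℝ := Real.exp (- (6 / 5 * Real.log 2))

theorem bb_pow : bb ^ 5 = 1 / 64 := by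
  unfold bb
  rw [← Real.exp_nat_mul]
  have : ((5 : ℕ) : ℝ) * -(6 / 5 * Real.log 2) = - (((6 : ℕ) : ℝ) * Real.log 2) := by
    push_cast; ring
  rw [this, Real.exp_neg, Real.exp_nat_mul, Real.exp_log (by norm_num)]
  norm_num

theorem bb_pos : 0 < bb := Real.exp_pos _

theorem bb_le : bb ≤ 4353 / 10000 := by
  by_contra h
  push Not at h
  have h5 : (4353 / 10000 : ℝ) ^ 5 < bb ^ 5 := pow_lt_pow_left₀ h (by norm_num) (by norm_num)
  rw [bb_pow] at h5
  norm_num at h5

theorem le_bb : 4352 / 10000 ≤ bb := by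
  by_contra h
  push Not at h
  have h5 : bb ^ 5 < (4352 / 10000 : ℝ) ^ 5 := pow_lt_pow_left₀ h bb_pos.le (by norm_num)
  rw [bb_pow] at h5
  norm_num at h5

/-- (ii) -/
theorem short_bound (x : ℝ) (h0 : 0 ≤ x) (h1 : x ≤ 3 / 5) :
    3 / 2 * Real.log (1 + Real.exp (- (2 * x * Real.log 2))) ≤ 2 * Real.log 2 * (1 - x) := by
  set s : ℝ := Real.exp (- (2 / 3 * x * Real.log 2)) with hs
  have hl0 : 0 < Real.log 2 := Real.log_pos (by norm_num)
  have hs3 : Real.exp (- (2 * x * Real.log 2)) = s ^ 3 := by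
    rw [hs, ← Real.exp_nat_mul]
    congr 1
    push_cast
    ring
  have hc : ∃ c : ℝ, c = Real.exp (4 / 3 * Real.log 2) := ⟨_, rfl⟩
  obtain ⟨c, hc⟩ := hc
  have hc3 : c ^ 3 = 16 := by
    rw [hc, ← Real.exp_nat_mul]
    have : ((3 : ℕ) : ℝ) * (4 / 3 * Real.log 2) = ((4 : ℕ) : ℝ) * Real.log 2 := by
      push_cast; ring
    rw [this, Real.exp_nat_mul, Real.exp_log (by norm_num)]
    norm_num
  have hcpos : 0 < c := by rw [hc]; exact Real.exp_pos _
  have hcl : 25198 / 10000 ≤ c := by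
    by_contra h
    push Not at h
    have h5 : c ^ 3 < (25198 / 10000 : ℝ) ^ 3 := pow_lt_pow_left₀ h hcpos.le (by norm_num)
    rw [hc3] at h5
    norm_num at h5
  have hs1 : s ≤ 1 := by
    rw [hs, Real.exp_le_one_iff]
    have : 0 ≤ 2 / 3 * x * Real.log 2 := by positivity
    linarith
  have hs0 : 7578 / 10000 ≤ s := by
    have h2 : Real.exp (- (2 / 5 * Real.log 2)) ≤ s := by
      rw [hs]
      apply Real.exp_le_exp.mpr
      nlinarith
    refine le_trans ?_ h2
    by_contra h
    push Not at h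
    have h5 : (Real.exp (- (2 / 5 * Real.log 2))) ^ 5 < (7578 / 10000 : ℝ) ^ 5 :=
      pow_lt_pow_left₀ h (Real.exp_pos _).le (by norm_num)
    have h6 : (Real.exp (- (2 / 5 * Real.log 2))) ^ 5 = 1 / 4 := by
      rw [← Real.exp_nat_mul]
      have : ((5 : ℕ) : ℝ) * -(2 / 5 * Real.log 2) = - (((2 : ℕ) : ℝ) * Real.log 2) := by
        push_cast; ring
      rw [this, Real.exp_neg, Real.exp_nat_mul, Real.exp_log (by norm_num)]
      norm_num
    rw [h6] at h5
    norm_num at h5
  have hspos : 0 < s := Real.exp_pos _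
  have hmain : 1 + s ^ 3 ≤ Real.exp (4 / 3 * (1 - x) * Real.log 2) := by
    have e : Real.exp (4 / 3 * (1 - x) * Real.log 2) = c * s ^ 2 := by
      rw [hc, hs, ← Real.exp_nat_mul, ← Real.exp_add]
      congr 1
      push_cast
      ring
    rw [e]
    have h3 : 25198 / 10000 * s ^ 2 ≤ c * s ^ 2 :=
      mul_le_mul_of_nonneg_right hcl (by positivity)
    refine le_trans ?_ h3
    nlinarith [mul_nonneg (sub_nonneg.mpr hs0) (sub_nonneg.mpr hs1),
      mul_nonneg (mul_nonneg (sub_nonneg.mpr hs0) (sub_nonneg.mpr hs1)) hspos.le]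
  rw [hs3]
  have h4 : Real.log (1 + s ^ 3) ≤ 4 / 3 * (1 - x) * Real.log 2 := by
    rw [Real.log_le_iff_le_exp (by positivity)]
    exact hmain
  linarith

/-- (iii) -/
theorem long_bound_iso (x : ℝ) (h1 : 3 / 5 ≤ x) :
    2 * Real.log 2 * (1 - x) ≤ 3 / 2 * (Real.exp (- (2 * x * Real.log 2)) -
      Real.exp (- (2 * x * Real.log 2)) ^ 2 / 3) := by
  have hl0 : 0 < Real.log 2 := Real.log_pos (by norm_num)
  have hl1 : Real.log 2 ≤ 6932 / 10000 := by linarith [Real.log_two_lt_d9]
  set u : ℝ := Real.exp (- (2 * x * Real.log 2)) with hu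
  have hu0 : 0 < u := Real.exp_pos _
  have hu1 : u ≤ 1 := by
    rw [hu, Real.exp_le_one_iff]
    have : 0 ≤ 2 * x * Real.log 2 := by positivity
    linarith
  rcases le_total 1 x with hx | hx
  · have : 2 * Real.log 2 * (1 - x) ≤ 0 := by
      apply mul_nonpos_of_nonneg_of_nonpos
      · positivity
      · linarith
    nlinarith
  · set δ : ℝ := x - 3 / 5 with hδ
    have hδ0 : 0 ≤ δ := by linarith
    have hδ1 : δ ≤ 2 / 5 := by linarith
    have hub : bb * (1 - 2 * δ * Real.log 2) ≤ u := by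
      have e : u = bb * Real.exp (- (2 * δ * Real.log 2)) := by
        rw [hu, bb, ← Real.exp_add]
        congr 1
        rw [hδ]
        ring
      rw [e]
      apply mul_le_mul_of_nonneg_left _ bb_pos.le
      have := Real.add_one_le_exp (- (2 * δ * Real.log 2))
      linarith
    set t : ℝ := 1 - 13864 / 10000 * δ with ht
    have ht1 : t ≤ 1 := by linarith
    have ht0 : 4 / 10 ≤ t := by linarith
    have hut : 4352 / 10000 * t ≤ u := by
      refine le_trans ?_ hub
      have : t ≤ 1 - 2 * δ * Real.log 2 := by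
        rw [ht]
        nlinarith
      nlinarith [le_bb, mul_le_mul le_bb this (by linarith) bb_pos.le]
    have hmono : 4352 / 10000 * t - (4352 / 10000 * t) ^ 2 / 3 ≤ u - u ^ 2 / 3 := by
      nlinarith
    have hL : 2 * Real.log 2 * (1 - x) ≤ 13864 / 10000 * (2 / 5 - δ) := by
      have : 1 - x = 2 / 5 - δ := by rw [hδ]; ring
      rw [this]
      nlinarith
    refine hL.trans ?_
    have : 13864 / 10000 * (2 / 5 - δ) = 13864 / 10000 * (2 / 5) - (1 - t) := by
      rw [ht]; ring
    rw [this]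
    nlinarith

theorem u_le_bb (x : ℝ) (h1 : 3 / 5 ≤ x) : Real.exp (- (2 * x * Real.log 2)) ≤ bb := by
  have hl0 : 0 < Real.log 2 := Real.log_pos (by norm_num)
  unfold bb
  apply Real.exp_le_exp.mpr
  nlinarith

theorem om_short (p : ℝ) (hp : 0 < p) (i : ℕ) (hi : p * i ≤ 3 / 5) :
    om (2 * p * Real.log 2) i ≤ 2 * Real.log 2 * (1 - p * i) := by
  unfold om
  apply max_le
  · apply le_of_eq
    ring
  · have h := short_bound (p * i) (by positivity) hi
    have e : 2 * p * Real.log 2 * (i : ℝ) = 2 * (p * i) * Real.log 2 := by ring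
    rw [e]
    exact h

theorem om_long (p : ℝ) (i : ℕ) (hi : 3 / 5 ≤ p * i) :
    om (2 * p * Real.log 2) i ≤ 3 / 2 * (Real.exp (- (2 * p * Real.log 2)) ^ i -
      (Real.exp (- (2 * p * Real.log 2)) ^ i) ^ 2 / 3) := by
  have e : Real.exp (- (2 * p * Real.log 2)) ^ i = Real.exp (- (2 * (p * i) * Real.log 2)) := by
    rw [← Real.exp_nat_mul]
    congr 1
    ring
  have e2 : 2 * p * Real.log 2 * (i : ℝ) = 2 * (p * i) * Real.log 2 := by ring
  rw [e]
  unfold om
  rw [e2]
  apply max_le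
  · have h := long_bound_iso (p * i) hi
    have e3 : 2 * Real.log 2 - (i : ℝ) * (2 * p * Real.log 2) =
        2 * Real.log 2 * (1 - p * i) := by ring
    rw [e3]
    exact h
  · have h := log_one_add_le _ (Real.exp_pos (- (2 * (p * i) * Real.log 2))).le
      ((u_le_bb (p * i) hi).trans (bb_le.trans (by norm_num)))
    linarith

theorem sum_short (p : ℝ) (hp : 0 < p) (M : ℕ) (hM : p * M ≤ 3 / 5) :
    ∑ i ∈ Finset.Icc 1 M, om (2 * p * Real.log 2) i ≤
      2 * Real.log 2 * (M - p * M ^ 2 / 2) := by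
  have hl0 : 0 < Real.log 2 := Real.log_pos (by norm_num)
  induction M with
  | zero => simp
  | succ M ih =>
    have hM' : p * M ≤ 3 / 5 := by
      refine le_trans ?_ hM
      push_cast
      nlinarith
    rw [Finset.sum_Icc_succ_top (by omega)]
    have h1 := om_short p hp (M + 1) hM
    have h2 := ih hM'
    refine (add_le_add h2 h1).trans ?_
    rw [← mul_add]
    apply mul_le_mul_of_nonneg_left _ (by positivity)
    push_cast
    nlinarith

theorem sum_long (p : ℝ) (hp : 0 < p) (I M : ℕ) (hI : 3 / 5 ≤ p * (I + 1)) :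
    ∑ i ∈ Finset.Icc (I + 1) (I + M), om (2 * p * Real.log 2) i ≤
      3 / 2 * ((Real.exp (- (2 * p * Real.log 2)) ^ (I + 1) -
          Real.exp (- (2 * p * Real.log 2)) ^ (I + M + 1)) / (1 - Real.exp (- (2 * p * Real.log 2)))
        - ((Real.exp (- (2 * p * Real.log 2)) ^ (I + 1)) ^ 2 -
          (Real.exp (- (2 * p * Real.log 2)) ^ (I + M + 1)) ^ 2) /
            (3 * (1 - Real.exp (- (2 * p * Real.log 2)) ^ 2))) := by
  have hl0 : 0 < Real.log 2 := Real.log_pos (by norm_num)
  have hz1 : Real.exp (- (2 * p * Real.log 2)) < 1 := by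
    rw [Real.exp_lt_one_iff]
    have : 0 < 2 * p * Real.log 2 := by positivity
    linarith
  have hz0 : 0 < Real.exp (- (2 * p * Real.log 2)) := Real.exp_pos _
  induction M with
  | zero => simp
  | succ M ih =>
    have h1 : 3 / 5 ≤ p * ((I + (M + 1) : ℕ) : ℝ) := by
      refine hI.trans ?_
      apply mul_le_mul_of_nonneg_left _ hp.le
      push_cast
      have : (0 : ℝ) ≤ M := by positivity
      linarith
    have h2 := om_long p _ h1
    have hE : Finset.Icc (I + 1) (I + (M + 1)) = insert (I + (M + 1)) (Finset.Icc (I + 1) (I + M)) := by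
      ext j
      simp only [Finset.mem_Icc, Finset.mem_insert]
      omega
    rw [hE, Finset.sum_insert (by simp)]
    refine (add_le_add h2 ih).trans (le_of_eq ?_)
    generalize Real.exp (- (2 * p * Real.log 2)) = z at hz0 hz1 ⊢
    have h3 : (1 - z) ≠ 0 := by linarith
    have h4 : (1 - z ^ 2) ≠ 0 := by
      have : z ^ 2 < 1 := by nlinarith
      linarith
    have e1 : z ^ (I + (M + 1)) = z ^ (I + 1) * z ^ M := by ring
    have e2 : z ^ (I + M + 1) = z ^ (I + 1) * z ^ M := by ring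
    have e3 : z ^ (I + (M + 1) + 1) = z ^ (I + 1) * z ^ M * z := by ring
    rw [e1, e2, e3]
    have h5 : (1 - z ^ 2) = (1 - z) * (1 + z) := by ring
    rw [h5]
    have h6 : (1 + z) ≠ 0 := by linarith
    field_simp
    ring

theorem sum_om_le (p : ℝ) (hp : 0 < p) (hp' : p ≤ 3 / 50) (M : ℕ) :
    ∑ i ∈ Finset.Icc 1 M, om (2 * p * Real.log 2) i ≤ 3 / 2 * Real.log 2 / p := by
  have hl0 : 0 < Real.log 2 := Real.log_pos (by norm_num)
  have hl1 : Real.log 2 ≤ 6932 / 10000 := by linarith [Real.log_two_lt_d9]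
  have hl2 : 6931 / 10000 ≤ Real.log 2 := by linarith [Real.log_two_gt_d9]
  -- short part bound
  have hshort : ∀ K : ℕ, p * K ≤ 3 / 5 →
      ∑ i ∈ Finset.Icc 1 K, om (2 * p * Real.log 2) i ≤ 84 / 100 * Real.log 2 / p := by
    intro K hK
    refine (sum_short p hp K hK).trans ?_
    rw [le_div_iff₀ hp]
    have hy : 0 ≤ p * K := by positivity
    have : 2 * Real.log 2 * (K - p * K ^ 2 / 2) * p =
        Real.log 2 * (2 * ((p * K) - (p * K) ^ 2 / 2)) := by ring
    rw [this, mul_comm (84 / 100) (Real.log 2)]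
    apply mul_le_mul_of_nonneg_left _ hl0.le
    nlinarith
  set I : ℕ := ⌊(3 / 5) / p⌋₊ with hIdef
  have hI1 : p * I ≤ 3 / 5 := by
    have := Nat.floor_le (show (0 : ℝ) ≤ (3 / 5) / p by positivity)
    rw [← hIdef, le_div_iff₀ hp] at this
    linarith
  have hI2 : 3 / 5 ≤ p * (I + 1) := by
    have := Nat.lt_floor_add_one ((3 / 5 : ℝ) / p)
    rw [← hIdef, div_lt_iff₀ hp] at this
    linarith
  rcases le_total M I with hMI | hMI
  · have hM : p * M ≤ 3 / 5 := by
      refine le_trans ?_ hI1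
      apply mul_le_mul_of_nonneg_left _ hp.le
      exact_mod_cast hMI
    refine (hshort M hM).trans ?_
    apply div_le_div_of_nonneg_right _ hp.le
    nlinarith
  · obtain ⟨M', rfl⟩ := Nat.exists_eq_add_of_le hMI
    have hE : Finset.Icc 1 (I + M') = Finset.Icc 1 I ∪ Finset.Icc (I + 1) (I + M') := by
      ext j
      simp only [Finset.mem_Icc, Finset.mem_union]
      omega
    have hdisj : Disjoint (Finset.Icc 1 I) (Finset.Icc (I + 1) (I + M')) := by
      rw [Finset.disjoint_left]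
      intro j h1 h2
      simp only [Finset.mem_Icc] at h1 h2
      omega
    rw [hE, Finset.sum_union hdisj]
    have h1 := hshort I hI1
    have h2 := sum_long p hp I M' hI2
    have hvb : Real.exp (- (2 * p * Real.log 2)) ^ (I + 1) ≤ bb := by
      have e : Real.exp (- (2 * p * Real.log 2)) ^ (I + 1) =
          Real.exp (- (2 * (p * (I + 1)) * Real.log 2)) := by
        rw [← Real.exp_nat_mul]
        congr 1
        push_cast
        ring
      rw [e]
      exact u_le_bb _ hI2
    have hexp := exp_neg_le (2 * p * Real.log 2) (by positivity)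
    have hz1 : Real.exp (- (2 * p * Real.log 2)) < 1 := by
      rw [Real.exp_lt_one_iff]
      have : 0 < 2 * p * Real.log 2 := by positivity
      linarith
    have hz0 : 0 < Real.exp (- (2 * p * Real.log 2)) := Real.exp_pos _
    have h3 : 3 / 2 * ((Real.exp (- (2 * p * Real.log 2)) ^ (I + 1) -
          Real.exp (- (2 * p * Real.log 2)) ^ (I + M' + 1)) / (1 - Real.exp (- (2 * p * Real.log 2)))
        - ((Real.exp (- (2 * p * Real.log 2)) ^ (I + 1)) ^ 2 -
          (Real.exp (- (2 * p * Real.log 2)) ^ (I + M' + 1)) ^ 2) /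
            (3 * (1 - Real.exp (- (2 * p * Real.log 2)) ^ 2))) ≤
        66 / 100 * Real.log 2 / p := by
      generalize hz : Real.exp (- (2 * p * Real.log 2)) = z at hz0 hz1 hexp hvb ⊢
      have hv0 : 0 ≤ z ^ (I + 1) := by positivity
      have hw0 : 0 ≤ z ^ (I + M' + 1) := by positivity
      have hw1 : z ^ (I + M' + 1) ≤ 1 := pow_le_one₀ hz0.le hz1.le
      generalize z ^ (I + 1) = v at hv0 hvb ⊢
      generalize z ^ (I + M' + 1) = w at hw0 hw1 ⊢
      have h1z : 0 < 1 - z := by linarith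
      have h5 : (1 - z ^ 2) = (1 - z) * (1 + z) := by ring
      have h6 : 0 < 1 + z := by linarith
      have e : 3 / 2 * ((v - w) / (1 - z) - (v ^ 2 - w ^ 2) / (3 * (1 - z ^ 2))) =
          3 / 2 * ((v - w) * (3 * (1 + z)) - (v ^ 2 - w ^ 2)) / (3 * (1 + z)) / (1 - z) := by
        rw [h5]
        field_simp
      rw [e]
      -- numerator bound
      have hnum : 3 / 2 * ((v - w) * (3 * (1 + z)) - (v ^ 2 - w ^ 2)) / (3 * (1 + z)) ≤
          3 / 2 * (4038 / 10000) := by
        rw [div_le_iff₀ (by positivity)]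
        have hb := bb_le
        have hb0 := bb_pos
        have hw2 : 0 ≤ w * (3 * (1 + z)) - w ^ 2 := by nlinarith
        have hv2 : v * (3 * (1 + z)) - v ^ 2 ≤ bb * (3 * (1 + z)) - bb ^ 2 := by nlinarith
        have hb2 : bb * (3 * (1 + z)) - bb ^ 2 ≤ 4038 / 10000 * (3 * (1 + z)) := by
          nlinarith [le_bb]
        nlinarith
      have h1z' : 2 * p * Real.log 2 * (1 - p * Real.log 2) ≤ 1 - z := by
        nlinarith
      have hpl : p * Real.log 2 ≤ 42 / 1000 := by nlinarith
      have hden : 2 * p * Real.log 2 * (958 / 1000) ≤ 1 - z := by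
        refine le_trans ?_ h1z'
        apply mul_le_mul_of_nonneg_left _ (by positivity)
        linarith
      have hdpos : 0 < 2 * p * Real.log 2 * (958 / 1000) := by positivity
      calc 3 / 2 * ((v - w) * (3 * (1 + z)) - (v ^ 2 - w ^ 2)) / (3 * (1 + z)) / (1 - z)
          ≤ 3 / 2 * (4038 / 10000) / (1 - z) := div_le_div_of_nonneg_right hnum h1z.le
        _ ≤ 3 / 2 * (4038 / 10000) / (2 * p * Real.log 2 * (958 / 1000)) :=
            div_le_div_of_nonneg_left (by norm_num) hdpos hden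
        _ ≤ 66 / 100 * Real.log 2 / p := by
            rw [div_le_div_iff₀ hdpos hp]
            have : 3 / 2 * (4038 / 10000) ≤ 66 / 100 * Real.log 2 * (2 * Real.log 2 * (958 / 1000)) := by
              nlinarith
            nlinarith
    have h4 := h2.trans h3
    have h5 : 84 / 100 * Real.log 2 / p + 66 / 100 * Real.log 2 / p = 3 / 2 * Real.log 2 / p := by
      ring
    linarith

end Pool.Agent.Helper33.Cyc
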