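import Mathlib
import Pool.Agent.Helper33.CycAnalysis

set_option autoImplicit false

namespace Pool.Agent.Helper33.Cyc

open Finset

section

variable {α : Type*} [DecidableEq α]

theorem even_symmDiff_iff (X Y : Finset α) :
    Even (symmDiff X Y).card ↔ (Even X.card ↔ Even Y.card) := by
  have h1 : (symmDiff X Y).card = (X \ Y).card + (Y \ X).card := by
    rw [Finset.symmDiff_def, Finset.card_union_of_disjoint disjoint_sdiff_sdiff]
  have h2 := Finset.card_sdiff_add_card_inter X Y
  have h3 := Finset.card_sdiff_add_card_inter Y X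
  rw [Finset.inter_comm] at h3
  rw [h1, ← h2, ← h3]
  simp only [Nat.even_add]
  tauto

theorem filter_symmDiff' (X Y : Finset α) (P : α → Prop) [DecidablePred P] :
    (symmDiff X Y).filter P = symmDiff (X.filter P) (Y.filter P) := by
  ext x
  simp only [Finset.mem_filter, Finset.mem_symmDiff]
  tauto

end

section Graph

variable {V : Type*} [Fintype V]

open Classical in
/-- the cycle space of a graph, as a family of edge sets -/
noncomputable def cyc (G : SimpleGraph V) : Finset (Finset (Sym2 V)) :=
  G.edgeFinset.powerset.filter (fun F => ∀ v, Even (F.filter (fun e => v ∈ e)).card)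

open Classical in
theorem isSpace_cyc (G : SimpleGraph V) : IsSpace (cyc G) := by
  constructor
  · simp [cyc]
  · intro A hA B hB
    simp only [cyc, Finset.mem_filter, Finset.mem_powerset] at hA hB ⊢
    refine ⟨?_, ?_⟩
    · refine Finset.symmDiff_subset_union.trans (Finset.union_subset hA.1 hB.1)
    · intro v
      rw [filter_symmDiff', even_symmDiff_iff]
      exact iff_of_true (hA.2 v) (hB.2 v)

open Classical in
theorem card_cyc (G : SimpleGraph V) :
    2 ^ G.edgeFinset.card ≤ (cyc G).card * 2 ^ Fintype.card V := by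
  have h := Finset.card_le_mul_card_image_of_maps_to
    (f := fun F : Finset (Sym2 V) =>
      (Finset.univ.filter (fun v : V => Even (F.filter (fun e => v ∈ e)).card)))
    (s := G.edgeFinset.powerset) (t := (Finset.univ : Finset (Finset V)))
    (fun _ _ => Finset.mem_univ _) (cyc G).card ?_
  · rw [Finset.card_powerset, Finset.card_univ, Fintype.card_finset] at h
    exact h
  · intro b _
    rcases (Finset.filter (fun F : Finset (Sym2 V) =>
      (Finset.univ.filter (fun v : V => Even (F.filter (fun e => v ∈ e)).card)) = b)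
        G.edgeFinset.powerset).eq_empty_or_nonempty with he | ⟨F0, hF0⟩
    · rw [he]; simp
    · apply Finset.card_le_card_of_injOn (fun F => symmDiff F F0)
      · intro F hF
        rw [Finset.mem_coe, Finset.mem_filter, Finset.mem_powerset] at hF
        rw [Finset.mem_filter, Finset.mem_powerset] at hF0
        simp only [cyc]
        rw [Finset.mem_coe, Finset.mem_filter, Finset.mem_powerset]
        refine ⟨Finset.symmDiff_subset_union.trans (Finset.union_subset hF.1 hF0.1), ?_⟩
        intro v
        rw [filter_symmDiff', even_symmDiff_iff]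
        have := hF.2.trans hF0.2.symm
        have hv := Finset.ext_iff.mp this v
        simpa using hv
      · intro F _ F' _ heq
        exact symmDiff_left_injective F0 heq

open Classical in
theorem exists_cycle_of_even (F : Finset (Sym2 V))
    (hF : ∀ v, Even (F.filter (fun e => v ∈ e)).card) (hne : F.Nonempty)
    (hdiag : ∀ e ∈ F, ¬ e.IsDiag) :
    ∃ (v : V) (c : (SimpleGraph.fromEdgeSet (F : Set (Sym2 V))).Walk v v), c.IsCycle := by
  by_contra hcon
  set H := SimpleGraph.fromEdgeSet (F : Set (Sym2 V)) with hH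
  have hac : H.IsAcyclic := by
    intro v c hc
    exact hcon ⟨v, c, hc⟩
  have hadj : ∀ a b, s(a, b) ∈ F → H.Adj a b := by
    intro a b hab
    rw [hH, SimpleGraph.fromEdgeSet_adj]
    refine ⟨by exact_mod_cast hab, ?_⟩
    intro he
    exact hdiag _ hab (by simp [he])
  have hadj' : ∀ a b, H.Adj a b → s(a, b) ∈ F := by
    intro a b hab
    rw [hH, SimpleGraph.fromEdgeSet_adj] at hab
    exact_mod_cast hab.1
  -- longest path
  set P : ℕ → Prop := fun n => ∃ (u v : V) (p : H.Walk u v), p.IsPath ∧ p.length = n with hP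
  have hP1 : P 1 := by
    obtain ⟨e, he⟩ := hne
    induction e using Sym2.ind with
    | _ a b =>
      have hab := hadj a b he
      refine ⟨a, b, SimpleGraph.Walk.cons hab SimpleGraph.Walk.nil, ?_, by simp⟩
      simp [hab.ne]
  have hbd : ∀ n, P n → n < Fintype.card V := by
    rintro n ⟨u, v, p, hp, rfl⟩
    exact hp.length_lt
  have hgP : P (Nat.findGreatest P (Fintype.card V)) :=
    Nat.findGreatest_spec (hbd 1 hP1).le hP1
  have hg1 : 1 ≤ Nat.findGreatest P (Fintype.card V) :=
    Nat.le_findGreatest (hbd 1 hP1).le hP1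
  have hmax : ∀ m, P m → m ≤ Nat.findGreatest P (Fintype.card V) := fun m hm =>
    Nat.le_findGreatest (hbd m hm).le hm
  obtain ⟨u, v, p, hp, hlen⟩ := hgP
  have hnil : ¬ p.Nil := by
    rw [← SimpleGraph.Walk.length_eq_zero_iff]
    omega
  have hpen := p.adj_penultimate hnil
  have hpe : s(p.penultimate, v) ∈ F.filter (fun e => v ∈ e) := by
    rw [Finset.mem_filter]
    exact ⟨hadj' _ _ hpen, by simp⟩
  have hcard : 1 < (F.filter (fun e => v ∈ e)).card := by
    have h1 : 0 < (F.filter (fun e => v ∈ e)).card := Finset.card_pos.mpr ⟨_, hpe⟩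
    obtain ⟨k, hk⟩ := hF v
    omega
  obtain ⟨e', he', hne'⟩ := Finset.exists_mem_ne hcard s(p.penultimate, v)
  rw [Finset.mem_filter] at he'
  obtain ⟨w, rfl⟩ := Sym2.mem_iff_exists.mp he'.2
  have hvw := hadj v w he'.1
  have hwpen : w ≠ p.penultimate := by
    rintro rfl
    exact hne' Sym2.eq_swap
  have hws : w ∉ p.support := fun hmem => hwpen (hac.eq_penultimate_of_adj_end hp hvw hmem)
  have hpath : (p.concat hvw).IsPath := hp.concat hws hvw
  have := hmax _ ⟨u, w, p.concat hvw, hpath, rfl⟩
  rw [SimpleGraph.Walk.length_concat, hlen] at this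
  omega

open Classical in
theorem circ_is_cycle (G : SimpleGraph V) (C : Finset (Sym2 V)) (hC : IsCirc (cyc G) C) :
    ∃ (v : V) (p : G.Walk v v), p.IsCycle ∧ p.length = C.card ∧ {e | e ∈ p.edges} = (C : Set (Sym2 V)) := by
  obtain ⟨hCm, hne, hmin⟩ := hC
  have hCm' := hCm
  simp only [cyc, Finset.mem_filter, Finset.mem_powerset] at hCm'
  have hsub : ∀ e ∈ C, e ∈ G.edgeSet := by
    intro e he
    have := hCm'.1 he
    rwa [SimpleGraph.mem_edgeFinset] at this
  obtain ⟨v, c, hc⟩ := exists_cycle_of_even C hCm'.2 hne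
    (fun e he => SimpleGraph.not_isDiag_of_mem_edgeSet G (hsub e he))
  have hle : SimpleGraph.fromEdgeSet (C : Set (Sym2 V)) ≤ G := by
    rw [SimpleGraph.fromEdgeSet_le]
    intro e he
    exact hsub e (by exact_mod_cast he.1)
  have hcG : (c.mapLe hle).IsCycle := hc.mapLe hle
  have hedges : (c.mapLe hle).edges = c.edges := SimpleGraph.Walk.edges_mapLe_eq_edges hle c
  have hsubC : c.edges.toFinset ⊆ C := by
    intro e he
    rw [List.mem_toFinset] at he
    have := c.edges_subset_edgeSet he
    rw [SimpleGraph.edgeSet_fromEdgeSet] at this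
    exact_mod_cast this.1
  have hmem : c.edges.toFinset ∈ cyc G := by
    simp only [cyc, Finset.mem_filter, Finset.mem_powerset]
    refine ⟨hsubC.trans hCm'.1, ?_⟩
    intro x
    have h1 := hc.isCircuit.isTrail.even_countP_edges_iff x
    have h2 : Even (c.edges.countP fun e => x ∈ e) := h1.mpr (fun h => absurd rfl h)
    have h3 : (c.edges.toFinset.filter (fun e => x ∈ e)).card = c.edges.countP (fun e => decide (x ∈ e)) := by
      have h4 : (c.edges.toFinset.filter (fun e => x ∈ e)) =
          (c.edges.filter (fun e => decide (x ∈ e))).toFinset := by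
        ext e
        simp
      rw [List.countP_eq_length_filter, h4, List.toFinset_card_of_nodup]
      exact hc.edges_nodup.filter _
    rw [h3]
    convert h2
  have hne2 : c.edges.toFinset.Nonempty := by
    have h3 := hc.three_le_length
    rw [← SimpleGraph.Walk.length_edges] at h3
    rw [List.toFinset_nonempty_iff]
    intro h
    rw [h] at h3
    simp at h3
  have heq := hmin _ hmem hsubC hne2
  refine ⟨v, c.mapLe hle, hcG, ?_, ?_⟩
  · rw [← SimpleGraph.Walk.length_edges, hedges]
    exact (List.toFinset_card_of_nodup hc.edges_nodup).symm.trans (congrArg Finset.card heq)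
  · rw [hedges]
    have h5 : (c.edges.toFinset : Set (Sym2 V)) = (C : Set (Sym2 V)) := congrArg _ heq
    refine Eq.trans ?_ h5
    ext e
    simp

open Classical in
theorem graph_bound (G : SimpleGraph V)
    (hG : ∀ (u v : V) (p : G.Walk u u) (q : G.Walk v v),
      p.IsCycle → q.IsCycle → p.length = q.length → {e | e ∈ p.edges} = {e | e ∈ q.edges})
    (p : ℝ) (hp : 0 < p) (hp' : p ≤ 3 / 50) :
    (G.edgeSet.ncard : ℝ) - Fintype.card V ≤ p * G.edgeSet.ncard + 3 / 4 / p := by
  have hl0 : 0 < Real.log 2 := Real.log_pos (by norm_num)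
  have hE : G.edgeSet.ncard = G.edgeFinset.card := by
    rw [← SimpleGraph.coe_edgeFinset, Set.ncard_coe_finset]
  rw [hE]
  have hdist : ∀ C C', IsCirc (cyc G) C → IsCirc (cyc G) C' → C.card = C'.card → C = C' := by
    intro C C' hC hC' hcard
    obtain ⟨u, p, hp1, hp2, hp3⟩ := circ_is_cycle G C hC
    obtain ⟨v, q, hq1, hq2, hq3⟩ := circ_is_cycle G C' hC'
    have := hG u v p q hp1 hq1 (by rw [hp2, hq2, hcard])
    rw [hp3, hq3] at this
    exact_mod_cast this
  have hsub : ∀ F ∈ cyc G, F ⊆ G.edgeFinset := by
    intro F hF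
    simp only [cyc, Finset.mem_filter, Finset.mem_powerset] at hF
    exact hF.1
  have h1 := abstract_bound (isSpace_cyc G) hdist hsub (2 * p * Real.log 2) (by positivity)
  have h2 := sum_om_le p hp hp' G.edgeFinset.card
  have h3 := card_cyc G
  have hpos : (0 : ℝ) < (cyc G).card := by
    exact_mod_cast Finset.card_pos.mpr ⟨∅, (isSpace_cyc G).empty_mem⟩
  have h4 : (G.edgeFinset.card : ℝ) * Real.log 2 ≤
      Real.log (cyc G).card + Fintype.card V * Real.log 2 := by
    have h5 : ((2 : ℝ) ^ G.edgeFinset.card) ≤ (cyc G).card * 2 ^ Fintype.card V := by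
      exact_mod_cast h3
    have h6 := Real.log_le_log (by positivity) h5
    rw [Real.log_pow, Real.log_mul hpos.ne' (by positivity), Real.log_pow] at h6
    exact h6
  have h7 : 2 * (((G.edgeFinset.card : ℝ) - Fintype.card V) * Real.log 2) ≤
      2 * ((p * G.edgeFinset.card + 3 / 4 / p) * Real.log 2) := by
    have h8 : 2 * ((p * (G.edgeFinset.card : ℝ) + 3 / 4 / p) * Real.log 2) =
        2 * p * Real.log 2 * G.edgeFinset.card + 3 / 2 * Real.log 2 / p := by
      field_simp
      ring
    rw [h8]
    linarith
  have h9 : ((G.edgeFinset.card : ℝ) - Fintype.card V) * Real.log 2 ≤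
      (p * G.edgeFinset.card + 3 / 4 / p) * Real.log 2 := by linarith
  exact le_of_mul_le_mul_right h9 hl0

end Graph

end Pool.Agent.Helper33.Cyc
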