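import Mathlib
import Pool.Agent.Helper33.CycGraph

set_option autoImplicit false

namespace Pool.Agent.Helper33.Cyc

theorem sum_om_le_sharp (p : ℝ) (hp : 0 < p) (hp' : p ≤ 1 / 1000) (M : ℕ) :
    ∑ i ∈ Finset.Icc 1 M, om (2 * p * Real.log 2) i ≤ 1472 / 1000 * Real.log 2 / p := by
  have hl0 : 0 < Real.log 2 := Real.log_pos (by norm_num)
  have hl1 : Real.log 2 ≤ 6932 / 10000 := by linarith [Real.log_two_lt_d9]
  have hl2 : 6931 / 10000 ≤ Real.log 2 := by linarith [Real.log_two_gt_d9]
  -- short part bound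
  have hshort : ∀ K : ℕ, p * K ≤ 3 / 5 →
      ∑ i ∈ Finset.Icc 1 K, om (2 * p * Real.log 2) i ≤ 84 / 100 * Real.log 2 / p := by
    intro K hK
    refine (sum_short p hp K hK).trans ?_
    rw [le_div_iff₀ hp]
    have hy : 0 ≤ p * K := by positivity
    have : 2 * Real.log 2 * (K - p * K ^ 2 / 2) * p =
        Real.log 2 * (2 * ((p * K) - (p * K) ^ 2 / 2)) := by ring
    rw [this, mul_comm (84 / 100) (Real.log 2)]
    apply mul_le_mul_of_nonneg_left _ hl0.le
    nlinarith
  set I : ℕ := ⌊(3 / 5) / p⌋₊ with hIdef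
  have hI1 : p * I ≤ 3 / 5 := by
    have := Nat.floor_le (show (0 : ℝ) ≤ (3 / 5) / p by positivity)
    rw [← hIdef, le_div_iff₀ hp] at this
    linarith
  have hI2 : 3 / 5 ≤ p * (I + 1) := by
    have := Nat.lt_floor_add_one ((3 / 5 : ℝ) / p)
    rw [← hIdef, div_lt_iff₀ hp] at this
    linarith
  rcases le_total M I with hMI | hMI
  · have hM : p * M ≤ 3 / 5 := by
      refine le_trans ?_ hI1
      apply mul_le_mul_of_nonneg_left _ hp.le
      exact_mod_cast hMI
    refine (hshort M hM).trans ?_
    apply div_le_div_of_nonneg_right _ hp.le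
    nlinarith
  · obtain ⟨M', rfl⟩ := Nat.exists_eq_add_of_le hMI
    have hE : Finset.Icc 1 (I + M') = Finset.Icc 1 I ∪ Finset.Icc (I + 1) (I + M') := by
      ext j
      simp only [Finset.mem_Icc, Finset.mem_union]
      omega
    have hdisj : Disjoint (Finset.Icc 1 I) (Finset.Icc (I + 1) (I + M')) := by
      rw [Finset.disjoint_left]
      intro j h1 h2
      simp only [Finset.mem_Icc] at h1 h2
      omega
    rw [hE, Finset.sum_union hdisj]
    have h1 := hshort I hI1
    have h2 := sum_long p hp I M' hI2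
    have hvb : Real.exp (- (2 * p * Real.log 2)) ^ (I + 1) ≤ bb := by
      have e : Real.exp (- (2 * p * Real.log 2)) ^ (I + 1) =
          Real.exp (- (2 * (p * (I + 1)) * Real.log 2)) := by
        rw [← Real.exp_nat_mul]
        congr 1
        push_cast
        ring
      rw [e]
      exact u_le_bb _ hI2
    have hexp := exp_neg_le (2 * p * Real.log 2) (by positivity)
    have hz1 : Real.exp (- (2 * p * Real.log 2)) < 1 := by
      rw [Real.exp_lt_one_iff]
      have : 0 < 2 * p * Real.log 2 := by positivity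
      linarith
    have hz0 : 0 < Real.exp (- (2 * p * Real.log 2)) := Real.exp_pos _
    have h3 : 3 / 2 * ((Real.exp (- (2 * p * Real.log 2)) ^ (I + 1) -
          Real.exp (- (2 * p * Real.log 2)) ^ (I + M' + 1)) / (1 - Real.exp (- (2 * p * Real.log 2)))
        - ((Real.exp (- (2 * p * Real.log 2)) ^ (I + 1)) ^ 2 -
          (Real.exp (- (2 * p * Real.log 2)) ^ (I + M' + 1)) ^ 2) /
            (3 * (1 - Real.exp (- (2 * p * Real.log 2)) ^ 2))) ≤
        632 / 1000 * Real.log 2 / p := by
      generalize hz : Real.exp (- (2 * p * Real.log 2)) = z at hz0 hz1 hexp hvb ⊢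
      have hv0 : 0 ≤ z ^ (I + 1) := by positivity
      have hw0 : 0 ≤ z ^ (I + M' + 1) := by positivity
      have hw1 : z ^ (I + M' + 1) ≤ 1 := pow_le_one₀ hz0.le hz1.le
      generalize z ^ (I + 1) = v at hv0 hvb ⊢
      generalize z ^ (I + M' + 1) = w at hw0 hw1 ⊢
      have h1z : 0 < 1 - z := by linarith
      have h5 : (1 - z ^ 2) = (1 - z) * (1 + z) := by ring
      have h6 : 0 < 1 + z := by linarith
      have e : 3 / 2 * ((v - w) / (1 - z) - (v ^ 2 - w ^ 2) / (3 * (1 - z ^ 2))) =
          3 / 2 * ((v - w) * (3 * (1 + z)) - (v ^ 2 - w ^ 2)) / (3 * (1 + z)) / (1 - z) := by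
        rw [h5]
        field_simp
      rw [e]
      -- numerator bound
      have hnum : 3 / 2 * ((v - w) * (3 * (1 + z)) - (v ^ 2 - w ^ 2)) / (3 * (1 + z)) ≤
          3 / 2 * (4038 / 10000) := by
        rw [div_le_iff₀ (by positivity)]
        have hb := bb_le
        have hb0 := bb_pos
        have hw2 : 0 ≤ w * (3 * (1 + z)) - w ^ 2 := by nlinarith
        have hv2 : v * (3 * (1 + z)) - v ^ 2 ≤ bb * (3 * (1 + z)) - bb ^ 2 := by nlinarith
        have hb2 : bb * (3 * (1 + z)) - bb ^ 2 ≤ 4038 / 10000 * (3 * (1 + z)) := by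
          nlinarith [le_bb]
        nlinarith
      have h1z' : 2 * p * Real.log 2 * (1 - p * Real.log 2) ≤ 1 - z := by
        nlinarith
      have hpl : p * Real.log 2 ≤ 7 / 10000 := by nlinarith
      have hden : 2 * p * Real.log 2 * (9993 / 10000) ≤ 1 - z := by
        refine le_trans ?_ h1z'
        apply mul_le_mul_of_nonneg_left _ (by positivity)
        linarith
      have hdpos : 0 < 2 * p * Real.log 2 * (9993 / 10000) := by positivity
      calc 3 / 2 * ((v - w) * (3 * (1 + z)) - (v ^ 2 - w ^ 2)) / (3 * (1 + z)) / (1 - z)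
          ≤ 3 / 2 * (4038 / 10000) / (1 - z) := div_le_div_of_nonneg_right hnum h1z.le
        _ ≤ 3 / 2 * (4038 / 10000) / (2 * p * Real.log 2 * (9993 / 10000)) :=
            div_le_div_of_nonneg_left (by norm_num) hdpos hden
        _ ≤ 632 / 1000 * Real.log 2 / p := by
            rw [div_le_div_iff₀ hdpos hp]
            have : 3 / 2 * (4038 / 10000) ≤ 632 / 1000 * Real.log 2 * (2 * Real.log 2 * (9993 / 10000)) := by
              nlinarith
            nlinarith
    have h4 := h2.trans h3
    have h5 : 84 / 100 * Real.log 2 / p + 632 / 1000 * Real.log 2 / p = 1472 / 1000 * Real.log 2 / p := by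
      ring
    linarith


section Graph

variable {V : Type*} [Fintype V]

open Classical in
theorem graph_bound_sharp (G : SimpleGraph V)
    (hG : ∀ (u v : V) (p : G.Walk u u) (q : G.Walk v v),
      p.IsCycle → q.IsCycle → p.length = q.length → {e | e ∈ p.edges} = {e | e ∈ q.edges})
    (p : ℝ) (hp : 0 < p) (hp' : p ≤ 1 / 1000) :
    (G.edgeSet.ncard : ℝ) - Fintype.card V ≤ p * G.edgeSet.ncard + 736 / 1000 / p := by
  have hl0 : 0 < Real.log 2 := Real.log_pos (by norm_num)
  have hE : G.edgeSet.ncard = G.edgeFinset.card := by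
    rw [← SimpleGraph.coe_edgeFinset, Set.ncard_coe_finset]
  rw [hE]
  have hdist : ∀ C C', IsCirc (cyc G) C → IsCirc (cyc G) C' → C.card = C'.card → C = C' := by
    intro C C' hC hC' hcard
    obtain ⟨u, p, hp1, hp2, hp3⟩ := circ_is_cycle G C hC
    obtain ⟨v, q, hq1, hq2, hq3⟩ := circ_is_cycle G C' hC'
    have := hG u v p q hp1 hq1 (by rw [hp2, hq2, hcard])
    rw [hp3, hq3] at this
    exact_mod_cast this
  have hsub : ∀ F ∈ cyc G, F ⊆ G.edgeFinset := by
    intro F hF
    simp only [cyc, Finset.mem_filter, Finset.mem_powerset] at hF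
    exact hF.1
  have h1 := abstract_bound (isSpace_cyc G) hdist hsub (2 * p * Real.log 2) (by positivity)
  have h2 := sum_om_le_sharp p hp hp' G.edgeFinset.card
  have h3 := card_cyc G
  have hpos : (0 : ℝ) < (cyc G).card := by
    exact_mod_cast Finset.card_pos.mpr ⟨∅, (isSpace_cyc G).empty_mem⟩
  have h4 : (G.edgeFinset.card : ℝ) * Real.log 2 ≤
      Real.log (cyc G).card + Fintype.card V * Real.log 2 := by
    have h5 : ((2 : ℝ) ^ G.edgeFinset.card) ≤ (cyc G).card * 2 ^ Fintype.card V := by
      exact_mod_cast h3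
    have h6 := Real.log_le_log (by positivity) h5
    rw [Real.log_pow, Real.log_mul hpos.ne' (by positivity), Real.log_pow] at h6
    exact h6
  have h7 : 2 * (((G.edgeFinset.card : ℝ) - Fintype.card V) * Real.log 2) ≤
      2 * ((p * G.edgeFinset.card + 736 / 1000 / p) * Real.log 2) := by
    have h8 : 2 * ((p * (G.edgeFinset.card : ℝ) + 736 / 1000 / p) * Real.log 2) =
        2 * p * Real.log 2 * G.edgeFinset.card + 1472 / 1000 * Real.log 2 / p := by
      field_simp
      ring
    rw [h8]
    linarith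
  have h9 : ((G.edgeFinset.card : ℝ) - Fintype.card V) * Real.log 2 ≤
      (p * G.edgeFinset.card + 736 / 1000 / p) * Real.log 2 := by linarith
  exact le_of_mul_le_mul_right h9 hl0

end Graph

end Pool.Agent.Helper33.Cyc
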