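import Pool.Agent.Helper33.OtterBuild

/-!
Every tree on `Fin K` is isomorphic to the graph of a parent function.
-/

namespace Pool.Agent.Helper33.Otter

open Finset

lemma closer_unique {V : Type*} {S : SimpleGraph V} (hS : S.IsTree) {r u v v' : V}
    (h : S.Adj u v) (h' : S.Adj u v') (hd : S.dist v r < S.dist u r)
    (hd' : S.dist v' r < S.dist u r) : v = v' := by
  obtain ⟨p, hp⟩ := hS.connected.exists_walk_length_eq_dist v r
  obtain ⟨p', hp'⟩ := hS.connected.exists_walk_length_eq_dist v' r
  have e1 : (SimpleGraph.Walk.cons h p).length = S.dist u r := by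
    have := SimpleGraph.dist_le (SimpleGraph.Walk.cons h p)
    rw [SimpleGraph.Walk.length_cons] at this ⊢
    omega
  have e2 : (SimpleGraph.Walk.cons h' p').length = S.dist u r := by
    have := SimpleGraph.dist_le (SimpleGraph.Walk.cons h' p')
    rw [SimpleGraph.Walk.length_cons] at this ⊢
    omega
  have f1 := SimpleGraph.Walk.isPath_of_length_eq_dist _ e1
  have f2 := SimpleGraph.Walk.isPath_of_length_eq_dist _ e2
  have f3 := (hS.existsUnique_path u r).unique f1 f2
  have f4 := congrArg SimpleGraph.Walk.snd f3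
  simpa using f4

theorem exists_par {K : ℕ} [NeZero K] (T : SimpleGraph (Fin K)) (hT : T.IsTree) :
    ∃ par : Fin K → Fin K, (∀ i, i ≠ 0 → par i < i) ∧ Nonempty (T ≃g parGraph par) := by
  classical
  let key : Fin K → ℕ := fun v => T.dist v 0
  let σ : Equiv.Perm (Fin K) := Tuple.sort key
  have hmono : Monotone (key ∘ σ) := Tuple.monotone_sort key
  have h0 : σ 0 = 0 := by
    have h1 : key (σ 0) ≤ key (σ (σ.symm 0)) := hmono (Fin.zero_le _)
    rw [Equiv.apply_symm_apply] at h1
    have h2 : key 0 = 0 := by simp [key]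
    rw [h2] at h1
    exact (hT.connected.dist_eq_zero_iff).mp (Nat.le_zero.mp h1)
  have hex : ∀ i : Fin K, i ≠ 0 → ∃ p, T.Adj (σ i) (σ p) ∧ key (σ p) < key (σ i) := by
    intro i hi
    have hne : σ i ≠ 0 := fun h => hi (σ.injective (h.trans h0.symm))
    obtain ⟨p, hp, hlt⟩ := exists_closer hT.connected 0 (σ i) hne
    refine ⟨σ.symm p, ?_, ?_⟩
    · rw [Equiv.apply_symm_apply]; exact hp
    · rw [Equiv.apply_symm_apply]; exact hlt
  choose! par hpar using hex
  have hlt : ∀ i, i ≠ 0 → par i < i := by
    intro i hi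
    by_contra hcon
    exact absurd (hmono (not_lt.mp hcon)) (not_le.mpr (hpar i hi).2)
  refine ⟨par, hlt, ⟨⟨σ.symm, ?_⟩⟩⟩
  intro u v
  rw [parGraph_adj hlt]
  have key2 : ∀ a b : Fin K, T.Adj (σ a) (σ b) → key (σ b) < key (σ a) → a ≠ 0 ∧ par a = b := by
    intro a b hab hk
    have ha : a ≠ 0 := by
      rintro rfl
      rw [h0] at hk
      simp [key] at hk
    refine ⟨ha, ?_⟩
    obtain ⟨h1, h2⟩ := hpar a ha
    exact σ.injective (closer_unique hT h1 hab h2 hk)
  constructor
  · rintro (⟨h1, h2⟩ | ⟨h1, h2⟩)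
    · have := (hpar _ h1).1
      rw [h2, Equiv.apply_symm_apply, Equiv.apply_symm_apply] at this
      exact this
    · have := (hpar _ h1).1
      rw [h2, Equiv.apply_symm_apply, Equiv.apply_symm_apply] at this
      exact this.symm
  · intro h
    rcases hT.dist_eq_dist_add_one_of_adj 0 h with h1 | h1
    · left
      apply key2
      · rw [Equiv.apply_symm_apply, Equiv.apply_symm_apply]; exact h
      · rw [Equiv.apply_symm_apply, Equiv.apply_symm_apply]
        simp only [key]
        rw [T.dist_comm (u := v), T.dist_comm (u := u)]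
        omega
    · right
      apply key2
      · rw [Equiv.apply_symm_apply, Equiv.apply_symm_apply]; exact h.symm
      · rw [Equiv.apply_symm_apply, Equiv.apply_symm_apply]
        simp only [key]
        rw [T.dist_comm (u := v), T.dist_comm (u := u)]
        omega

/-- number of unlabelled trees on `n` vertices -/
noncomputable def treeCount (n : ℕ) : ℕ := numUnlabeledSpanningTrees (⊤ : SimpleGraph (Fin n))

theorem exists_types (K : ℕ) [NeZero K] :
    ∃ par : Fin (treeCount K) → Fin K → Fin K, (∀ j i, i ≠ 0 → par j i < i) ∧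
      ∀ j j', Nonempty (parGraph (par j) ≃g parGraph (par j')) → j = j' := by
  classical
  have hfin : (unlabeledSpanningTrees (⊤ : SimpleGraph (Fin K))).Finite := Set.toFinite _
  obtain ⟨e⟩ : Nonempty (Fin (treeCount K) ≃
      unlabeledSpanningTrees (⊤ : SimpleGraph (Fin K))) := by
    have := hfin.fintype
    refine ⟨(Fintype.equivFinOfCardEq ?_).symm⟩
    unfold treeCount numUnlabeledSpanningTrees
    rw [← Nat.card_coe_set_eq, Nat.card_eq_fintype_card]
  have hex : ∀ j : Fin (treeCount K), ∃ par : Fin K → Fin K, (∀ i, i ≠ 0 → par i < i) ∧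
      Quotient.mk (isoSetoid (Fin K)) (parGraph par) = (e j).1 := by
    intro j
    obtain ⟨T, ⟨_, hT⟩, hTj⟩ := (e j).2
    obtain ⟨par, h1, h2⟩ := exists_par T hT
    refine ⟨par, h1, ?_⟩
    rw [← hTj]
    exact Quotient.sound (s := isoSetoid (Fin K)) ((isoSetoid (Fin K)).symm h2)
  choose par h1 h2 using hex
  refine ⟨par, h1, ?_⟩
  intro j j' h
  apply e.injective
  apply Subtype.ext
  rw [← h2 j, ← h2 j']
  exact Quotient.sound (s := isoSetoid (Fin K)) h

end Pool.Agent.Helper33.Otter
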