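import Pool.Agent.Helper33.OtterFinite
import Pool.Agent.Helper33.OtterTypes

/-!
Asymptotic form.
-/

namespace Pool.Agent.Helper33.Otter

open Finset Filter Topology

set_option linter.unusedSectionVars false

lemma tendsto_err (A B C D : ℝ) :
    Tendsto (fun q : ℕ => A / (q : ℝ) ^ 2 + B * ((C + 41 * Real.log (2 * q)) / q) + 1 / q
      + D / (q : ℝ) ^ 2) atTop (𝓝 0) := by
  have hq : Tendsto (fun q : ℕ => (q : ℝ)) atTop atTop := tendsto_natCast_atTop_atTop
  have h1 : Tendsto (fun q : ℕ => Real.log (2 * q) / q) atTop (𝓝 0) := by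
    have h := Real.tendsto_pow_log_div_mul_add_atTop (1 / 2) 0 1 (by norm_num)
    have h2 : Tendsto (fun q : ℕ => 2 * (q : ℝ)) atTop atTop :=
      Tendsto.const_mul_atTop (by norm_num) hq
    have h3 := h.comp h2
    refine h3.congr ?_
    intro q
    simp only [Function.comp, pow_one, add_zero]
    congr 1
    ring
  have hinv : Tendsto (fun q : ℕ => 1 / (q : ℝ)) atTop (𝓝 0) := tendsto_one_div_atTop_nhds_zero_nat
  have hinv2 : Tendsto (fun q : ℕ => 1 / (q : ℝ) ^ 2) atTop (𝓝 0) := by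
    have := hinv.mul hinv
    rw [mul_zero] at this
    refine this.congr ?_
    intro q
    rw [div_mul_div_comm, one_mul, sq]
  have e1 : Tendsto (fun q : ℕ => A * (1 / (q : ℝ) ^ 2)) atTop (𝓝 0) := by
    have := hinv2.const_mul A
    rwa [mul_zero] at this
  have e2 : Tendsto (fun q : ℕ => D * (1 / (q : ℝ) ^ 2)) atTop (𝓝 0) := by
    have := hinv2.const_mul D
    rwa [mul_zero] at this
  have e3 : Tendsto (fun q : ℕ => B * (C * (1 / (q : ℝ)) + 41 * (Real.log (2 * q) / q)))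
      atTop (𝓝 0) := by
    have := ((hinv.const_mul C).add (h1.const_mul 41)).const_mul B
    simpa using this
  have := ((e1.add e3).add hinv).add e2
  rw [add_zero, add_zero, add_zero] at this
  refine this.congr ?_
  intro q
  ring

/-- the analytic core: from the finite inequality to the exponential bound -/
lemma analytic_core (K J q d n r : ℕ) (c Na β₀ β₁ η : ℝ) (hη0 : 0 < η) (hβ0 : 0 < β₀)
    (hη : Real.log β₁ = Real.log β₀ + 4 * η)
    (hK1 : 1 ≤ K) (hq2 : 2 ≤ q) (hlogd : Real.log ((d : ℝ) + 1) ≤ 20 * Real.log (2 * q))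
    (hnpos : 0 < n) (hc : 0 ≤ c)
    (hNa : 0 ≤ Na) (hrn : r ≤ n) (hJ1 : (1 : ℝ) ≤ J)
    (hlogJ : (K : ℝ) * Real.log β₁ ≤ Real.log J)
    (hKl : Real.log (2 * ((K : ℝ) + 3)) / K ≤ η)
    (hn0 : Real.log (2 * (n : ℝ)) / n ≤ η)
    (hEq : Real.log J / (q : ℝ) ^ 2 +
      (60 * K) * ((Real.log (2 * J) + 41 * Real.log (2 * q)) / q) + 1 / q
      + Real.log (2 * ((K : ℝ) + 3)) / (q : ℝ) ^ 2 ≤ η)
    (hr : |(r : ℝ) - n / K| ≤ n / q ^ 2)
    (hmain : (J : ℝ) ^ n ≤ 2 * ((Na * (2 * (K + 3)) ^ r * n * J ^ (n - r)) * c))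
    (hNale : Na ≤ (2 * (d + 1) * (d + 1) * J * q) ^ (3 * ⌊20 * K * (n : ℝ) / q⌋₊) *
      (1 + 1 / (q : ℝ)) ^ n) : β₀ ^ n ≤ c := by
  have hKR : (1 : ℝ) ≤ K := by exact_mod_cast hK1
  have hnR : (0 : ℝ) < n := by exact_mod_cast hnpos
  have hqR : (2 : ℝ) ≤ q := by exact_mod_cast hq2
  have hq0 : (0 : ℝ) < q := by linarith
  have hJ0 : (0 : ℝ) < J := by linarith
  have hlogJ0 : 0 ≤ Real.log J := Real.log_nonneg hJ1
  -- divide by J^(n-r)
  have hdiv : (J : ℝ) ^ r ≤ 2 * n * Na * (2 * (K + 3)) ^ r * c := by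
    have h2 : (J : ℝ) ^ n = J ^ r * J ^ (n - r) := by rw [← pow_add]; congr 1; omega
    rw [h2] at hmain
    have h3 : (0 : ℝ) < (J : ℝ) ^ (n - r) := pow_pos hJ0 _
    refine le_of_mul_le_mul_right ?_ h3
    refine le_trans hmain (le_of_eq ?_)
    ring
  have hJr : (0 : ℝ) < (J : ℝ) ^ r := pow_pos hJ0 _
  have hpos : 0 < 2 * n * Na * (2 * (K + 3)) ^ r * c := lt_of_lt_of_le hJr hdiv
  have hc0 : 0 < c := by
    rcases hc.eq_or_lt with h | h
    · rw [← h] at hpos; simp at hpos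
    · exact h
  have hNa0 : 0 < Na := by
    rcases hNa.eq_or_lt with h | h
    · rw [← h] at hpos; simp at hpos
    · exact h
  obtain ⟨M, hM⟩ : ∃ M : ℝ, M = 2 * (d + 1) * (d + 1) * J * q := ⟨_, rfl⟩
  rw [← hM] at hNale
  have hd0 : (0 : ℝ) ≤ d := Nat.cast_nonneg d
  have hM1 : 1 ≤ M := by
    have h2 : (1 : ℝ) ≤ 2 * ((d + 1) * (d + 1)) := by
      have : (0 : ℝ) ≤ d * d := mul_nonneg hd0 hd0
      linarith
    have h3 : (1 : ℝ) ≤ J * q := by
      calc (1 : ℝ) ≤ 1 * q := by linarith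
        _ ≤ J * q := mul_le_mul_of_nonneg_right hJ1 hq0.le
    calc (1 : ℝ) = 1 * 1 := by ring
      _ ≤ (2 * ((d + 1) * (d + 1))) * (J * q) := mul_le_mul h2 h3 (by norm_num) (by linarith)
      _ = M := by rw [hM]; ring
  have hlogM : Real.log M ≤ Real.log (2 * J) + 41 * Real.log (2 * q) := by
    have hd1 : (0 : ℝ) < (d : ℝ) + 1 := by linarith
    have h2J : (0 : ℝ) < 2 * J := by linarith
    have e1 : M = (2 * J) * (((d : ℝ) + 1) * (((d : ℝ) + 1) * q)) := by rw [hM]; ring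
    rw [e1, Real.log_mul h2J.ne' (mul_pos hd1 (mul_pos hd1 hq0)).ne',
      Real.log_mul hd1.ne' (mul_pos hd1 hq0).ne', Real.log_mul hd1.ne' hq0.ne']
    have e2 : Real.log q ≤ Real.log (2 * q) := Real.log_le_log hq0 (by linarith)
    linarith
  have hlogNa : Real.log Na ≤ 60 * K * n / q * (Real.log (2 * J) + 41 * Real.log (2 * q)) +
      n / q := by
    have h2 : Real.log Na ≤ Real.log (M ^ (3 * ⌊20 * K * (n : ℝ) / q⌋₊) *
        (1 + 1 / (q : ℝ)) ^ n) := Real.log_le_log hNa0 hNale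
    have hM0 : 0 < M := by linarith
    rw [Real.log_mul (pow_pos hM0 _).ne' (by positivity), Real.log_pow, Real.log_pow] at h2
    have h3 : Real.log (1 + 1 / (q : ℝ)) ≤ 1 / q := by
      have := Real.log_le_sub_one_of_pos (show (0 : ℝ) < 1 + 1 / q by positivity)
      linarith
    have h4 : (⌊20 * K * (n : ℝ) / q⌋₊ : ℝ) ≤ 20 * K * n / q := Nat.floor_le (by positivity)
    have h5 : ((3 * ⌊20 * K * (n : ℝ) / q⌋₊ : ℕ) : ℝ) * Real.log M ≤
        (60 * K * n / q) * (Real.log (2 * J) + 41 * Real.log (2 * q)) := by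
      apply mul_le_mul _ hlogM (Real.log_nonneg hM1) (by positivity)
      push_cast
      have : 60 * (K : ℝ) * n / q = 3 * (20 * K * n / q) := by ring
      rw [this]
      linarith
    have h6 : (n : ℝ) * Real.log (1 + 1 / (q : ℝ)) ≤ n / q := by
      calc _ ≤ (n : ℝ) * (1 / q) := mul_le_mul_of_nonneg_left h3 hnR.le
        _ = n / q := by ring
    linarith
  -- logarithm of the main inequality
  have hL0 : 0 ≤ Real.log (2 * ((K : ℝ) + 3)) := Real.log_nonneg (by linarith)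
  have hlogmain : r * Real.log J ≤ Real.log (2 * n) + Real.log Na +
      r * Real.log (2 * ((K : ℝ) + 3)) + Real.log c := by
    have h2 := Real.log_le_log hJr hdiv
    rw [Real.log_pow, Real.log_mul (by positivity) hc0.ne',
      Real.log_mul (by positivity) (by positivity),
      Real.log_mul (by positivity) hNa0.ne', Real.log_pow] at h2
    exact h2
  obtain ⟨hr1, hr2⟩ := abs_le.mp hr
  have g1 : (n : ℝ) * Real.log β₁ - n / q ^ 2 * Real.log J ≤ r * Real.log J := by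
    have h2 : ((n : ℝ) / K - n / q ^ 2) * Real.log J ≤ r * Real.log J :=
      mul_le_mul_of_nonneg_right (by linarith) hlogJ0
    have h3 : (n : ℝ) * Real.log β₁ ≤ n / K * Real.log J := by
      calc (n : ℝ) * Real.log β₁ = n / K * (K * Real.log β₁) := by field_simp
        _ ≤ n / K * Real.log J := mul_le_mul_of_nonneg_left hlogJ (by positivity)
    have h4 : ((n : ℝ) / K - n / q ^ 2) * Real.log J =
      n / K * Real.log J - n / q ^ 2 * Real.log J := by ring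
    linarith
  have g2 : r * Real.log (2 * ((K : ℝ) + 3)) ≤ n * η + n / q ^ 2 * Real.log (2 * ((K : ℝ) + 3)) := by
    have h2 : r * Real.log (2 * ((K : ℝ) + 3)) ≤
        ((n : ℝ) / K + n / q ^ 2) * Real.log (2 * ((K : ℝ) + 3)) :=
      mul_le_mul_of_nonneg_right (by linarith) hL0
    have h3 : (n : ℝ) / K * Real.log (2 * ((K : ℝ) + 3)) ≤ n * η := by
      calc _ = (n : ℝ) * (Real.log (2 * ((K : ℝ) + 3)) / K) := by ring
        _ ≤ n * η := mul_le_mul_of_nonneg_left hKl hnR.le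
    have h4 : ((n : ℝ) / K + n / q ^ 2) * Real.log (2 * ((K : ℝ) + 3)) =
      n / K * Real.log (2 * ((K : ℝ) + 3)) + n / q ^ 2 * Real.log (2 * ((K : ℝ) + 3)) := by ring
    linarith
  have g3 : Real.log (2 * (n : ℝ)) ≤ n * η := by
    have := (div_le_iff₀ hnR).mp hn0
    linarith
  have g4 := mul_le_mul_of_nonneg_left hEq hnR.le
  have g5 : (n : ℝ) * (Real.log J / (q : ℝ) ^ 2 +
      (60 * K) * ((Real.log (2 * J) + 41 * Real.log (2 * q)) / q) + 1 / q
      + Real.log (2 * ((K : ℝ) + 3)) / (q : ℝ) ^ 2) = n / q ^ 2 * Real.log J +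
      60 * K * n / q * (Real.log (2 * J) + 41 * Real.log (2 * q)) + n / q +
      n / q ^ 2 * Real.log (2 * ((K : ℝ) + 3)) := by
    ring
  have hfinal : (n : ℝ) * Real.log β₀ ≤ Real.log c := by
    have h2 : (n : ℝ) * Real.log β₁ = n * Real.log β₀ + 4 * (n * η) := by rw [hη]; ring
    have h3 : 0 ≤ (n : ℝ) * η := by positivity
    linarith
  rw [← Real.log_pow] at hfinal
  exact (Real.log_le_log_iff (by positivity) hc0).mp hfinal

lemma log_of_pow {q d : ℕ} (hdq : d + 1 ≤ (q + 1) ^ 20) (hq : 1 ≤ q) :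
    Real.log ((d : ℝ) + 1) ≤ 20 * Real.log (2 * q) := by
  have h1 : ((d : ℝ) + 1) ≤ ((2 : ℝ) * q) ^ 20 := by
    have h2 : d + 1 ≤ (2 * q) ^ 20 := le_trans hdq (Nat.pow_le_pow_left (by omega) 20)
    exact_mod_cast h2
  have h3 : (0 : ℝ) < (d : ℝ) + 1 := by
    have : (0 : ℝ) ≤ d := Nat.cast_nonneg d
    linarith
  have h4 := Real.log_le_log h3 h1
  rw [Real.log_pow] at h4
  exact_mod_cast h4

lemma exists_q (q₁ d : ℕ) (h : q₁ ^ 20 ≤ d) :
    ∃ q, q₁ ≤ q ∧ q ^ 20 ≤ d ∧ d + 1 ≤ (q + 1) ^ 20 := by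
  have hP : ∀ q, q ^ 20 ≤ d → q ≤ d := fun q hq => le_trans (Nat.le_self_pow (by norm_num) q) hq
  refine ⟨Nat.findGreatest (fun q => q ^ 20 ≤ d) d, Nat.le_findGreatest (hP _ h) h,
    Nat.findGreatest_spec (P := fun q => q ^ 20 ≤ d) (m := 0) (Nat.zero_le d) (by simp), ?_⟩
  by_contra hcon
  push Not at hcon
  have h2 : (Nat.findGreatest (fun q => q ^ 20 ≤ d) d + 1) ^ 20 ≤ d := Nat.lt_succ_iff.mp hcon
  have h3 := Nat.le_findGreatest (P := fun q => q ^ 20 ≤ d) (hP _ h2) h2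
  omega

theorem asymptotic (β₀ β₁ : ℝ) (h0 : 1 ≤ β₀) (h1 : β₀ < β₁)
    (hfreq : ∃ᶠ K in atTop, β₁ ^ K ≤ (treeCount K : ℝ)) :
    ∃ d₀ : ℕ, ∀ d ≥ d₀, ∀ (n : ℕ) (G : SimpleGraph (Fin n)), G.Connected →
      (∀ v, (nb G v).card = d) → β₀ ^ n ≤ (numUnlabeledSpanningTrees G : ℝ) := by
  have hβ0 : 0 < β₀ := by linarith
  have hβ1 : 0 < β₁ := by linarith
  have hloglt : Real.log β₀ < Real.log β₁ := Real.log_lt_log hβ0 h1
  obtain ⟨η, hη⟩ : ∃ η : ℝ, η = (Real.log β₁ - Real.log β₀) / 4 := ⟨_, rfl⟩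
  have hη0 : 0 < η := by rw [hη]; linarith
  -- choose K
  have hKlog : ∀ᶠ K : ℕ in atTop, Real.log (2 * ((K : ℝ) + 3)) / K ≤ η := by
    have h := Real.tendsto_pow_log_div_mul_add_atTop (1 / 2) (-3) 1 (by norm_num)
    have h2 : Tendsto (fun K : ℕ => 2 * ((K : ℝ) + 3)) atTop atTop :=
      Tendsto.const_mul_atTop (by norm_num)
        (tendsto_atTop_add_const_right _ _ tendsto_natCast_atTop_atTop)
    have h3 := h.comp h2
    have h4 : Tendsto (fun K : ℕ => Real.log (2 * ((K : ℝ) + 3)) / K) atTop (𝓝 0) := by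
      refine h3.congr ?_
      intro K
      simp only [Function.comp, pow_one]
      congr 1
      ring
    exact h4.eventually_le_const hη0
  obtain ⟨K, ⟨hKt, hKl⟩, hK1⟩ := ((hfreq.and_eventually hKlog).and_eventually
    (eventually_ge_atTop 1)).exists
  have : NeZero K := ⟨by omega⟩
  obtain ⟨par, hpar, hTi⟩ := exists_types K
  generalize treeCount K = J at *
  have hKR : (1 : ℝ) ≤ K := by exact_mod_cast hK1
  have hJ1 : (1 : ℝ) ≤ J := by
    have : (1 : ℝ) ≤ β₁ ^ K := one_le_pow₀ (by linarith)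
    linarith
  have hJ0 : 0 < J := by
    have : (0 : ℝ) < J := by linarith
    exact_mod_cast this
  have hlogJ : (K : ℝ) * Real.log β₁ ≤ Real.log J := by
    rw [← Real.log_pow]
    exact Real.log_le_log (by positivity) hKt
  -- choose q₀
  have hEev : ∀ᶠ q : ℕ in atTop, Real.log J / (q : ℝ) ^ 2 +
      (60 * K) * ((Real.log (2 * J) + 41 * Real.log (2 * q)) / q) + 1 / q
      + Real.log (2 * ((K : ℝ) + 3)) / (q : ℝ) ^ 2 ≤ η :=
    (tendsto_err (Real.log J) (60 * K) (Real.log (2 * J))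
      (Real.log (2 * ((K : ℝ) + 3)))).eventually_le_const hη0
  have hnev : ∀ᶠ n : ℕ in atTop, Real.log (2 * (n : ℝ)) / n ≤ η := by
    have h := Real.tendsto_pow_log_div_mul_add_atTop (1 / 2) 0 1 (by norm_num)
    have h2 : Tendsto (fun K : ℕ => 2 * (K : ℝ)) atTop atTop :=
      Tendsto.const_mul_atTop (by norm_num) tendsto_natCast_atTop_atTop
    have h3 := h.comp h2
    have h4 : Tendsto (fun K : ℕ => Real.log (2 * (K : ℝ)) / K) atTop (𝓝 0) := by
      refine h3.congr ?_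
      intro K
      simp only [Function.comp, pow_one, add_zero]
      congr 1
      ring
    exact h4.eventually_le_const hη0
  obtain ⟨q₀, hq₀⟩ := Filter.eventually_atTop.mp hEev
  obtain ⟨n₀, hn₀⟩ := Filter.eventually_atTop.mp hnev
  obtain ⟨q₁, hq₁a, hq₁b, hq₁c⟩ : ∃ q₁, q₀ ≤ q₁ ∧ 2 ≤ q₁ ∧ K * J ≤ q₁ :=
    ⟨max q₀ (max 2 (K * J)), le_max_left _ _, le_trans (le_max_left _ _) (le_max_right _ _),
      le_trans (le_max_right _ _) (le_max_right _ _)⟩
  refine ⟨max (q₁ ^ 20) (max n₀ 1), ?_⟩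
  intro d hd n G hG hreg
  have hd1 : q₁ ^ 20 ≤ d := le_trans (le_max_left _ _) hd
  have hd2 : n₀ ≤ d := le_trans (le_trans (le_max_left _ _) (le_max_right _ _)) hd
  have hd3 : 1 ≤ d := le_trans (le_trans (le_max_right _ _) (le_max_right _ _)) hd
  obtain ⟨q, hq₁q, hqd, hdq⟩ := exists_q q₁ d hd1
  have hq2 : 2 ≤ q := le_trans hq₁b hq₁q
  have hqKJ : K * J ≤ q := le_trans hq₁c hq₁q
  have hEq := hq₀ q (le_trans hq₁a hq₁q)
  obtain ⟨r, hrn, hr, hmain⟩ := main_count G hG hreg par hpar hTi hJ0 hq2 hqKJ hqd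
  rw [Fintype.card_fin] at hrn hr hmain
  have hnd : d ≤ n := by
    obtain ⟨v⟩ := hG.nonempty
    rw [← hreg v]
    have := Finset.card_le_univ (nb G v)
    rwa [Fintype.card_fin] at this
  have hqR : (2 : ℝ) ≤ q := by exact_mod_cast hq2
  have hNale := numA_le (Fin n) d J (3 * ⌊20 * K * (n : ℝ) / q⌋₊) hJ0 (s := q) (by linarith)
  rw [Fintype.card_fin] at hNale
  exact analytic_core K J q d n r _ _ β₀ β₁ η hη0 hβ0 (by rw [hη]; ring) hK1 hq2
    (log_of_pow hdq (by omega)) (by omega)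
    (Nat.cast_nonneg _) (Nat.cast_nonneg _) hrn hJ1 hlogJ hKl (hn₀ n (le_trans hd2 hnd)) hEq hr
    hmain hNale

end Pool.Agent.Helper33.Otter
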