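import Pool.Agent.Helper33.OtterCount

/-!
From an almost spanning forest of pieces to a decorated spanning tree.
-/

namespace Pool.Agent.Helper33.Otter

open Finset

set_option linter.unusedSectionVars false

variable {V : Type*} [Fintype V] [DecidableEq V]

lemma acyclic_of_parent (F : SimpleGraph V) (f : V → Option V) (ρ : V → ℕ)
    (hF : ∀ u v, F.Adj u v → f u = some v ∨ f v = some u)
    (hρ : ∀ u v, f u = some v → ρ u < ρ v) : F.IsAcyclic := by
  intro v c hc
  obtain ⟨x, hx, hmin⟩ := Finset.exists_min_image c.support.toFinset ρ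
    ⟨v, by simp⟩
  rw [List.mem_toFinset] at hx
  have hc' : (c.rotate x hx).IsCycle := hc.rotate hx
  have hmin' : ∀ y ∈ (c.rotate x hx).support, ρ x ≤ ρ y := by
    intro y hy
    apply hmin
    rw [List.mem_toFinset]
    exact (c.mem_support_rotate_iff x hx).mp hy
  have hnil := hc'.not_nil
  have h1 := (c.rotate x hx).adj_snd hnil
  have h2 := (c.rotate x hx).adj_penultimate hnil
  have h3 : f x = some (c.rotate x hx).snd := by
    rcases hF _ _ h1 with h | h
    · exact h
    · exact absurd (hρ _ _ h) (not_lt.mpr (hmin' _ ((c.rotate x hx).getVert_mem_support 1)))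
  have h4 : f x = some (c.rotate x hx).penultimate := by
    rcases hF _ _ h2 with h | h
    · exact absurd (hρ _ _ h) (not_lt.mpr (hmin' _ ((c.rotate x hx).getVert_mem_support _)))
    · exact h
  rw [h3] at h4
  exact hc'.snd_ne_penultimate (Option.some.inj h4)

/-- number of vertices touched by the edges of a graph -/
lemma touched_card (H : SimpleGraph V) [DecidableRel H.Adj] :
    (univ.filter (fun v => ∃ u, H.Adj v u)).card ≤ 2 * H.edgeFinset.card := by
  classical
  rw [← H.sum_degrees_eq_twice_card_edges]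
  calc (univ.filter (fun v => ∃ u, H.Adj v u)).card
      = ∑ v ∈ univ.filter (fun v => ∃ u, H.Adj v u), 1 := by simp
    _ ≤ ∑ v ∈ univ.filter (fun v => ∃ u, H.Adj v u), H.degree v := by
        refine Finset.sum_le_sum ?_
        intro v hv
        obtain ⟨u, hu⟩ := (Finset.mem_filter.mp hv).2
        exact Nat.succ_le_of_lt ((H.degree_pos_iff_exists_adj v).mpr ⟨u, hu⟩)
    _ ≤ ∑ v, H.degree v := Finset.sum_le_sum_of_subset (Finset.filter_subset _ _)

/-- An almost spanning forest of pieces: `good` roots, embeddings `ψ`, chains given by `succ`. -/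
structure Pieces (G : SimpleGraph V) {K J : ℕ} [NeZero K] (R : Finset V) (succ : V → Option V)
    (par : Fin J → Fin K → Fin K) (w : V → Fin J) where
  good : Finset V
  ψ : V → Fin K → V
  good_sub : good ⊆ R
  ψ_zero : ∀ r, ψ r 0 = r
  inj : ∀ r ∈ good, ∀ r' ∈ good, ∀ i i', ψ r i = ψ r' i' → r = r' ∧ i = i'
  notR : ∀ r ∈ good, ∀ i, i ≠ 0 → ψ r i ∉ R
  adj : ∀ r ∈ good, ∀ i, i ≠ 0 → G.Adj (ψ r i) (ψ r (par (w r) i))

/-- the tree with parent function `par` -/
def parGraph {K : ℕ} [NeZero K] (par : Fin K → Fin K) : SimpleGraph (Fin K) :=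
  SimpleGraph.fromRel (fun i i' => i ≠ 0 ∧ par i = i')

lemma parGraph_adj {K : ℕ} [NeZero K] {par : Fin K → Fin K} (hpar : ∀ i, i ≠ 0 → par i < i)
    (i i' : Fin K) : (parGraph par).Adj i i' ↔ (i ≠ 0 ∧ par i = i') ∨ (i' ≠ 0 ∧ par i' = i) := by
  unfold parGraph
  rw [SimpleGraph.fromRel_adj]
  constructor
  · rintro ⟨_, h⟩; exact h
  · intro h
    refine ⟨?_, h⟩
    rintro rfl
    rcases h with ⟨h1, h2⟩ | ⟨h1, h2⟩ <;>
    · have := hpar i h1
      rw [h2] at this
      exact lt_irrefl _ this

namespace Pieces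

variable {G : SimpleGraph V} {K J : ℕ} [NeZero K] {R : Finset V} {succ : V → Option V}
    {par : Fin J → Fin K → Fin K} {w : V → Fin J}

/-- parent function of the forest -/
noncomputable def f (P : Pieces G R succ par w) (v : V) : Option V := by
  classical
  exact if h : ∃ r, ∃ i, r ∈ P.good ∧ i ≠ 0 ∧ v = P.ψ r i then
    some (P.ψ h.choose (par (w h.choose) h.choose_spec.choose)) else succ v

lemma f_interior (P : Pieces G R succ par w) {r : V} (hr : r ∈ P.good) {i : Fin K}
    (hi : i ≠ 0) : P.f (P.ψ r i) = some (P.ψ r (par (w r) i)) := by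
  classical
  have h : ∃ r', ∃ i', r' ∈ P.good ∧ i' ≠ 0 ∧ P.ψ r i = P.ψ r' i' := ⟨r, i, hr, hi, rfl⟩
  unfold f
  rw [dif_pos h]
  obtain ⟨h1, h2, h3⟩ := h.choose_spec.choose_spec
  obtain ⟨h4, h5⟩ := P.inj r hr _ h1 _ _ h3
  rw [← h5, ← h4]

lemma f_other (P : Pieces G R succ par w) {v : V}
    (hv : ∀ r ∈ P.good, ∀ i, i ≠ 0 → v ≠ P.ψ r i) : P.f v = succ v := by
  classical
  unfold f
  rw [dif_neg]
  rintro ⟨r, i, hr, hi, h⟩
  exact hv r hr i hi h

lemma f_R (P : Pieces G R succ par w) {v : V} (hv : v ∈ R) : P.f v = succ v :=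
  P.f_other (fun r hr i hi h => P.notR r hr i hi (h ▸ hv))

/-- the forest -/
def F (P : Pieces G R succ par w) : SimpleGraph V :=
  SimpleGraph.fromRel (fun u v => P.f u = some v)

lemma f_cases (P : Pieces G R succ par w) {u v : V} (h : P.f u = some v) :
    (∃ r ∈ P.good, ∃ i, i ≠ 0 ∧ u = P.ψ r i ∧ v = P.ψ r (par (w r) i)) ∨ succ u = some v := by
  classical
  by_cases hu : ∃ r, ∃ i, r ∈ P.good ∧ i ≠ 0 ∧ u = P.ψ r i
  · obtain ⟨r, i, hr, hi, rfl⟩ := hu
    rw [P.f_interior hr hi] at h
    exact Or.inl ⟨r, hr, i, hi, rfl, (Option.some.inj h).symm⟩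
  · right
    rw [P.f_other] at h
    · exact h
    · intro r hr i hi h'
      exact hu ⟨r, i, hr, hi, h'⟩

/-- rank function -/
noncomputable def rk (P : Pieces G R succ par w) (pos : V → ℕ) (v : V) : ℕ := by
  classical
  exact if v ∈ R then K + pos v else
    if h : ∃ r, ∃ i, r ∈ P.good ∧ i ≠ 0 ∧ v = P.ψ r i then
    K - 1 - (h.choose_spec.choose : ℕ) else 0

lemma rk_interior (P : Pieces G R succ par w) (pos : V → ℕ) {r : V} (hr : r ∈ P.good)
    {i : Fin K} (hi : i ≠ 0) : P.rk pos (P.ψ r i) = K - 1 - i := by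
  classical
  have h : ∃ r', ∃ i', r' ∈ P.good ∧ i' ≠ 0 ∧ P.ψ r i = P.ψ r' i' := ⟨r, i, hr, hi, rfl⟩
  unfold rk
  rw [if_neg (P.notR r hr i hi), dif_pos h]
  obtain ⟨h1, h2, h3⟩ := h.choose_spec.choose_spec
  obtain ⟨h4, h5⟩ := P.inj r hr _ h1 _ _ h3
  rw [← h5]

lemma rk_lt (P : Pieces G R succ par w) (hpar : ∀ j i, i ≠ 0 → par j i < i)
    (hsR : ∀ a b, succ a = some b → a ∈ R ∧ b ∈ R) (pos : V → ℕ)
    (hpos : ∀ a b, succ a = some b → pos a < pos b) {u v : V} (h : P.f u = some v) :
    P.rk pos u < P.rk pos v := by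
  classical
  rcases P.f_cases h with ⟨r, hr, i, hi, rfl, rfl⟩ | h
  · rw [P.rk_interior pos hr hi]
    have hlt := hpar (w r) i hi
    have hiK := i.isLt
    by_cases h0 : par (w r) i = 0
    · rw [h0, P.ψ_zero]
      unfold rk
      rw [if_pos (P.good_sub hr)]
      omega
    · rw [P.rk_interior pos hr h0]
      have : (par (w r) i : ℕ) < i := hlt
      omega
  · obtain ⟨ha, hb⟩ := hsR _ _ h
    unfold rk
    rw [if_pos ha, if_pos hb]
    have := hpos _ _ h
    omega

lemma F_adj (P : Pieces G R succ par w) (hpar : ∀ j i, i ≠ 0 → par j i < i)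
    (hsR : ∀ a b, succ a = some b → a ∈ R ∧ b ∈ R) (pos : V → ℕ)
    (hpos : ∀ a b, succ a = some b → pos a < pos b) (u v : V) :
    P.F.Adj u v ↔ P.f u = some v ∨ P.f v = some u := by
  unfold F
  rw [SimpleGraph.fromRel_adj]
  constructor
  · rintro ⟨_, h⟩; exact h
  · intro h
    refine ⟨?_, h⟩
    rintro rfl
    rcases h with h | h <;>
    · have := P.rk_lt hpar hsR pos hpos h
      exact lt_irrefl _ this

lemma F_le (P : Pieces G R succ par w)
    (hsG : ∀ a b, succ a = some b → G.Adj a b) : P.F ≤ G := by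
  intro u v h
  unfold F at h
  rw [SimpleGraph.fromRel_adj] at h
  have key : ∀ a b, P.f a = some b → G.Adj a b := by
    intro a b hab
    rcases P.f_cases hab with ⟨r, hr, i, hi, rfl, rfl⟩ | h
    · exact P.adj r hr i hi
    · exact hsG _ _ h
  rcases h.2 with h | h
  · exact key _ _ h
  · exact (key _ _ h).symm

lemma F_acyclic (P : Pieces G R succ par w) (hpar : ∀ j i, i ≠ 0 → par j i < i)
    (hsR : ∀ a b, succ a = some b → a ∈ R ∧ b ∈ R) (pos : V → ℕ)
    (hpos : ∀ a b, succ a = some b → pos a < pos b) : P.F.IsAcyclic :=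
  acyclic_of_parent P.F P.f (P.rk pos)
    (fun u v h => (P.F_adj hpar hsR pos hpos u v).mp h)
    (fun _ _ h => P.rk_lt hpar hsR pos hpos h)

/-- the forest has at least as many edges as there are vertices with a parent -/
lemma card_edges (P : Pieces G R succ par w) (hpar : ∀ j i, i ≠ 0 → par j i < i)
    (hsR : ∀ a b, succ a = some b → a ∈ R ∧ b ∈ R) (pos : V → ℕ)
    (hpos : ∀ a b, succ a = some b → pos a < pos b) [DecidableRel P.F.Adj] :
    (univ.filter (fun v => (P.f v).isSome)).card ≤ P.F.edgeFinset.card := by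
  classical
  refine Finset.card_le_card_of_injOn (fun v => s(v, (P.f v).getD v)) ?_ ?_
  · intro v hv
    simp only [coe_filter, mem_univ, true_and, Set.mem_ofPred_eq] at hv
    obtain ⟨u, hu⟩ := Option.isSome_iff_exists.mp hv
    simp only [hu, Option.getD_some, SimpleGraph.coe_edgeFinset, SimpleGraph.mem_edgeSet]
    exact (P.F_adj hpar hsR pos hpos v u).mpr (Or.inl hu)
  · intro v hv v' hv' h
    simp only [coe_filter, mem_univ, true_and, Set.mem_ofPred_eq] at hv hv'
    obtain ⟨u, hu⟩ := Option.isSome_iff_exists.mp hv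
    obtain ⟨u', hu'⟩ := Option.isSome_iff_exists.mp hv'
    simp only [hu, hu', Option.getD_some, Sym2.eq_iff] at h
    rcases h with ⟨h, _⟩ | ⟨h1, h2⟩
    · exact h
    · exfalso
      subst h1
      subst h2
      have h3 := P.rk_lt hpar hsR pos hpos hu
      have h4 := P.rk_lt hpar hsR pos hpos hu'
      omega

lemma card_parentless (P : Pieces G R succ par w) {a ℓ : ℕ}
    (ha : Fintype.card V ≤ K * P.good.card + a)
    (hℓ : (R.filter (fun r => succ r = none)).card ≤ ℓ) :
    Fintype.card V ≤ (univ.filter (fun v => (P.f v).isSome)).card + (ℓ + a) := by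
  classical
  -- vertices without parent are roots without successor or uncovered vertices
  set Q : Finset V := (P.good ×ˢ (univ : Finset (Fin K))).image (fun p => P.ψ p.1 p.2) with hQ
  have hQcard : Q.card = P.good.card * K := by
    rw [hQ, Finset.card_image_of_injOn]
    · simp
    · rintro ⟨x, i⟩ hx ⟨y, j⟩ hy hxy
      simp only [coe_product, coe_univ, Set.mem_prod, mem_coe, Set.mem_univ, and_true] at hx hy
      obtain ⟨h, h'⟩ := P.inj x hx y hy i j hxy
      rw [h, h']
  have hsub : (univ : Finset V) ⊆ (univ.filter (fun v => (P.f v).isSome)) ∪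
      (R.filter (fun r => succ r = none)) ∪ (univ \ Q) := by
    intro v _
    simp only [mem_union, mem_filter, mem_univ, true_and, mem_sdiff]
    by_cases h1 : v ∈ Q
    · left
      rw [hQ, mem_image] at h1
      obtain ⟨⟨r, i⟩, h2, h3⟩ := h1
      simp only [mem_product, mem_univ, and_true] at h2 h3
      by_cases hi : i = 0
      · subst hi
        rw [P.ψ_zero] at h3
        subst h3
        rw [P.f_R (P.good_sub h2)]
        cases h : succ r with
        | none => exact Or.inr ⟨P.good_sub h2, rfl⟩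
        | some b => exact Or.inl rfl
      · left
        rw [← h3, P.f_interior h2 hi]
        rfl
    · exact Or.inr h1
  have h1 := Finset.card_le_card hsub
  have h2 := Finset.card_union_le ((univ.filter (fun v => (P.f v).isSome)) ∪
      (R.filter (fun r => succ r = none))) (univ \ Q)
  have h3 := Finset.card_union_le (univ.filter (fun v => (P.f v).isSome))
      (R.filter (fun r => succ r = none))
  have h4 := Finset.card_sdiff_add_card_eq_card (Finset.subset_univ Q)
  rw [Finset.card_univ] at h1 h4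
  rw [hQcard, mul_comm] at h4
  omega

theorem exists_deco (P : Pieces G R succ par w) (hG : G.Connected)
    (hpar : ∀ j i, i ≠ 0 → par j i < i)
    (hsR : ∀ a b, succ a = some b → a ∈ R ∧ b ∈ R)
    (hsG : ∀ a b, succ a = some b → G.Adj a b) (pos : V → ℕ)
    (hpos : ∀ a b, succ a = some b → pos a < pos b) {a ℓ : ℕ}
    (ha : Fintype.card V ≤ K * P.good.card + a)
    (hℓ : (R.filter (fun r => succ r = none)).card ≤ ℓ) :
    ∃ D : Deco G R succ (fun j => parGraph (par j)) w, D.X.card ≤ a + 2 * K * (ℓ + a) := by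
  classical
  obtain ⟨S, hFS, hSG, hS⟩ := hG.exists_isTree_le_of_le_of_isAcyclic (P.F_le hsG)
    (P.F_acyclic hpar hsR pos hpos)
  set C : Finset V := P.good.filter (fun r => ∀ i u, S.Adj (P.ψ r i) u → P.F.Adj (P.ψ r i) u)
    with hC
  have hCg : C ⊆ P.good := Finset.filter_subset _ _
  have hadj : ∀ r ∈ C, ∀ i u, S.Adj (P.ψ r i) u ↔
    ((∃ i', u = P.ψ r i' ∧ (parGraph (par (w r))).Adj i i') ∨
      (i = 0 ∧ (succ r = some u ∨ succ u = some r))) := by
    intro r hr i u
    have hrg := hCg hr
    constructor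
    · intro h
      have h2 := (Finset.mem_filter.mp hr).2 i u h
      rw [P.F_adj hpar hsR pos hpos] at h2
      rcases h2 with h2 | h2
      · by_cases hi : i = 0
        · subst hi
          rw [P.ψ_zero, P.f_R (P.good_sub hrg)] at h2
          exact Or.inr ⟨rfl, Or.inl h2⟩
        · left
          rw [P.f_interior hrg hi] at h2
          refine ⟨par (w r) i, (Option.some.inj h2).symm, ?_⟩
          rw [parGraph_adj (hpar _)]
          exact Or.inl ⟨hi, rfl⟩
      · rcases P.f_cases h2 with ⟨r', hr', i', hi', h3, h4⟩ | h3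
        · left
          obtain ⟨h5, h6⟩ := P.inj r hrg r' hr' _ _ h4
          subst h5
          refine ⟨i', h3, ?_⟩
          rw [parGraph_adj (hpar _)]
          exact Or.inr ⟨hi', h6.symm⟩
        · right
          have hi : i = 0 := by
            by_contra hne
            exact P.notR r hrg i hne (hsR _ _ h3).2
          subst hi
          rw [P.ψ_zero] at h3
          exact ⟨rfl, Or.inr h3⟩
    · intro h
      apply hFS
      rw [P.F_adj hpar hsR pos hpos]
      rcases h with ⟨i', rfl, h⟩ | ⟨rfl, h⟩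
      · rw [parGraph_adj (hpar _)] at h
        rcases h with ⟨h1, h2⟩ | ⟨h1, h2⟩
        · left
          rw [P.f_interior hrg h1, h2]
        · right
          rw [P.f_interior hrg h1, h2]
      · rw [P.ψ_zero]
        rcases h with h | h
        · left
          rw [P.f_R (P.good_sub hrg)]; exact h
        · right
          rw [P.f_R (hsR _ _ h).1]; exact h
  let D : Deco G R succ (fun j => parGraph (par j)) w :=
    { S := S
      S_le := hSG
      S_tree := hS
      C := C
      ψ := P.ψ
      C_sub := fun r hr => P.good_sub (hCg hr)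
      ψ_zero := P.ψ_zero
      inj := fun r hr r' hr' => P.inj r (hCg hr) r' (hCg hr')
      notR := fun r hr => P.notR r (hCg hr)
      adj := hadj }
  refine ⟨D, ?_⟩
  have hDX : D.X.card + K * C.card = Fintype.card V := D.card_X
  -- bound the number of non-clean good roots
  have hbad : (P.good \ C).card ≤ 2 * (S \ P.F).edgeFinset.card := by
    have ht : (univ.filter (fun v => ∃ u, (S \ P.F).Adj v u)).card ≤
        2 * (S \ P.F).edgeFinset.card := by
      have h0 := touched_card (S \ P.F)
      refine le_trans (Finset.card_le_card fun x hx => ?_) (le_trans h0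
        (Nat.mul_le_mul_left 2 (Finset.card_le_card fun e he => ?_)))
      · rw [Finset.mem_filter] at hx ⊢
        exact hx
      · have he' := (@SimpleGraph.mem_edgeFinset _ _ _ (_)).mp he
        exact (@SimpleGraph.mem_edgeFinset _ _ _ (_)).mpr he'
    refine le_trans ?_ ht
    have hex : ∀ r ∈ P.good \ C, ∃ i, ∃ u, (S \ P.F).Adj (P.ψ r i) u := by
      intro r hr
      rw [mem_sdiff, hC, mem_filter] at hr
      have := hr.2
      push Not at this
      obtain ⟨i, u, h1, h2⟩ := this hr.1
      exact ⟨i, u, h1, h2⟩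
    choose! ii hii using hex
    refine Finset.card_le_card_of_injOn (fun r => P.ψ r (ii r)) ?_ ?_
    · intro r hr
      simp only [coe_filter, mem_univ, true_and, Set.mem_ofPred_eq]
      exact hii r (by simpa using hr)
    · intro r hr r' hr' h
      have h1 : r ∈ P.good := (Finset.mem_sdiff.mp (by simpa using hr)).1
      have h2 : r' ∈ P.good := (Finset.mem_sdiff.mp (by simpa using hr')).1
      exact (P.inj r h1 r' h2 _ _ h).1
  have hjunk : (S \ P.F).edgeFinset.card ≤ ℓ + a := by
    have h1 : (S \ P.F).edgeFinset = S.edgeFinset \ P.F.edgeFinset :=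
      SimpleGraph.edgeFinset_sdiff
    have h2 : P.F.edgeFinset ⊆ S.edgeFinset := SimpleGraph.edgeFinset_subset_edgeFinset.mpr hFS
    have h3 := Finset.card_sdiff_add_card_eq_card h2
    have h4 := hS.card_edgeFinset
    have h5 := P.card_edges hpar hsR pos hpos
    have h6 := P.card_parentless ha hℓ
    rw [h1]
    omega
  have h1 : C.card + (P.good \ C).card = P.good.card := by
    rw [add_comm]; exact Finset.card_sdiff_add_card_eq_card hCg
  have h2 : P.good.card ≤ C.card + 2 * (ℓ + a) := by omega
  have h3 : K * P.good.card ≤ K * C.card + 2 * K * (ℓ + a) := by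
    calc K * P.good.card ≤ K * (C.card + 2 * (ℓ + a)) := Nat.mul_le_mul_left K h2
      _ = K * C.card + 2 * K * (ℓ + a) := by ring
  omega

end Pieces

end Pool.Agent.Helper33.Otter
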