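import Pool.Agent.Helper33.OtterDefs

/-!
Encoding argument: a family of spanning trees decorated with clean pieces has few members in each
isomorphism class.
-/

namespace Pool.Agent.Helper33.Otter

open Finset

set_option linter.unusedSectionVars false

variable {V : Type*} [Fintype V] [DecidableEq V]

/-- in a connected graph every vertex other than `r` has a neighbour closer to `r` -/
lemma exists_closer {S : SimpleGraph V} (hS : S.Connected) (r y : V) (h : y ≠ r) :
    ∃ p, S.Adj y p ∧ S.dist p r < S.dist y r := by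
  obtain ⟨w, hw⟩ := hS.exists_walk_length_eq_dist y r
  cases w with
  | nil => exact absurd rfl h
  | cons hadj w' =>
    rename_i p
    refine ⟨p, hadj, ?_⟩
    have h1 := SimpleGraph.dist_le w'
    simp only [SimpleGraph.Walk.length_cons] at hw
    omega

/-- Decorated spanning tree. -/
structure Deco (G : SimpleGraph V) {K J : ℕ} [NeZero K] (R : Finset V) (succ : V → Option V)
    (T : Fin J → SimpleGraph (Fin K)) (w : V → Fin J) where
  S : SimpleGraph V
  S_le : S ≤ G
  S_tree : S.IsTree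
  C : Finset V
  ψ : V → Fin K → V
  C_sub : C ⊆ R
  ψ_zero : ∀ r, ψ r 0 = r
  inj : ∀ r ∈ C, ∀ r' ∈ C, ∀ i i', ψ r i = ψ r' i' → r = r' ∧ i = i'
  notR : ∀ r ∈ C, ∀ i, i ≠ 0 → ψ r i ∉ R
  adj : ∀ r ∈ C, ∀ i u, S.Adj (ψ r i) u ↔
    ((∃ i', u = ψ r i' ∧ (T (w r)).Adj i i') ∨
      (i = 0 ∧ (succ r = some u ∨ succ u = some r)))

namespace Deco

variable {G : SimpleGraph V} {K J : ℕ} [NeZero K] {R : Finset V} {succ : V → Option V}
  {T : Fin J → SimpleGraph (Fin K)} {w : V → Fin J}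

/-- interior vertices of clean pieces -/
noncomputable def I (D : Deco G R succ T w) : Finset V := by
  classical
  exact univ.filter (fun v => ∃ r ∈ D.C, ∃ i, i ≠ 0 ∧ v = D.ψ r i)

/-- vertices outside all clean pieces -/
noncomputable def X (D : Deco G R succ T w) : Finset V := by
  classical
  exact univ.filter (fun v => ¬ ∃ r ∈ D.C, ∃ i, v = D.ψ r i)

lemma mem_I (D : Deco G R succ T w) {v : V} :
    v ∈ D.I ↔ ∃ r ∈ D.C, ∃ i, i ≠ 0 ∧ v = D.ψ r i := by simp [I]

lemma mem_X (D : Deco G R succ T w) {v : V} :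
    v ∈ D.X ↔ ¬ ∃ r ∈ D.C, ∃ i, v = D.ψ r i := by simp [X]

lemma C_not_mem_I (D : Deco G R succ T w) {v : V} (hv : v ∈ D.C) : v ∉ D.I := by
  rw [mem_I]
  rintro ⟨r, hr, i, hi, h⟩
  exact D.notR r hr i hi (h ▸ D.C_sub hv)

lemma C_not_mem_X (D : Deco G R succ T w) {v : V} (hv : v ∈ D.C) : v ∉ D.X := by
  rw [mem_X]
  push Not
  exact ⟨v, hv, 0, (D.ψ_zero v).symm⟩

lemma trichotomy (D : Deco G R succ T w) (v : V) : v ∈ D.X ∨ v ∈ D.C ∨ v ∈ D.I := by
  by_cases h : ∃ r ∈ D.C, ∃ i, v = D.ψ r i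
  · right
    obtain ⟨r, hr, i, hi⟩ := h
    by_cases h0 : i = 0
    · left
      rw [hi, h0, D.ψ_zero]; exact hr
    · right
      exact D.mem_I.mpr ⟨r, hr, i, h0, hi⟩
  · left
    exact D.mem_X.mpr h

lemma not_mem_X_of_mem_I (D : Deco G R succ T w) {v : V} (hv : v ∈ D.I) : v ∉ D.X := by
  rw [mem_X]; push Not
  obtain ⟨r, hr, i, _, h⟩ := D.mem_I.mp hv
  exact ⟨r, hr, i, h⟩

lemma card_X (D : Deco G R succ T w) : D.X.card + K * D.C.card = Fintype.card V := by
  classical
  have h1 : D.X = univ \ ((D.C ×ˢ (univ : Finset (Fin K))).image (fun p => D.ψ p.1 p.2)) := by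
    ext v
    simp only [mem_X, mem_sdiff, mem_univ, true_and, mem_image, mem_product, and_true,
      Prod.exists]
    constructor
    · rintro h ⟨a, b, ha, hb⟩
      exact h ⟨a, ha, b, hb.symm⟩
    · rintro h ⟨a, ha, b, hb⟩
      exact h ⟨a, b, ha, hb.symm⟩
  have h2 : ((D.C ×ˢ (univ : Finset (Fin K))).image (fun p => D.ψ p.1 p.2)).card
      = D.C.card * K := by
    rw [Finset.card_image_of_injOn]
    · simp
    · rintro ⟨a, i⟩ ha ⟨b, j⟩ hb hab
      simp only [coe_product, coe_univ, Set.mem_prod, mem_coe, Set.mem_univ, and_true] at ha hb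
      obtain ⟨h, h'⟩ := D.inj a ha b hb i j hab
      rw [h, h']
  have h3 := Finset.card_sdiff_add_card_eq_card (Finset.subset_univ
    ((D.C ×ˢ (univ : Finset (Fin K))).image (fun p => D.ψ p.1 p.2)))
  rw [h1]
  rw [h2, Finset.card_univ] at h3
  rw [mul_comm K]
  exact h3

lemma dist_interior (D : Deco G R succ T w) {r0 : V} (hr0 : r0 ∈ R) {r : V} (hr : r ∈ D.C)
    {i : Fin K} (hi : i ≠ 0) : D.S.dist r r0 < D.S.dist (D.ψ r i) r0 := by
  classical
  obtain ⟨j, hj, hmin⟩ := Finset.exists_min_image (univ.filter (fun j : Fin K => j ≠ 0))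
    (fun j => D.S.dist (D.ψ r j) r0) ⟨i, by simp [hi]⟩
  simp only [mem_filter, mem_univ, true_and] at hj hmin
  have hne : D.ψ r j ≠ r0 := fun h => D.notR r hr j hj (h ▸ hr0)
  obtain ⟨p, hp, hlt⟩ := exists_closer D.S_tree.connected r0 (D.ψ r j) hne
  rcases (D.adj r hr j p).mp hp with ⟨i', hi', _⟩ | ⟨h0, _⟩
  · by_cases h0 : i' = 0
    · rw [h0, D.ψ_zero] at hi'
      rw [hi'] at hlt
      exact lt_of_lt_of_le hlt (hmin i hi)
    · exact absurd (hmin i' h0) (by rw [← hi']; omega)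
  · exact absurd h0 hj

/-- a closer neighbour of a non-interior vertex is not interior -/
lemma closer_not_mem_I (D : Deco G R succ T w) {r0 : V} (hr0 : r0 ∈ R) {y p : V}
    (hy : y ∉ D.I) (hadj : D.S.Adj y p) (hlt : D.S.dist p r0 < D.S.dist y r0) : p ∉ D.I := by
  intro hp
  obtain ⟨r, hr, i, hi, rfl⟩ := D.mem_I.mp hp
  rcases (D.adj r hr i y).mp hadj.symm with ⟨i', hi', _⟩ | ⟨h0, _⟩
  · by_cases h0 : i' = 0
    · rw [h0, D.ψ_zero] at hi'
      subst hi'
      exact absurd (D.dist_interior hr0 hr hi) (by omega)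
    · exact hy (D.mem_I.mpr ⟨r, hr, i', h0, hi'⟩)
  · exact hi h0

lemma clean_nbr (D : Deco G R succ T w) {y p : V} (hy : y ∈ D.C)
    (hadj : D.S.Adj y p) (hp : p ∉ D.I) : succ y = some p ∨ succ p = some y := by
  have h := D.adj y hy 0 p
  rw [D.ψ_zero] at h
  rcases h.mp hadj with ⟨i', hi', hT⟩ | ⟨_, h2⟩
  · exfalso
    have : i' ≠ 0 := by
      rintro rfl
      exact (T (w y)).irrefl hT
    exact hp (D.mem_I.mpr ⟨y, hy, i', this, hi'⟩)
  · exact h2

lemma mem_C_of (D : Deco G R succ T w) {v : V} (hv : v ∈ R) (hX : v ∉ D.X) : v ∈ D.C := by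
  rcases D.trichotomy v with h | h | h
  · exact absurd h hX
  · exact h
  · obtain ⟨r, hr, i, hi, rfl⟩ := D.mem_I.mp h
    exact absurd hv (D.notR r hr i hi)

lemma R_not_mem_I (D : Deco G R succ T w) {v : V} (hv : v ∈ R) : v ∉ D.I := by
  intro h
  obtain ⟨r, hr, i, hi, rfl⟩ := D.mem_I.mp h
  exact D.notR r hr i hi hv

/-- a neighbour closer to `r0` (or the vertex itself) -/
noncomputable def par (D : Deco G R succ T w) (r0 y : V) : V := by
  classical
  exact if h : ∃ p, D.S.Adj y p ∧ D.S.dist p r0 < D.S.dist y r0 then h.choose else y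

lemma par_spec (D : Deco G R succ T w) {r0 y : V} (h : y ≠ r0) :
    D.S.Adj y (D.par r0 y) ∧ D.S.dist (D.par r0 y) r0 < D.S.dist y r0 := by
  classical
  have h1 := exists_closer D.S_tree.connected r0 y h
  unfold par
  rw [dif_pos h1]
  exact h1.choose_spec

lemma adj_iff (D : Deco G R succ T w) (hsR : ∀ a b, succ a = some b → a ∈ R ∧ b ∈ R)
    {r : V} (hr : r ∈ D.C) (i i' : Fin K) :
    D.S.Adj (D.ψ r i) (D.ψ r i') ↔ (T (w r)).Adj i i' := by
  rw [D.adj r hr i]
  constructor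
  · rintro (⟨i'', h1, h2⟩ | ⟨h0, h1⟩)
    · obtain ⟨_, h3⟩ := D.inj r hr r hr _ _ h1
      rw [h3]; exact h2
    · exfalso
      have hR : D.ψ r i' ∈ R := by
        rcases h1 with h1 | h1
        · exact (hsR _ _ h1).2
        · exact (hsR _ _ h1).1
      have hi' : i' = 0 := by
        by_contra hne
        exact D.notR r hr i' hne hR
      subst h0
      subst hi'
      have hloop : D.S.Adj (D.ψ r 0) (D.ψ r 0) := by
        rw [D.adj r hr 0]
        exact Or.inr ⟨rfl, h1⟩
      exact D.S.irrefl hloop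
  · intro h
    exact Or.inl ⟨i', rfl, h⟩

end Deco

/-- neighbours as a finset -/
noncomputable def nb (H : SimpleGraph V) (v : V) : Finset V := by
  classical
  exact univ.filter (fun u => H.Adj v u)

lemma mem_nb {H : SimpleGraph V} {v u : V} : u ∈ nb H v ↔ H.Adj v u := by simp [nb]

/-- index of a neighbour -/
noncomputable def idx (H : SimpleGraph V) (v u : V) : ℕ := by
  classical
  exact if h : u ∈ nb H v then ((nb H v).equivFin ⟨u, h⟩ : ℕ) else 0

lemma idx_inj {H : SimpleGraph V} {v u u' : V} (h : H.Adj v u) (h' : H.Adj v u')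
    (he : idx H v u = idx H v u') : u = u' := by
  classical
  unfold idx at he
  rw [dif_pos (mem_nb.mpr h), dif_pos (mem_nb.mpr h')] at he
  have h2 := (nb H v).equivFin.injective (Fin.ext he)
  exact congrArg Subtype.val h2

lemma idx_lt {H : SimpleGraph V} {v u : V} (h : H.Adj v u) : idx H v u < (nb H v).card := by
  classical
  unfold idx
  rw [dif_pos (mem_nb.mpr h)]
  exact Fin.isLt _

section decode

variable {G : SimpleGraph V} {K J : ℕ} [NeZero K] {R : Finset V} {succ : V → Option V}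
  {T : Fin J → SimpleGraph (Fin K)} {w w' : V → Fin J}

theorem decode (hsR : ∀ a b, succ a = some b → a ∈ R ∧ b ∈ R)
    (hsinj : ∀ a b c, succ a = some c → succ b = some c → a = b)
    (hTc : ∀ j, (T j).Connected) (hTi : ∀ j j', Nonempty (T j ≃g T j') → j = j')
    (D : Deco G R succ T w) (D' : Deco G R succ T w') (S0 : SimpleGraph V)
    (θ : D.S ≃g S0) (θ' : D'.S ≃g S0) {r0 : V} (hr0 : r0 ∈ R) (h0 : θ r0 = θ' r0)
    (hX : D.X = D'.X)
    (hpX : ∀ v ∈ D.X, v ≠ r0 → idx G v (D.par r0 v) = idx G v (D'.par r0 v))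
    (hb : ∀ v ∈ D.C, v ≠ r0 → (succ v = some (D.par r0 v) ↔ succ v = some (D'.par r0 v)))
    (hθ : ∀ v, v ∉ D.I → v ≠ r0 →
      idx S0 (θ (D.par r0 v)) (θ v) = idx S0 (θ' (D'.par r0 v)) (θ' v))
    (hwX : ∀ v ∈ D.X, w v = w' v) (hwR : ∀ v, v ∉ R → w v = w' v) : w = w' := by
  have hC : ∀ v, v ∈ D.C ↔ v ∈ D'.C := by
    intro v
    constructor
    · intro h
      exact D'.mem_C_of (D.C_sub h) (by rw [← hX]; exact D.C_not_mem_X h)
    · intro h
      exact D.mem_C_of (D'.C_sub h) (by rw [hX]; exact D'.C_not_mem_X h)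
  have hI : ∀ v, v ∈ D.I ↔ v ∈ D'.I := by
    intro v
    constructor
    · intro h
      rcases D'.trichotomy v with h1 | h1 | h1
      · exact absurd (hX ▸ h1) (D.not_mem_X_of_mem_I h)
      · exact absurd h (D.C_not_mem_I ((hC v).mpr h1))
      · exact h1
    · intro h
      rcases D.trichotomy v with h1 | h1 | h1
      · exact absurd (hX ▸ h1) (D'.not_mem_X_of_mem_I h)
      · exact absurd h (D'.C_not_mem_I ((hC v).mp h1))
      · exact h1
  -- the parent pointers agree
  have hpar : ∀ v, v ∉ D.I → v ≠ r0 → D.par r0 v = D'.par r0 v := by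
    intro v hv hvr
    obtain ⟨ha, hd⟩ := D.par_spec hvr
    obtain ⟨ha', hd'⟩ := D'.par_spec hvr
    rcases D.trichotomy v with h | h | h
    · exact idx_inj (D.S_le ha) (D'.S_le ha') (hpX v h hvr)
    · have h1 := D.clean_nbr h ha (D.closer_not_mem_I hr0 hv ha hd)
      have hv' : v ∉ D'.I := fun hh => hv ((hI v).mpr hh)
      have h2 := D'.clean_nbr ((hC v).mp h) ha' (D'.closer_not_mem_I hr0 hv' ha' hd')
      have h3 := hb v h hvr
      by_cases h4 : succ v = some (D.par r0 v)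
      · have h5 := h3.mp h4
        rw [h4] at h5
        exact Option.some.inj h5
      · have h5 : ¬ succ v = some (D'.par r0 v) := fun h => h4 (h3.mpr h)
        exact hsinj _ _ _ (h1.resolve_left h4) (h2.resolve_left h5)
    · exact absurd h hv
  -- the isomorphisms agree outside the clean interiors
  have hag : ∀ n : ℕ, ∀ v, v ∉ D.I → D.S.dist v r0 = n → θ v = θ' v := by
    intro n
    induction n using Nat.strong_induction_on with
    | _ n ih =>
      intro v hv hn
      by_cases hvr : v = r0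
      · rw [hvr]; exact h0
      · obtain ⟨ha, hd⟩ := D.par_spec hvr
        obtain ⟨ha', hd'⟩ := D'.par_spec hvr
        have hp := D.closer_not_mem_I hr0 hv ha hd
        have h1 := ih _ (hn ▸ hd) (D.par r0 v) hp rfl
        have h2 := hθ v hv hvr
        have h3 : S0.Adj (θ (D.par r0 v)) (θ v) := θ.map_adj_iff.mpr ha.symm
        have h4 : S0.Adj (θ' (D'.par r0 v)) (θ' v) := θ'.map_adj_iff.mpr ha'.symm
        rw [← hpar v hv hvr, ← h1] at h4 h2
        exact idx_inj h3 h4 h2
  have hag' : ∀ v, v ∉ D.I → θ v = θ' v := fun v hv => hag _ v hv rfl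
  -- the induced isomorphism
  set φ : D.S ≃g D'.S := θ.trans θ'.symm with hφ
  have hfix : ∀ v, v ∉ D.I → φ v = v := by
    intro v hv
    have : φ v = θ'.symm (θ v) := rfl
    rw [this, hag' v hv]
    simp
  funext r
  by_cases hR : r ∈ R
  swap
  · exact hwR r hR
  by_cases hXr : r ∈ D.X
  · exact hwX r hXr
  have hrC : r ∈ D.C := D.mem_C_of hR hXr
  have hrC' : r ∈ D'.C := (hC r).mp hrC
  have hstep : ∀ (i j : Fin K) (p : (T (w r)).Walk i j),
      (∃ j', φ (D.ψ r j) = D'.ψ r j') → ∃ i', φ (D.ψ r i) = D'.ψ r i' := by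
    intro i j p
    induction p with
    | nil => exact fun h => h
    | @cons u v x hadj p ih =>
      intro hj
      obtain ⟨v', hv'⟩ := ih hj
      have h1 : D.S.Adj (D.ψ r v) (D.ψ r u) := (D.adj_iff hsR hrC v u).mpr hadj.symm
      have h2 : D'.S.Adj (D'.ψ r v') (φ (D.ψ r u)) := by
        rw [← hv']
        exact φ.map_adj_iff.mpr h1
      rcases (D'.adj r hrC' v' _).mp h2 with ⟨u', hu', _⟩ | ⟨_, h3⟩
      · exact ⟨u', hu'⟩
      · have hR : φ (D.ψ r u) ∈ R := by
          rcases h3 with h3 | h3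
          · exact (hsR _ _ h3).2
          · exact (hsR _ _ h3).1
        have h4 : φ (φ (D.ψ r u)) = φ (D.ψ r u) := hfix _ (D.R_not_mem_I hR)
        have h5 : φ (D.ψ r u) = D.ψ r u := φ.injective h4
        have h6 : u = 0 := by
          by_contra hne
          rw [h5] at hR
          exact D.notR r hrC u hne hR
        refine ⟨0, ?_⟩
        rw [h5, h6, D.ψ_zero, D'.ψ_zero]
  have hmap : ∀ i, ∃ i', φ (D.ψ r i) = D'.ψ r i' := by
    intro i
    obtain ⟨p⟩ := (hTc (w r)).preconnected i 0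
    refine hstep i 0 p ⟨0, ?_⟩
    rw [D.ψ_zero, D'.ψ_zero]
    exact hfix r (D.C_not_mem_I hrC)
  choose g hg using hmap
  have ginj : Function.Injective g := by
    intro a b hab
    have h1 : φ (D.ψ r a) = φ (D.ψ r b) := by rw [hg, hg, hab]
    exact (D.inj r hrC r hrC a b (φ.injective h1)).2
  have gbij : Function.Bijective g := Finite.injective_iff_bijective.mp ginj
  refine hTi _ _ ⟨⟨Equiv.ofBijective g gbij, ?_⟩⟩
  intro a b
  change (T (w' r)).Adj (g a) (g b) ↔ (T (w r)).Adj a b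
  rw [← D'.adj_iff hsR hrC', ← D.adj_iff hsR hrC, ← hg, ← hg]
  exact φ.map_adj_iff

end decode

end Pool.Agent.Helper33.Otter
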