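import Pool.Agent.Helper33.OtterCode

/-!
Counting the codes.
-/

namespace Pool.Agent.Helper33.Otter

open Finset

set_option linter.unusedSectionVars false

variable {V : Type*} [Fintype V] [DecidableEq V]

section

variable {G : SimpleGraph V} {K J : ℕ} [NeZero K] {R : Finset V} {succ : V → Option V}
  {T : Fin J → SimpleGraph (Fin K)} {w : V → Fin J}

lemma nb_iso_card {S S0 : SimpleGraph V} (θ : S ≃g S0) (p : V) :
    (nb S0 (θ p)).card = (nb S p).card := by
  have : nb S0 (θ p) = (nb S p).map θ.toEquiv.toEmbedding := by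
    ext u
    simp only [mem_nb, mem_map_equiv]
    constructor
    · intro h
      have h2 : S0.Adj (θ p) (θ (θ.toEquiv.symm u)) := by
        have : θ (θ.toEquiv.symm u) = u := θ.toEquiv.apply_symm_apply u
        rw [this]; exact h
      exact θ.map_adj_iff.mp h2
    · intro h
      have h2 := θ.map_adj_iff.mpr h
      have : θ (θ.toEquiv.symm u) = u := θ.toEquiv.apply_symm_apply u
      rw [this] at h2; exact h2
  rw [this, card_map]

lemma card_le_one_succ (c : V) : (univ.filter (fun u => succ c = some u)).card ≤ 1 := by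
  rw [Finset.card_le_one]
  intro a ha b hb
  simp only [mem_filter, mem_univ, true_and] at ha hb
  rw [ha] at hb
  exact Option.some.inj hb

lemma card_le_one_pred (hsinj : ∀ a b c, succ a = some c → succ b = some c → a = b) (c : V) :
    (univ.filter (fun u => succ u = some c)).card ≤ 1 := by
  rw [Finset.card_le_one]
  intro a ha b hb
  simp only [mem_filter, mem_univ, true_and] at ha hb
  exact hsinj _ _ _ ha hb

lemma card_nb_clean (hsinj : ∀ a b c, succ a = some c → succ b = some c → a = b)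
    (D : Deco G R succ T w) {c : V} (hc : c ∈ D.C) : (nb D.S c).card ≤ K + 2 := by
  have hsub : nb D.S c ⊆ (univ.image (D.ψ c)) ∪ (univ.filter (fun u => succ c = some u)) ∪
      (univ.filter (fun u => succ u = some c)) := by
    intro u hu
    rw [mem_nb] at hu
    have h := D.adj c hc 0 u
    rw [D.ψ_zero] at h
    rcases h.mp hu with ⟨i', hi', _⟩ | ⟨_, h2 | h2⟩
    · simp only [mem_union, mem_image, mem_univ, true_and, mem_filter]
      exact Or.inl (Or.inl ⟨i', hi'.symm⟩)
    · simp [h2]
    · simp [h2]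
  calc (nb D.S c).card ≤ _ := Finset.card_le_card hsub
    _ ≤ ((univ.image (D.ψ c)) ∪ (univ.filter (fun u => succ c = some u))).card + _ :=
        Finset.card_union_le _ _
    _ ≤ (univ.image (D.ψ c)).card + _ + _ :=
        Nat.add_le_add_right (Finset.card_union_le _ _) _
    _ ≤ K + 1 + 1 := by
        refine Nat.add_le_add (Nat.add_le_add ?_ (card_le_one_succ c))
          (card_le_one_pred hsinj c)
        calc _ ≤ (univ : Finset (Fin K)).card := Finset.card_image_le
          _ = K := by simp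

/-- the record stored at exceptional vertices -/
abbrev Rec (d J : ℕ) := Bool × Fin (d + 1) × Fin (d + 1) × Fin J

/-- first part of the code -/
noncomputable def codeA (D : Deco G R succ T w) (S0 : SimpleGraph V) (θ : D.S ≃g S0)
    (r0 : V) (d : ℕ) (v : V) : Option (Rec d J) := by
  classical
  exact if v ∈ D.X then
    some (true, Fin.ofNat (d + 1) (idx G v (D.par r0 v)),
      Fin.ofNat (d + 1) (idx S0 (θ (D.par r0 v)) (θ v)), w v)
  else if v ∈ D.C ∧ D.par r0 v ∈ D.X then
    some (false, 0, Fin.ofNat (d + 1) (idx S0 (θ (D.par r0 v)) (θ v)), w v)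
  else none

/-- second part of the code -/
noncomputable def codeB (D : Deco G R succ T w) (S0 : SimpleGraph V) (θ : D.S ≃g S0)
    (r0 : V) (v : {v // v ∈ R}) : Bool × Fin (K + 3) := by
  classical
  exact (decide (succ v.1 = some (D.par r0 v.1)),
    Fin.ofNat (K + 3) (idx S0 (θ (D.par r0 v.1)) (θ v.1)))

lemma par_self (D : Deco G R succ T w) (r0 : V) : D.par r0 r0 = r0 := by
  classical
  unfold Deco.par
  rw [dif_neg]
  rintro ⟨p, _, h⟩
  simp at h

lemma codeA_support (hsinj : ∀ a b c, succ a = some c → succ b = some c → a = b)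
    (D : Deco G R succ T w) (S0 : SimpleGraph V) (θ : D.S ≃g S0)
    {r0 : V} (hr0 : r0 ∈ R) (d : ℕ) :
    (univ.filter (fun v => (codeA D S0 θ r0 d v).isSome)).card ≤ 3 * D.X.card := by
  classical
  have hsub : univ.filter (fun v => (codeA D S0 θ r0 d v).isSome) ⊆
      D.X ∪ (univ.filter (fun v => ∃ x ∈ D.X, succ v = some x)) ∪
      (univ.filter (fun v => ∃ x ∈ D.X, succ x = some v)) := by
    intro v hv
    simp only [mem_filter, mem_univ, true_and, mem_union] at hv ⊢
    by_cases h1 : v ∈ D.X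
    · exact Or.inl (Or.inl h1)
    · by_cases h2 : v ∈ D.C ∧ D.par r0 v ∈ D.X
      · have hvr : v ≠ r0 := by
          rintro rfl
          rw [par_self] at h2
          exact h1 h2.2
        obtain ⟨ha, hd⟩ := D.par_spec hvr
        have hp := D.closer_not_mem_I hr0 (D.C_not_mem_I h2.1) ha hd
        rcases D.clean_nbr h2.1 ha hp with h3 | h3
        · exact Or.inl (Or.inr ⟨_, h2.2, h3⟩)
        · exact Or.inr ⟨_, h2.2, h3⟩
      · exfalso
        unfold codeA at hv
        rw [if_neg h1, if_neg h2] at hv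
        simp at hv
  have hA : (univ.filter (fun v => ∃ x ∈ D.X, succ v = some x)).card ≤ D.X.card := by
    refine Finset.card_le_card_of_injOn (fun v => (succ v).getD v) ?_ ?_
    · intro v hv
      simp only [coe_filter, mem_univ, true_and, Set.mem_ofPred_eq] at hv
      obtain ⟨x, hx, hs⟩ := hv
      simp only [hs, Option.getD_some, mem_coe]
      exact hx
    · intro a ha b hb hab
      simp only [coe_filter, mem_univ, true_and, Set.mem_ofPred_eq] at ha hb
      obtain ⟨x, hx, hs⟩ := ha
      obtain ⟨y, hy, ht⟩ := hb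
      simp only [hs, ht, Option.getD_some] at hab
      exact hsinj _ _ _ hs (hab ▸ ht)
  have hB : (univ.filter (fun v => ∃ x ∈ D.X, succ x = some v)).card ≤ D.X.card := by
    refine le_trans (Finset.card_le_card ?_) (Finset.card_image_le
      (s := D.X) (f := fun x => (succ x).getD x))
    intro v hv
    simp only [mem_filter, mem_univ, true_and] at hv
    obtain ⟨x, hx, hs⟩ := hv
    exact mem_image.mpr ⟨x, hx, by simp [hs]⟩
  calc _ ≤ _ := Finset.card_le_card hsub
    _ ≤ _ + _ := Finset.card_union_le _ _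
    _ ≤ _ + _ + _ := Nat.add_le_add_right (Finset.card_union_le _ _) _
    _ ≤ D.X.card + D.X.card + D.X.card := Nat.add_le_add (Nat.add_le_add_left hA _) hB
    _ = 3 * D.X.card := by ring

lemma ofNat_inj {n a b : ℕ} (ha : a < n + 1) (hb : b < n + 1)
    (h : Fin.ofNat (n + 1) a = Fin.ofNat (n + 1) b) : a = b := by
  have := congrArg Fin.val h
  simpa [Fin.ofNat, Nat.mod_eq_of_lt ha, Nat.mod_eq_of_lt hb] using this

lemma codeA_true_iff (D : Deco G R succ T w) (S0 : SimpleGraph V) (θ : D.S ≃g S0)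
    (r0 : V) (d : ℕ) (v : V) :
    v ∈ D.X ↔ ∃ r : Fin (d + 1) × Fin (d + 1) × Fin J, codeA D S0 θ r0 d v = some (true, r) := by
  classical
  constructor
  · intro h
    unfold codeA
    rw [if_pos h]
    exact ⟨_, rfl⟩
  · rintro ⟨r, hr⟩
    by_contra h
    unfold codeA at hr
    rw [if_neg h] at hr
    split_ifs at hr
    · simp at hr

lemma codeA_of_mem (D : Deco G R succ T w) (S0 : SimpleGraph V) (θ : D.S ≃g S0)
    (r0 : V) (d : ℕ) {v : V} (h : v ∈ D.X) :
    codeA D S0 θ r0 d v = some (true, Fin.ofNat (d + 1) (idx G v (D.par r0 v)),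
      Fin.ofNat (d + 1) (idx S0 (θ (D.par r0 v)) (θ v)), w v) := by
  unfold codeA
  rw [if_pos h]

lemma codeA_of_C (D : Deco G R succ T w) (S0 : SimpleGraph V) (θ : D.S ≃g S0)
    (r0 : V) (d : ℕ) {v : V} (h : v ∈ D.C) (h2 : D.par r0 v ∈ D.X) :
    codeA D S0 θ r0 d v = some (false, 0,
      Fin.ofNat (d + 1) (idx S0 (θ (D.par r0 v)) (θ v)), w v) := by
  unfold codeA
  rw [if_neg (D.C_not_mem_X h), if_pos ⟨h, h2⟩]

lemma codeA_of_C' (D : Deco G R succ T w) (S0 : SimpleGraph V) (θ : D.S ≃g S0)
    (r0 : V) (d : ℕ) {v : V} (h : v ∈ D.C) (h2 : D.par r0 v ∉ D.X) :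
    codeA D S0 θ r0 d v = none := by
  unfold codeA
  rw [if_neg (D.C_not_mem_X h), if_neg (fun h3 => h2 h3.2)]

lemma nb_mono {H H' : SimpleGraph V} (h : H ≤ H') (v : V) : nb H v ⊆ nb H' v := by
  intro u hu
  rw [mem_nb] at hu ⊢
  exact h hu

theorem code_inj {w' : V → Fin J} {d : ℕ} (hdeg : ∀ v, (nb G v).card ≤ d)
    (hsR : ∀ a b, succ a = some b → a ∈ R ∧ b ∈ R)
    (hsinj : ∀ a b c, succ a = some c → succ b = some c → a = b)
    (hTc : ∀ j, (T j).Connected) (hTi : ∀ j j', Nonempty (T j ≃g T j') → j = j')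
    (D : Deco G R succ T w) (D' : Deco G R succ T w') (S0 : SimpleGraph V)
    (θ : D.S ≃g S0) (θ' : D'.S ≃g S0) {r0 : V} (hr0 : r0 ∈ R) (h0 : θ r0 = θ' r0)
    (hA : codeA D S0 θ r0 d = codeA D' S0 θ' r0 d)
    (hB : codeB D S0 θ r0 = codeB D' S0 θ' r0)
    (hwR : ∀ v, v ∉ R → w v = w' v) : w = w' := by
  classical
  have hX : D.X = D'.X := by
    ext v
    rw [codeA_true_iff D S0 θ r0 d, codeA_true_iff D' S0 θ' r0 d, hA]
  have hidx : ∀ {w₁ : V → Fin J} (D₁ : Deco G R succ T w₁) (θ₁ : D₁.S ≃g S0) (v : V), v ≠ r0 →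
      idx S0 (θ₁ (D₁.par r0 v)) (θ₁ v) < (nb D₁.S (D₁.par r0 v)).card := by
    intro w₁ D₁ θ₁ v hv
    have h1 : S0.Adj (θ₁ (D₁.par r0 v)) (θ₁ v) := θ₁.map_adj_iff.mpr (D₁.par_spec hv).1.symm
    have h2 := idx_lt h1
    rwa [nb_iso_card] at h2
  have hidxd : ∀ {w₁ : V → Fin J} (D₁ : Deco G R succ T w₁) (θ₁ : D₁.S ≃g S0) (v : V), v ≠ r0 →
      idx S0 (θ₁ (D₁.par r0 v)) (θ₁ v) < d + 1 := by
    intro w₁ D₁ θ₁ v hv
    have h1 := hidx D₁ θ₁ v hv
    have h2 := Finset.card_le_card (nb_mono D₁.S_le (D₁.par r0 v))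
    have h3 := hdeg (D₁.par r0 v)
    omega
  refine decode hsR hsinj hTc hTi D D' S0 θ θ' hr0 h0 hX ?_ ?_ ?_ ?_ hwR
  · intro v hv hvr
    have h1 := congrFun hA v
    rw [codeA_of_mem D S0 θ r0 d hv, codeA_of_mem D' S0 θ' r0 d (hX ▸ hv)] at h1
    simp only [Option.some.injEq, Prod.mk.injEq, true_and] at h1
    refine ofNat_inj ?_ ?_ h1.1
    · have h2 := idx_lt (D.S_le (D.par_spec hvr).1)
      have h3 := hdeg v
      omega
    · have h2 := idx_lt (D'.S_le (D'.par_spec hvr).1)
      have h3 := hdeg v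
      omega
  · intro v hv _
    have h1 := congrFun hB ⟨v, D.C_sub hv⟩
    simp only [codeB, Prod.mk.injEq, decide_eq_decide] at h1
    exact h1.1
  · intro v hv hvr
    rcases D.trichotomy v with h | h | h
    · have h1 := congrFun hA v
      rw [codeA_of_mem D S0 θ r0 d h, codeA_of_mem D' S0 θ' r0 d (hX ▸ h)] at h1
      simp only [Option.some.injEq, Prod.mk.injEq, true_and] at h1
      exact ofNat_inj (hidxd D θ v hvr) (hidxd D' θ' v hvr) h1.2.1
    · have h' : v ∈ D'.C := D'.mem_C_of (D.C_sub h) (by rw [← hX]; exact D.C_not_mem_X h)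
      by_cases hp : D.par r0 v ∈ D.X
      · by_cases hp' : D'.par r0 v ∈ D'.X
        · have h1 := congrFun hA v
          rw [codeA_of_C D S0 θ r0 d h hp, codeA_of_C D' S0 θ' r0 d h' hp'] at h1
          simp only [Option.some.injEq, Prod.mk.injEq, true_and] at h1
          exact ofNat_inj (hidxd D θ v hvr) (hidxd D' θ' v hvr) h1.1
        · exfalso
          have h1 := congrFun hA v
          rw [codeA_of_C D S0 θ r0 d h hp, codeA_of_C' D' S0 θ' r0 d h' hp'] at h1
          simp at h1
      · by_cases hp' : D'.par r0 v ∈ D'.X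
        · exfalso
          have h1 := congrFun hA v
          rw [codeA_of_C' D S0 θ r0 d h hp, codeA_of_C D' S0 θ' r0 d h' hp'] at h1
          simp at h1
        · have hv' : v ∉ D'.I := D'.R_not_mem_I (D.C_sub h)
          have hpC : D.par r0 v ∈ D.C := by
            rcases D.trichotomy (D.par r0 v) with h1 | h1 | h1
            · exact absurd h1 hp
            · exact h1
            · exact absurd h1 (D.closer_not_mem_I hr0 hv (D.par_spec hvr).1 (D.par_spec hvr).2)
          have hpC' : D'.par r0 v ∈ D'.C := by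
            rcases D'.trichotomy (D'.par r0 v) with h1 | h1 | h1
            · exact absurd h1 hp'
            · exact h1
            · exact absurd h1
                (D'.closer_not_mem_I hr0 hv' (D'.par_spec hvr).1 (D'.par_spec hvr).2)
          have h1 := congrFun hB ⟨v, D.C_sub h⟩
          simp only [codeB, Prod.mk.injEq] at h1
          refine ofNat_inj ?_ ?_ h1.2
          · have h2 := hidx D θ v hvr
            have h3 := card_nb_clean hsinj D hpC
            omega
          · have h2 := hidx D' θ' v hvr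
            have h3 := card_nb_clean hsinj D' hpC'
            omega
    · exact absurd h hv
  · intro v hv
    have h1 := congrFun hA v
    rw [codeA_of_mem D S0 θ r0 d hv, codeA_of_mem D' S0 θ' r0 d (hX ▸ hv)] at h1
    simp only [Option.some.injEq, Prod.mk.injEq, true_and] at h1
    exact h1.2.2

/-- number of partial functions with small support -/
noncomputable def numA (V : Type*) [Fintype V] [DecidableEq V] (d J k : ℕ) : ℕ :=
  (univ.filter (fun a : V → Option (Rec d J) =>
    (univ.filter (fun v => (a v).isSome)).card ≤ k)).card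

theorem card_fiber_le {d x : ℕ} (hdeg : ∀ v, (nb G v).card ≤ d)
    (hsR : ∀ a b, succ a = some b → a ∈ R ∧ b ∈ R)
    (hsinj : ∀ a b c, succ a = some c → succ b = some c → a = b)
    (hTc : ∀ j, (T j).Connected) (hTi : ∀ j j', Nonempty (T j ≃g T j') → j = j')
    (𝒢 : Finset (V → Fin J)) (D : ∀ w ∈ 𝒢, Deco G R succ T w)
    (hx : ∀ w hw, (D w hw).X.card ≤ x) (S0 : SimpleGraph V)
    (θ : ∀ w hw, (D w hw).S ≃g S0) {r0 : V} (hr0 : r0 ∈ R) :
    𝒢.card ≤ numA V d J (3 * x) * (2 * (K + 3)) ^ R.card * Fintype.card V *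
      J ^ (Fintype.card V - R.card) := by
  classical
  let code : {w // w ∈ 𝒢} → ({a : V → Option (Rec d J) //
      (univ.filter (fun v => (a v).isSome)).card ≤ 3 * x} ×
      ({v // v ∈ R} → Bool × Fin (K + 3))) × V × ({v // v ∉ R} → Fin J) := fun w =>
    ((⟨codeA (D w.1 w.2) S0 (θ w.1 w.2) r0 d,
      le_trans (codeA_support hsinj _ _ _ hr0 d) (Nat.mul_le_mul_left 3 (hx w.1 w.2))⟩,
      codeB (D w.1 w.2) S0 (θ w.1 w.2) r0), θ w.1 w.2 r0, fun v => w.1 v.1)
  have hinj : Function.Injective code := by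
    intro a b hab
    simp only [code, Prod.mk.injEq, Subtype.mk.injEq] at hab
    obtain ⟨⟨hA, hB⟩, h0, hW⟩ := hab
    apply Subtype.ext
    refine code_inj hdeg hsR hsinj hTc hTi (D a.1 a.2) (D b.1 b.2) S0 (θ a.1 a.2) (θ b.1 b.2)
      hr0 h0 hA hB ?_
    intro v hv
    exact congrFun hW ⟨v, hv⟩
  have h1 := Fintype.card_le_of_injective code hinj
  rw [Fintype.card_coe] at h1
  refine le_trans h1 (le_of_eq ?_)
  rw [Fintype.card_prod, Fintype.card_prod, Fintype.card_prod]
  rw [Fintype.card_fun, Fintype.card_fun, Fintype.card_prod]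
  rw [Fintype.card_subtype]
  have h2 : Fintype.card {v // v ∉ R} = Fintype.card V - R.card := by
    rw [Fintype.card_subtype_compl]
    simp
  rw [h2]
  simp only [Fintype.card_bool, Fintype.card_fin, Fintype.card_coe]
  unfold numA
  ring

theorem card_le_classes {d x : ℕ} (hdeg : ∀ v, (nb G v).card ≤ d)
    (hsR : ∀ a b, succ a = some b → a ∈ R ∧ b ∈ R)
    (hsinj : ∀ a b c, succ a = some c → succ b = some c → a = b)
    (hTc : ∀ j, (T j).Connected) (hTi : ∀ j j', Nonempty (T j ≃g T j') → j = j')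
    (𝒢 : Finset (V → Fin J)) (D : ∀ w ∈ 𝒢, Deco G R succ T w)
    (hx : ∀ w hw, (D w hw).X.card ≤ x) (hR : R.Nonempty) :
    𝒢.card ≤ (numA V d J (3 * x) * (2 * (K + 3)) ^ R.card * Fintype.card V *
      J ^ (Fintype.card V - R.card)) * numUnlabeledSpanningTrees G := by
  classical
  obtain ⟨r0, hr0⟩ := hR
  let f : {w // w ∈ 𝒢} → Quotient (isoSetoid V) := fun w =>
    Quotient.mk (isoSetoid V) (D w.1 w.2).S
  have h1 : (univ : Finset {w // w ∈ 𝒢}).card ≤
      (numA V d J (3 * x) * (2 * (K + 3)) ^ R.card * Fintype.card V *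
      J ^ (Fintype.card V - R.card)) * ((univ : Finset {w // w ∈ 𝒢}).image f).card := by
    refine Finset.card_le_mul_card_image _ _ ?_
    intro q _
    set S0 : SimpleGraph V := q.out with hS0
    set 𝒢q : Finset (V → Fin J) :=
      ((univ : Finset {w // w ∈ 𝒢}).filter (fun w => f w = q)).image Subtype.val with h𝒢q
    have hcard : ((univ : Finset {w // w ∈ 𝒢}).filter (fun w => f w = q)).card = 𝒢q.card := by
      rw [h𝒢q, Finset.card_image_of_injective _ Subtype.val_injective]
    have hmem : ∀ w ∈ 𝒢q, ∃ h : w ∈ 𝒢, f ⟨w, h⟩ = q := by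
      intro w hw
      rw [h𝒢q, mem_image] at hw
      obtain ⟨⟨w', hw'⟩, h2, rfl⟩ := hw
      simp only [mem_filter, mem_univ, true_and] at h2
      exact ⟨hw', h2⟩
    have hiso : ∀ w (hw : w ∈ 𝒢q), Nonempty ((D w (hmem w hw).1).S ≃g S0) := by
      intro w hw
      obtain ⟨h, hf⟩ := hmem w hw
      have h2 : (isoSetoid V).r (D w h).S S0 := by
        apply Quotient.exact (s := isoSetoid V)
        rw [hS0, Quotient.out_eq]
        exact hf
      exact h2
    rw [hcard]
    exact card_fiber_le hdeg hsR hsinj hTc hTi 𝒢q (fun w hw => D w (hmem w hw).1)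
      (fun w hw => hx w _) S0 (fun w hw => (hiso w hw).some) hr0
  have h2 : (univ : Finset {w // w ∈ 𝒢}).card = 𝒢.card := by
    rw [Finset.card_univ, Fintype.card_coe]
  rw [h2] at h1
  refine le_trans h1 (Nat.mul_le_mul_left _ ?_)
  unfold numUnlabeledSpanningTrees
  rw [← Set.ncard_coe_finset]
  refine Set.ncard_le_ncard ?_ (Set.toFinite _)
  intro q hq
  rw [mem_coe, mem_image] at hq
  obtain ⟨w, _, rfl⟩ := hq
  exact ⟨(D w.1 w.2).S, ⟨(D w.1 w.2).S_le, (D w.1 w.2).S_tree⟩, rfl⟩

/-- a generating function bound for partial functions with small support -/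
theorem numA_le (V : Type*) [Fintype V] [DecidableEq V] (d J k : ℕ) (hJ : 0 < J) {s : ℝ}
    (hs : 1 ≤ s) :
    (numA V d J k : ℝ) ≤ (2 * (d + 1) * (d + 1) * J * s) ^ k *
      (1 + 1 / s) ^ (Fintype.card V) := by
  classical
  set N : ℝ := 2 * (d + 1) * (d + 1) * J with hN
  have hJ' : (1 : ℝ) ≤ J := by exact_mod_cast hJ
  have hN1 : 1 ≤ N := by
    rw [hN]
    have : (0 : ℝ) ≤ d := Nat.cast_nonneg d
    nlinarith [mul_nonneg this this, mul_nonneg (mul_nonneg this this) (by linarith : (0:ℝ) ≤ J)]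
  set t : ℝ := 1 / (N * s) with ht
  have hNs : 1 ≤ N * s := by nlinarith
  have ht0 : 0 < t := by rw [ht]; positivity
  have ht1 : t ≤ 1 := by
    rw [ht, div_le_one (by linarith)]
    exact hNs
  have hsum : ∑ a : V → Option (Rec d J), ∏ v, (if (a v).isSome then t else 1)
      = (1 + 1 / s) ^ (Fintype.card V) := by
    have h1 := (Finset.prod_univ_sum (fun _ : V => (univ : Finset (Option (Rec d J))))
      (fun _ o => (if o.isSome then t else 1 : ℝ))).symm
    rw [Fintype.piFinset_univ] at h1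
    rw [h1, Finset.prod_const, Finset.card_univ]
    congr 1
    rw [Fintype.sum_option]
    simp only [Option.isSome_none, Bool.false_eq_true, if_false, Option.isSome_some, if_true,
      Finset.sum_const, Finset.card_univ, Fintype.card_prod, Fintype.card_bool, Fintype.card_fin,
      nsmul_eq_mul]
    rw [ht, hN]
    push_cast
    have hJ0 : (J : ℝ) ≠ 0 := by positivity
    have hs0 : s ≠ 0 := by linarith
    have hd0 : (d : ℝ) + 1 ≠ 0 := by positivity
    field_simp
  have hterm : ∀ a : V → Option (Rec d J), ∏ v, (if (a v).isSome then t else (1 : ℝ))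
      = t ^ (univ.filter (fun v => (a v).isSome)).card := by
    intro a
    rw [Finset.prod_ite]
    simp
  have hlow : (numA V d J k : ℝ) * t ^ k ≤ (1 + 1 / s) ^ (Fintype.card V) := by
    rw [← hsum]
    unfold numA
    calc ((univ.filter (fun a : V → Option (Rec d J) =>
          (univ.filter (fun v => (a v).isSome)).card ≤ k)).card : ℝ) * t ^ k
        = ∑ a ∈ (univ.filter (fun a : V → Option (Rec d J) =>
          (univ.filter (fun v => (a v).isSome)).card ≤ k)), t ^ k := by
          rw [Finset.sum_const, nsmul_eq_mul]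
      _ ≤ ∑ a ∈ (univ.filter (fun a : V → Option (Rec d J) =>
          (univ.filter (fun v => (a v).isSome)).card ≤ k)),
            ∏ v, (if (a v).isSome then t else (1 : ℝ)) := by
          refine Finset.sum_le_sum ?_
          intro a ha
          rw [hterm]
          exact pow_le_pow_of_le_one ht0.le ht1 (Finset.mem_filter.mp ha).2
      _ ≤ _ := by
          refine Finset.sum_le_sum_of_subset_of_nonneg (Finset.filter_subset _ _) ?_
          intro a _ _
          rw [hterm]; positivity
  have htk : 0 < t ^ k := by positivity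
  have h3 : (numA V d J k : ℝ) ≤ (1 + 1 / s) ^ (Fintype.card V) / t ^ k := by
    rw [le_div_iff₀ htk]; exact hlow
  refine le_trans h3 (le_of_eq ?_)
  have h4 : t ^ k = ((N * s) ^ k)⁻¹ := by rw [ht, one_div (N * s), inv_pow]
  rw [h4, div_inv_eq_mul, mul_comm]

end

end Pool.Agent.Helper33.Otter
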