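import Mathlib

/-!
Basic definitions: isomorphism classes of spanning trees.
-/

namespace Pool.Agent.Helper33.Otter

/-- Isomorphism of graphs on the vertex type `V`, as a setoid. -/
def isoSetoid (V : Type*) : Setoid (SimpleGraph V) where
  r A B := Nonempty (A ≃g B)
  iseqv :=
    { refl := fun _ => ⟨SimpleGraph.Iso.refl⟩
      symm := fun ⟨f⟩ => ⟨f.symm⟩
      trans := fun ⟨f⟩ ⟨g⟩ => ⟨g.comp f⟩ }

/-- The set of isomorphism classes of spanning trees of `G`. -/
def unlabeledSpanningTrees {V : Type*} (G : SimpleGraph V) : Set (Quotient (isoSetoid V)) :=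
  (fun T : SimpleGraph V => Quotient.mk (isoSetoid V) T) '' {T | T ≤ G ∧ T.IsTree}

/-- The number of pairwise non-isomorphic spanning trees of `G`. -/
noncomputable def numUnlabeledSpanningTrees {V : Type*} (G : SimpleGraph V) : ℕ :=
  (unlabeledSpanningTrees G).ncard

end Pool.Agent.Helper33.Otter
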