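import Pool.Agent.Helper33.OtterMain

/-!
The finite inequality.
-/

namespace Pool.Agent.Helper33.Otter

open Finset

set_option linter.unusedSectionVars false

lemma parGraph_connected {K : ℕ} [NeZero K] {par : Fin K → Fin K}
    (hpar : ∀ i, i ≠ 0 → par i < i) : (parGraph par).Connected := by
  have key : ∀ n : ℕ, ∀ i : Fin K, i.val = n → (parGraph par).Reachable i 0 := by
    intro n
    induction n using Nat.strong_induction_on with
    | _ n ih =>
      intro i hi
      by_cases h : i = 0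
      · rw [h]
      · have h1 : (parGraph par).Adj i (par i) := (parGraph_adj hpar i (par i)).mpr (Or.inl ⟨h, rfl⟩)
        have h2 : (par i).val < i.val := hpar i h
        exact h1.reachable.trans (ih _ (hi ▸ h2) (par i) rfl)
  have : Nonempty (Fin K) := ⟨0⟩
  exact SimpleGraph.Connected.mk
    (fun i j => (key _ i rfl).trans (key _ j rfl).symm)

variable {V : Type*} [Fintype V] [DecidableEq V]

theorem main_count {K J q d : ℕ} [NeZero K] (G : SimpleGraph V) (hG : G.Connected)
    (hreg : ∀ v, (nb G v).card = d) (par : Fin J → Fin K → Fin K)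
    (hpar : ∀ j i, i ≠ 0 → par j i < i)
    (hTi : ∀ j j', Nonempty (parGraph (par j) ≃g parGraph (par j')) → j = j')
    (hJ : 0 < J) (hq : 2 ≤ q) (hKJ : K * J ≤ q) (hd : q ^ 20 ≤ d) :
    ∃ r : ℕ, r ≤ Fintype.card V ∧
      |(r : ℝ) - Fintype.card V / K| ≤ Fintype.card V / q ^ 2 ∧
      (J : ℝ) ^ (Fintype.card V) ≤ 2 * ((numA V d J (3 * ⌊20 * K * (Fintype.card V : ℝ) / q⌋₊)
        * (2 * (K + 3)) ^ r * Fintype.card V * J ^ (Fintype.card V - r)) *
          numUnlabeledSpanningTrees G) := by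
  classical
  have : NeZero J := ⟨hJ.ne'⟩
  have : NeZero q := ⟨by omega⟩
  have : Nonempty (Fin J) := ⟨0⟩
  have : Nonempty (Fin q) := ⟨0⟩
  have : Nonempty (Fin K) := ⟨0⟩
  obtain ⟨v₀⟩ := hG.nonempty
  set n := Fintype.card V with hn
  have hK : 0 < K := Nat.pos_of_neZero K
  have hnd : d ≤ n := by
    rw [← hreg v₀]; exact Finset.card_le_univ _
  have hKq : K ≤ q := le_trans (Nat.le_mul_of_pos_right K hJ) hKJ
  have hJq : J ≤ q := le_trans (Nat.le_mul_of_pos_left J hK) hKJ
  -- real versions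
  have hqR : (2 : ℝ) ≤ q := by exact_mod_cast hq
  have hq0 : (0 : ℝ) < q := by linarith
  have hKR : (1 : ℝ) ≤ K := by exact_mod_cast hK
  have hJR : (1 : ℝ) ≤ J := by exact_mod_cast hJ
  have hKJR : (K : ℝ) * J ≤ q := by exact_mod_cast hKJ
  have hKqR : (K : ℝ) ≤ q := by exact_mod_cast hKq
  have hdR : (q : ℝ) ^ 20 ≤ d := by exact_mod_cast hd
  have hd0 : (0 : ℝ) < d := lt_of_lt_of_le (pow_pos hq0 20) hdR
  have hndR : (d : ℝ) ≤ n := by exact_mod_cast hnd
  have hn0 : (0 : ℝ) < n := lt_of_lt_of_le hd0 hndR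
  have hd19 : (q : ℝ) ≤ d / (q : ℝ) ^ 19 := by
    rw [le_div_iff₀ (pow_pos hq0 19)]
    calc (q : ℝ) * (q : ℝ) ^ 19 = (q : ℝ) ^ 20 := by ring
      _ ≤ (d : ℝ) := hdR
  have hn4 : (8 : ℝ) ≤ n / (q : ℝ) ^ 4 := by
    rw [le_div_iff₀ (pow_pos hq0 4)]
    have e3 : (8 : ℝ) ≤ (q : ℝ) ^ 16 := by
      calc (8 : ℝ) ≤ 2 ^ 16 := by norm_num
        _ ≤ (q : ℝ) ^ 16 := pow_le_pow_left₀ (by norm_num) hqR 16
    calc (8 : ℝ) * (q : ℝ) ^ 4 ≤ (q : ℝ) ^ 16 * (q : ℝ) ^ 4 :=
          mul_le_mul_of_nonneg_right e3 (pow_pos hq0 4).le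
      _ = (q : ℝ) ^ 20 := by ring
      _ ≤ (d : ℝ) := hdR
      _ ≤ n := hndR
  clear hdR hd
  set t : ℝ := d / q ^ 4 with ht
  set β : ℝ := 8 * n / q ^ 11 with hβ
  set s : ℝ := n / q ^ 2 with hs
  have ht0 : 0 < t := by rw [ht]; positivity
  have hβ0 : 0 < β := by rw [hβ]; positivity
  have hs0 : 0 < s := by rw [hs]; positivity
  have hfam : ((fam K q J).card : ℝ) ≤ 2 * q := by
    have h1 : (fam K q J).card ≤ K * J + q := fam_card
    have h2 : ((fam K q J).card : ℝ) ≤ K * J + q := by exact_mod_cast h1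
    linarith
  have hβ' : 4 * ((n : ℝ) * (fam K q J).card * d) ≤ β * t ^ 2 := by
    have e1 : β * t ^ 2 = 8 * n * d * (d / q ^ 19) := by
      rw [hβ, ht]; field_simp
    have e2 : (q : ℝ) ≤ d / q ^ 19 := hd19
    rw [e1]
    calc 4 * ((n : ℝ) * (fam K q J).card * d) ≤ 4 * (n * (2 * q) * d) := by
          have := mul_le_mul_of_nonneg_right (mul_le_mul_of_nonneg_left hfam hn0.le) hd0.le
          linarith
      _ = 8 * n * d * q := by ring
      _ ≤ _ := mul_le_mul_of_nonneg_left e2 (by positivity)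
  have hs' : 8 * (n : ℝ) ≤ s ^ 2 := by
    have e1 : s ^ 2 = n * (n / q ^ 4) := by rw [hs]; field_simp
    have e2 : (8 : ℝ) ≤ n / q ^ 4 := hn4
    rw [e1]
    calc 8 * (n : ℝ) = n * 8 := by ring
      _ ≤ _ := mul_le_mul_of_nonneg_left e2 hn0.le
  have hq1 : q - 1 < q := by omega
  obtain ⟨o, ho⟩ := exists_slice (V := V) _ (many_good (V := V) (L := Lab K q J) (nb G)
    (fam K q J) t β ht0 hβ0 d (fun v => (hreg v).le) (rcl K q J) (pcl J ⟨q - 1, hq1⟩) s hs0
    hβ' hs')
  set 𝒢 : Finset (V → Fin J) := univ.filter (fun w : V → Fin J =>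
    ((badSet (nb G) (fam K q J) t (fun v => ((o v, w v) : Lab K q J))).card : ℝ) < β ∧
      |((univ.filter (fun u => ((o u, w u) : Lab K q J) ∈ rcl K q J)).card : ℝ) -
        Fintype.card V * ((rcl K q J).card / Fintype.card (Lab K q J))| < s ∧
      |((univ.filter (fun u => ((o u, w u) : Lab K q J) ∈
        (pcl J ⟨q - 1, hq1⟩ : Finset (Lab K q J)))).card : ℝ) -
        Fintype.card V * ((pcl J ⟨q - 1, hq1⟩ : Finset (Lab K q J)).card /
          Fintype.card (Lab K q J))| < s) with h𝒢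
  have ho' : (J : ℝ) ^ n ≤ 2 * (𝒢.card : ℝ) := by
    have := ho
    rw [Fintype.card_fin] at this
    exact this
  have h𝒢0 : 𝒢.Nonempty := by
    rw [← Finset.card_pos]
    have : (0 : ℝ) < (J : ℝ) ^ n := by positivity
    have h2 : (0 : ℝ) < 𝒢.card := by linarith
    exact_mod_cast h2
  have hgood : ∀ w ∈ 𝒢, ((badSet (nb G) (fam K q J) t (fun v => (o v, w v))).card : ℝ) < β ∧
      |((rootsOf o).card : ℝ) - n / K| < s ∧
      |(((univ : Finset V).filter (fun v => (o v).1 = 0 ∧ ((o v).2.1 : ℕ) = q - 1)).card : ℝ) -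
        n / (K * q)| < s := by
    intro w hw
    rw [h𝒢, mem_filter] at hw
    obtain ⟨_, h1, h2, h3⟩ := hw
    refine ⟨h1, ?_, ?_⟩
    · rw [rcl_ratio (by omega) hJ] at h2
      have e1 : univ.filter (fun u => ((o u, w u) : Lab K q J) ∈ rcl K q J) = rootsOf o := by
        ext u
        simp only [mem_filter, mem_univ, true_and, mem_rcl, rootsOf]
      rw [e1] at h2
      have e2 : (Fintype.card V : ℝ) * (1 / K) = n / K := by rw [← hn]; ring
      rw [e2] at h2
      exact h2
    · rw [pcl_ratio (by omega) hJ] at h3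
      have e1 : univ.filter (fun u => ((o u, w u) : Lab K q J) ∈
          (pcl J ⟨q - 1, hq1⟩ : Finset (Lab K q J))) =
          (univ : Finset V).filter (fun v => (o v).1 = 0 ∧ ((o v).2.1 : ℕ) = q - 1) := by
        ext u
        simp only [mem_filter, mem_univ, true_and, mem_pcl, Fin.ext_iff]
      rw [e1] at h3
      have e2 : (Fintype.card V : ℝ) * (1 / (K * q)) = n / (K * q) := by rw [← hn]; ring
      rw [e2] at h3
      exact h3
  have hq1R : (1 : ℝ) < q := by linarith
  have hq4 : (q : ℝ) < q ^ 4 := by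
    calc (q : ℝ) = q ^ 1 := (pow_one _).symm
      _ < q ^ 4 := pow_lt_pow_right₀ hq1R (by norm_num)
  have hq24 : (q : ℝ) ^ 2 < q ^ 4 := pow_lt_pow_right₀ hq1R (by norm_num)
  have hq12 : (q : ℝ) < q ^ 2 := by
    calc (q : ℝ) = q ^ 1 := (pow_one _).symm
      _ < q ^ 2 := pow_lt_pow_right₀ hq1R (by norm_num)
  have htKJ : t < d * (1 / (K * J)) := by
    rw [ht, mul_one_div]
    apply div_lt_div_of_pos_left hd0 (by positivity)
    exact lt_of_le_of_lt hKJR hq4
  have hKq2 : (K : ℝ) * q ≤ q ^ 2 := by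
    calc (K : ℝ) * q ≤ q * q := mul_le_mul_of_nonneg_right hKqR hq0.le
      _ = q ^ 2 := by ring
  have htKm : t < d * (1 / (K * q)) := by
    rw [ht, mul_one_div]
    apply div_lt_div_of_pos_left hd0 (by positivity)
    exact lt_of_le_of_lt hKq2 hq24
  obtain ⟨w₀, hw₀⟩ := h𝒢0
  obtain ⟨hb₀, hR, hL⟩ := hgood w₀ hw₀
  obtain ⟨succ, hsR, hsinj, hsG, hpos, hnone⟩ := good_path G d hreg (by omega) hJ o w₀ t β ht0
    htKm hb₀
  set x : ℕ := ⌊20 * K * (n : ℝ) / q⌋₊ with hx
  -- numeric estimates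
  have hq7 : (128 : ℝ) ≤ q ^ 7 := by
    calc (128 : ℝ) = 2 ^ 7 := by norm_num
      _ ≤ q ^ 7 := pow_le_pow_left₀ (by norm_num) hqR 7
  have hU : (2 * t * (K * J) / d) * n + (K * J + 1) * β ≤ 3 * n / q ^ 3 := by
    have e1 : (2 * t * (K * J) / d) * n = (K * J) * (2 * n / q ^ 4) := by
      rw [ht]; field_simp
    have e2 : ((K : ℝ) * J) * (2 * n / q ^ 4) ≤ q * (2 * n / q ^ 4) :=
      mul_le_mul_of_nonneg_right hKJR (by positivity)
    have e3 : (q : ℝ) * (2 * n / q ^ 4) = 2 * n / q ^ 3 := by field_simp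
    have e4 : (K * J + 1 : ℝ) * β ≤ (2 * q) * β :=
      mul_le_mul_of_nonneg_right (by linarith) hβ0.le
    have e5 : (2 * q : ℝ) * β = (n / q ^ 3) * (16 / q ^ 7) := by
      rw [hβ]; field_simp; ring
    have e6 : (16 : ℝ) / q ^ 7 ≤ 1 := by
      rw [div_le_one (by positivity)]; linarith
    have e7 : (n / q ^ 3 : ℝ) * (16 / q ^ 7) ≤ (n / q ^ 3) * 1 :=
      mul_le_mul_of_nonneg_left e6 (by positivity)
    have e8 : 3 * (n : ℝ) / q ^ 3 = 2 * n / q ^ 3 + n / q ^ 3 := by ring
    rw [e8]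
    linarith
  have hℓ : (((rootsOf o).filter (fun r => succ r = none)).card : ℝ) ≤ 4 * (n / q) := by
    have e0 := (abs_lt.mp hL).2
    have e1 : (n : ℝ) / (K * q) ≤ n / q := by
      apply div_le_div_of_nonneg_left hn0.le hq0
      exact le_mul_of_one_le_left hq0.le hKR
    have e2 : s ≤ n / q * (1 / 2) := by
      rw [hs]
      have : (n : ℝ) / q ^ 2 = n / q * (1 / q) := by field_simp
      rw [this]
      apply mul_le_mul_of_nonneg_left _ (by positivity)
      exact one_div_le_one_div_of_le (by norm_num) hqR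
    have e3 : (2 * t * (K * q) / d) * n = (K * q) * (2 * n / q ^ 4) := by
      rw [ht]; field_simp
    have e4 : ((K : ℝ) * q) * (2 * n / q ^ 4) ≤ (q : ℝ) ^ 2 * (2 * n / q ^ 4) :=
      mul_le_mul_of_nonneg_right hKq2 (by positivity)
    have e5 : (q : ℝ) ^ 2 * (2 * n / q ^ 4) = 2 * s := by rw [hs]; field_simp
    have e6 : (q : ℝ) * (K * q + 1) * β ≤ (q * (2 * q ^ 2)) * β := by
      apply mul_le_mul_of_nonneg_right _ hβ0.le
      apply mul_le_mul_of_nonneg_left _ hq0.le
      linarith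
    have e7 : (q * (2 * q ^ 2) : ℝ) * β = (n / q) * (16 / q ^ 7) := by
      rw [hβ]; field_simp; ring
    have e8 : (16 : ℝ) / q ^ 7 ≤ 1 := by
      rw [div_le_one (by positivity)]; linarith
    have e9 : (n / q : ℝ) * (16 / q ^ 7) ≤ (n / q) * 1 :=
      mul_le_mul_of_nonneg_left e8 (by positivity)
    rw [← hn] at hnone
    linarith
  have hDeco : ∀ w ∈ 𝒢, ∃ D : Deco G (rootsOf o) succ (fun j => parGraph (par j)) w,
      D.X.card ≤ x := by
    intro w hw
    obtain ⟨hb, _, _⟩ := hgood w hw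
    obtain ⟨P, hP⟩ := good_pieces G d hreg (by omega) hJ par hpar o w succ t β ht0 htKJ hb
    have hKgood : K * P.good.card ≤ n := by
      have hcard : ((P.good ×ˢ (univ : Finset (Fin K))).image (fun p => P.ψ p.1 p.2)).card =
          P.good.card * K := by
        rw [Finset.card_image_of_injOn]
        · simp
        · rintro ⟨a, i⟩ ha ⟨b, j⟩ hb hab
          simp only [coe_product, coe_univ, Set.mem_prod, mem_coe, Set.mem_univ,
            and_true] at ha hb
          obtain ⟨h, h'⟩ := P.inj a ha b hb i j hab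
          rw [h, h']
      have := Finset.card_le_univ ((P.good ×ˢ (univ : Finset (Fin K))).image
        (fun p => P.ψ p.1 p.2))
      rw [hcard, mul_comm] at this
      exact this
    obtain ⟨D, hD⟩ := P.exists_deco hG hpar hsR hsG (fun v => ((o v).2.1 : ℕ)) hpos
      (a := n - K * P.good.card)
      (ℓ := ((rootsOf o).filter (fun r => succ r = none)).card)
      (by omega) le_rfl
    refine ⟨D, ?_⟩
    rw [hx]
    apply Nat.le_floor
    have hDR : (D.X.card : ℝ) ≤ ((n - K * P.good.card : ℕ) : ℝ) +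
        2 * K * ((((rootsOf o).filter (fun r => succ r = none)).card : ℝ) +
          ((n - K * P.good.card : ℕ) : ℝ)) := by exact_mod_cast hD
    rw [Nat.cast_sub hKgood] at hDR
    push_cast at hDR
    have e1 : (J : ℝ) * K * ((2 * t * (K * J) / d) * n + (K * J + 1) * β) ≤ 3 * s := by
      calc _ ≤ (J : ℝ) * K * (3 * n / q ^ 3) :=
            mul_le_mul_of_nonneg_left hU (by positivity)
        _ = (K * J) * (3 * n / q ^ 3) := by ring
        _ ≤ q * (3 * n / q ^ 3) := mul_le_mul_of_nonneg_right hKJR (by positivity)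
        _ = 3 * s := by rw [hs]; field_simp
    have e2 := (abs_lt.mp hR).1
    have e3 : (n : ℝ) / K - 4 * s ≤ P.good.card := by linarith
    have e4 : (n : ℝ) - K * P.good.card ≤ 4 * (n / q) := by
      have e5 : (K : ℝ) * (n / K - 4 * s) ≤ K * P.good.card :=
        mul_le_mul_of_nonneg_left e3 (by positivity)
      have e6 : (K : ℝ) * (n / K - 4 * s) = n - 4 * (K * s) := by field_simp
      have e7 : (K : ℝ) * s ≤ n / q := by
        calc (K : ℝ) * s ≤ q * s := mul_le_mul_of_nonneg_right hKqR hs0.le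
          _ = n / q := by rw [hs]; field_simp
      linarith
    have hnq : 0 ≤ (n : ℝ) / q := by positivity
    have e8 : (K : ℝ) * ((((rootsOf o).filter (fun r => succ r = none)).card : ℝ) +
          (n - K * P.good.card)) ≤ K * (8 * (n / q)) := by
      apply mul_le_mul_of_nonneg_left _ (by positivity)
      linarith
    have e9 : (n : ℝ) / q ≤ K * (n / q) := le_mul_of_one_le_left hnq hKR
    have e10 : 20 * (K : ℝ) * n / q = 20 * (K * (n / q)) := by ring
    rw [e10]
    linarith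
  choose D hD using hDeco
  have hRne : (rootsOf o).Nonempty := by
    rw [← Finset.card_pos]
    have e2 := (abs_lt.mp hR).1
    have e3 : s < n / K := by
      rw [hs]
      apply div_lt_div_of_pos_left hn0 (by linarith)
      exact lt_of_le_of_lt hKqR hq12
    have e4 : (0 : ℝ) < (rootsOf o).card := by linarith
    exact_mod_cast e4
  have hfin := card_le_classes (G := G) (K := K) (J := J) (R := rootsOf o) (succ := succ)
    (T := fun j => parGraph (par j)) (d := d) (x := x) (fun v => (hreg v).le) hsR hsinj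
    (fun j => parGraph_connected (hpar j)) hTi 𝒢 D hD hRne
  refine ⟨(rootsOf o).card, Finset.card_le_univ _, hR.le, ?_⟩
  refine le_trans ho' ?_
  have h1 : (𝒢.card : ℝ) ≤ ((numA V d J (3 * x) * (2 * (K + 3)) ^ (rootsOf o).card * n *
      J ^ (n - (rootsOf o).card)) : ℝ) * numUnlabeledSpanningTrees G := by
    exact_mod_cast hfin
  linarith

end Pool.Agent.Helper33.Otter
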