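import Pool.Agent.Helper33.OtterAsym

/-!
Boundedness of the number of unlabelled trees, the growth constant and the final theorem.
-/

namespace Pool.Agent.Helper33.Otter

open Finset Filter Topology

section bound

variable {K : ℕ} [NeZero K]

/-- Parent functions with the given tree type. -/
def parSet (T : SimpleGraph (Fin K)) : Set (Fin K → Fin K) :=
  {par | par 0 = 0 ∧ (∀ i, i ≠ 0 → par i < i) ∧ Nonempty (T ≃g parGraph par)}

lemma swap_par {par : Fin K → Fin K} (h0 : par 0 = 0) (hp : ∀ i, i ≠ 0 → par i < i)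
    {a b : Fin K} (hab : a.val + 1 = b.val) (ha : a ≠ 0) (hlt : par b < par a) :
    ∃ par' : Fin K → Fin K, par' 0 = 0 ∧ (∀ i, i ≠ 0 → par' i < i) ∧
      Nonempty (parGraph par ≃g parGraph par') ∧ (∀ j, j < a → par' j = par j) ∧
      par' a < par a := by
  classical
  let s := Equiv.swap a b
  have hb : b ≠ 0 := by
    intro h
    rw [h] at hab
    simp at hab
  have hne : a ≠ b := by
    intro h
    rw [h] at hab
    omega
  have hs0 : s 0 = 0 := Equiv.swap_apply_of_ne_of_ne (Ne.symm ha) (Ne.symm hb)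
  have hsa : s a = b := Equiv.swap_apply_left _ _
  have hsb : s b = a := Equiv.swap_apply_right _ _
  have hso : ∀ x, x ≠ a → x ≠ b → s x = x := fun x h1 h2 => Equiv.swap_apply_of_ne_of_ne h1 h2
  have hss : ∀ x, s (s x) = x := fun x => Equiv.swap_apply_self _ _ _
  have hpa : par a < a := hp a ha
  have hpb : par b < a := hlt.trans hpa
  have hablt : a < b := by
    rw [Fin.lt_def]; omega
  have hsmall : ∀ x, x < a → s x = x := by
    intro x hx
    exact hso x hx.ne (hx.trans hablt).ne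
  have hp'lt : ∀ i, i ≠ 0 → s (par (s i)) < i := by
    intro i hi
    by_cases h1 : i = a
    · rw [h1, hsa, hsmall _ hpb]
      exact hpb
    by_cases h2 : i = b
    · rw [h2, hsb, hsmall _ hpa]
      exact hpa.trans hablt
    rw [hso i h1 h2]
    have h3 := hp i hi
    by_cases h4 : par i = a
    · rw [h4, hsa]
      rw [h4] at h3
      rw [Fin.lt_def] at h3 ⊢
      have : i.val ≠ b.val := fun h => h2 (Fin.ext h)
      omega
    by_cases h5 : par i = b
    · rw [h5, hsb]
      rw [h5] at h3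
      exact hablt.trans h3
    rw [hso _ h4 h5]
    exact h3
  refine ⟨fun i => s (par (s i)), ?_, hp'lt, ⟨⟨s, ?_⟩⟩, ?_, ?_⟩
  · simp only [hs0, h0]
  · intro u v
    rw [parGraph_adj hp'lt, parGraph_adj hp]
    have e1 : ∀ x, s x ≠ 0 ↔ x ≠ 0 := by
      intro x
      constructor
      · rintro h rfl
        exact h hs0
      · intro h h'
        apply h
        rw [← hss x, h', hs0]
    simp only [e1, hss, s.apply_eq_iff_eq]
  · intro j hj
    simp only [hsmall j hj]
    by_cases hj0 : j = 0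
    · rw [hj0, h0, hs0]
    · exact hsmall _ ((hp j hj0).trans hj)
  · simp only [hsa, hsmall _ hpb]
    exact hlt

lemma exists_monotone_par (T : SimpleGraph (Fin K)) (hT : T.IsTree) :
    ∃ par : Fin K → Fin K, (∀ i, i ≠ 0 → par i < i) ∧ Nonempty (T ≃g parGraph par) ∧
      Monotone par := by
  classical
  have hne : (parSet T).Nonempty := by
    obtain ⟨par, h1, ⟨h2⟩⟩ := exists_par T hT
    have h1' : ∀ i, i ≠ 0 → (Function.update par 0 0) i < i := by
      intro i hi
      rw [Function.update_of_ne hi]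
      exact h1 i hi
    refine ⟨Function.update par 0 0, ?_, h1', ?_⟩
    · simp
    · refine ⟨h2.trans ⟨Equiv.refl _, ?_⟩⟩
      intro u v
      rw [parGraph_adj h1', parGraph_adj h1]
      simp only [Equiv.refl_apply]
      constructor
      · rintro (⟨h3, h4⟩ | ⟨h3, h4⟩)
        · rw [Function.update_of_ne h3] at h4
          exact Or.inl ⟨h3, h4⟩
        · rw [Function.update_of_ne h3] at h4
          exact Or.inr ⟨h3, h4⟩
      · rintro (⟨h3, h4⟩ | ⟨h3, h4⟩)
        · left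
          rw [Function.update_of_ne h3]
          exact ⟨h3, h4⟩
        · right
          rw [Function.update_of_ne h3]
          exact ⟨h3, h4⟩
  have hfin : (parSet T).Finite := Set.toFinite _
  obtain ⟨par, hpar, hmin⟩ := Set.exists_min_image (parSet T)
    (fun p => (toLex p : Lex (Fin K → Fin K))) hfin hne
  obtain ⟨h0, hp, ⟨φ⟩⟩ := hpar
  refine ⟨par, hp, ⟨φ⟩, ?_⟩
  -- monotonicity
  have hstep : ∀ a b : Fin K, a.val + 1 = b.val → par a ≤ par b := by
    intro a b hab
    by_cases ha : a = 0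
    · rw [ha, h0]
      exact Fin.zero_le _
    by_contra hcon
    push Not at hcon
    obtain ⟨par', h0', hp', ⟨φ'⟩, hj, ha'⟩ := swap_par h0 hp hab ha hcon
    have h1 := hmin par' ⟨h0', hp', ⟨φ.trans φ'⟩⟩
    apply absurd h1
    rw [not_le]
    exact ⟨a, fun j hja => hj j hja, ha'⟩
  intro a b hab
  have : ∀ m : ℕ, ∀ a b : Fin K, a.val + m = b.val → par a ≤ par b := by
    intro m
    induction m with
    | zero =>
      intro a b h
      have : a = b := Fin.ext (by omega)
      rw [this]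
    | succ m ih =>
      intro a b h
      have hlt : a.val + m < K := by have := b.isLt; omega
      exact (ih a ⟨a.val + m, hlt⟩ rfl).trans (hstep _ _ (by simp only; omega))
  exact this (b.val - a.val) a b (by rw [Fin.le_def] at hab; omega)

lemma treeCount_le_aux : treeCount K ≤ Fintype.card (Sym (Fin K) K) := by
  classical
  unfold treeCount numUnlabeledSpanningTrees
  have hex : ∀ q : Quotient (isoSetoid (Fin K)), ∃ par : Fin K → Fin K,
      q ∈ unlabeledSpanningTrees (⊤ : SimpleGraph (Fin K)) →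
      (Quotient.mk (isoSetoid (Fin K)) (parGraph par) = q ∧ Monotone par) := by
    intro q
    by_cases hq : q ∈ unlabeledSpanningTrees (⊤ : SimpleGraph (Fin K))
    · obtain ⟨T, ⟨_, hT⟩, hTq⟩ := hq
      obtain ⟨par, h1, ⟨h2⟩, h3⟩ := exists_monotone_par T hT
      refine ⟨par, fun _ => ⟨?_, h3⟩⟩
      rw [← hTq]
      exact Quotient.sound (s := isoSetoid (Fin K)) ⟨h2.symm⟩
    · exact ⟨fun _ => 0, fun h => absurd h hq⟩
  choose P hP using hex
  have key : ∀ q, (List.ofFn (P q)).length = K := by intro q; simp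
  let F : Quotient (isoSetoid (Fin K)) → Sym (Fin K) K := fun q =>
    ⟨(List.ofFn (P q) : Multiset (Fin K)), by simp⟩
  have hinj : Set.InjOn F (unlabeledSpanningTrees (⊤ : SimpleGraph (Fin K))) := by
    intro q hq q' hq' hF
    have h1 : (List.ofFn (P q) : Multiset (Fin K)) = (List.ofFn (P q') : Multiset (Fin K)) :=
      congrArg Subtype.val hF
    have h2 : (List.ofFn (P q)).Perm (List.ofFn (P q')) := Multiset.coe_eq_coe.mp h1
    have s1 : (List.ofFn (P q)).SortedLE := (hP q hq).2.sortedLE_ofFn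
    have s2 : (List.ofFn (P q')).SortedLE := (hP q' hq').2.sortedLE_ofFn
    have h3 := h2.eq_of_sortedLE s1 s2
    have h4 : P q = P q' := List.ofFn_injective h3
    rw [← (hP q hq).1, ← (hP q' hq').1, h4]
  have h5 := Set.ncard_le_ncard_of_injOn (s := unlabeledSpanningTrees (⊤ : SimpleGraph (Fin K)))
    (t := Set.univ) F (fun _ _ => Set.mem_univ _) hinj (Set.toFinite _)
  rw [Set.ncard_univ, Nat.card_eq_fintype_card] at h5
  exact h5

end bound

lemma treeCount_le (n : ℕ) : treeCount n ≤ 4 ^ n := by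
  rcases Nat.eq_zero_or_pos n with rfl | hn
  · unfold treeCount numUnlabeledSpanningTrees
    have : unlabeledSpanningTrees (⊤ : SimpleGraph (Fin 0)) = ∅ := by
      rw [Set.eq_empty_iff_forall_notMem]
      rintro q ⟨T, ⟨_, hT⟩, _⟩
      exact hT.connected.nonempty.elim (fun v => v.elim0)
    rw [this, Set.ncard_empty]
    exact Nat.zero_le _
  · have : NeZero n := ⟨hn.ne'⟩
    refine (treeCount_le_aux (K := n)).trans ?_
    rw [Sym.card_sym_eq_choose, Fintype.card_fin]
    calc (n + n - 1).choose n ≤ 2 ^ (n + n - 1) := Nat.choose_le_two_pow _ _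
      _ ≤ 2 ^ (2 * n) := Nat.pow_le_pow_right (by norm_num) (by omega)
      _ = 4 ^ n := by rw [pow_mul]; norm_num

lemma one_le_num {V : Type*} [Finite V] {G : SimpleGraph V} (hG : G.Connected) :
    1 ≤ numUnlabeledSpanningTrees G := by
  obtain ⟨T, hT, hT2⟩ := hG.exists_isTree_le
  unfold numUnlabeledSpanningTrees
  have hne : (unlabeledSpanningTrees G).Nonempty := ⟨_, ⟨T, ⟨hT, hT2⟩, rfl⟩⟩
  exact (Set.ncard_pos (Set.toFinite _)).mpr hne

lemma one_le_treeCount {n : ℕ} (hn : 1 ≤ n) : 1 ≤ treeCount n := by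
  have : NeZero n := ⟨by omega⟩
  exact one_le_num SimpleGraph.connected_top

/-- The growth constant. -/
theorem exists_growth : ∃ α : ℝ,
    Tendsto (fun n : ℕ => (treeCount n : ℝ) ^ (1 / (n : ℝ))) atTop (𝓝 α) ∧ 1 ≤ α ∧
    ∀ β₁ : ℝ, 0 < β₁ → β₁ < α → ∃ᶠ K in atTop, β₁ ^ K ≤ (treeCount K : ℝ) := by
  obtain ⟨a, ha⟩ : ∃ a : ℕ → ℝ, a = fun n : ℕ => (treeCount n : ℝ) ^ (1 / (n : ℝ)) := ⟨_, rfl⟩
  have hlow : ∀ n, 1 ≤ n → 1 ≤ a n := by
    intro n hn
    rw [ha]
    apply Real.one_le_rpow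
    · exact_mod_cast one_le_treeCount hn
    · positivity
  have hup : ∀ n, a n ≤ 4 := by
    intro n
    rcases Nat.eq_zero_or_pos n with rfl | hn
    · rw [ha]
      norm_num
    · rw [ha]
      have h1 : (treeCount n : ℝ) ≤ 4 ^ n := by exact_mod_cast treeCount_le n
      calc (treeCount n : ℝ) ^ (1 / (n : ℝ)) ≤ ((4 : ℝ) ^ n) ^ (1 / (n : ℝ)) :=
            Real.rpow_le_rpow (by positivity) h1 (by positivity)
        _ = 4 := by
            rw [← Real.rpow_natCast, ← Real.rpow_mul (by norm_num)]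
            rw [mul_one_div_cancel (by positivity), Real.rpow_one]
  have hbdd : IsBoundedUnder (· ≤ ·) atTop a := isBoundedUnder_of ⟨4, hup⟩
  have hev : ∀ᶠ n in atTop, 1 ≤ a n := by
    filter_upwards [eventually_ge_atTop 1] with n hn using hlow n hn
  have hcobdd : IsCoboundedUnder (· ≤ ·) atTop a :=
    IsBoundedUnder.isCoboundedUnder_le ⟨1, by simpa using hev⟩
  have hone : 1 ≤ limsup a atTop := by
    apply le_limsup_of_frequently_le hev.frequently hbdd
  have hfr : ∀ β₁ : ℝ, 0 < β₁ → β₁ < limsup a atTop →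
      ∃ᶠ K in atTop, β₁ ^ K ≤ (treeCount K : ℝ) := by
    intro β₁ h0 h1
    have h2 : ∃ᶠ n in atTop, β₁ < a n := frequently_lt_of_lt_limsup hcobdd h1
    refine (h2.and_eventually (eventually_ge_atTop 1)).mono ?_
    rintro n ⟨h3, h4⟩
    have h5 : β₁ ^ n ≤ (a n) ^ n := pow_le_pow_left₀ h0.le h3.le n
    refine h5.trans (le_of_eq ?_)
    rw [ha]
    simp only
    rw [← Real.rpow_natCast, ← Real.rpow_mul (by positivity),
      one_div_mul_cancel (by positivity), Real.rpow_one]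
  refine ⟨limsup a atTop, ?_, hone, hfr⟩
  rw [← ha, tendsto_order]
  constructor
  · intro β hβ
    by_cases hβ1 : β < 1
    · filter_upwards [hev] with n hn using lt_of_lt_of_le hβ1 hn
    push Not at hβ1
    obtain ⟨β₀, h1, h2⟩ := exists_between hβ
    obtain ⟨β₁, h3, h4⟩ := exists_between h2
    obtain ⟨d₀, hd₀⟩ := asymptotic β₀ β₁ (by linarith) h3 (hfr β₁ (by linarith) h4)
    filter_upwards [eventually_ge_atTop (d₀ + 1)] with n hn
    have hn1 : 1 ≤ n := by omega
    have : NeZero n := ⟨by omega⟩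
    have h5 := hd₀ (n - 1) (by omega) n (⊤ : SimpleGraph (Fin n)) SimpleGraph.connected_top
      (by
        intro v
        classical
        have : nb (⊤ : SimpleGraph (Fin n)) v = Finset.univ.erase v := by
          ext u
          rw [mem_nb]
          simp [eq_comm]
        rw [this, Finset.card_erase_of_mem (Finset.mem_univ _), Finset.card_univ,
          Fintype.card_fin])
    have h6 : β₀ ≤ a n := by
      rw [ha]
      have h7 : ((β₀ : ℝ) ^ n) ^ (1 / (n : ℝ)) ≤ (treeCount n : ℝ) ^ (1 / (n : ℝ)) := by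
        apply Real.rpow_le_rpow _ h5 (by positivity)
        have : 0 < β₀ := by linarith
        positivity
      refine le_trans (le_of_eq ?_) h7
      rw [← Real.rpow_natCast, ← Real.rpow_mul (by linarith)]
      rw [mul_one_div_cancel (by positivity), Real.rpow_one]
    linarith
  · intro β hβ
    exact eventually_lt_of_limsup_lt hβ hbdd

/-- If the number of unlabelled trees on `n` vertices is asymptotic to `C n^{-5/2} α'^n`, then its
`n`-th root tends to `α'`. -/
lemma tendsto_of_formula {α' C : ℝ} (hα' : 0 < α') (hC : 0 < C)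
    (h : Tendsto (fun n : ℕ => (treeCount n : ℝ) / (C * (n : ℝ) ^ (-5 / 2 : ℝ) * α' ^ n))
      atTop (𝓝 1)) :
    Tendsto (fun n : ℕ => (treeCount n : ℝ) ^ (1 / (n : ℝ))) atTop (𝓝 α') := by
  have hn0 : Tendsto (fun n : ℕ => 1 / (n : ℝ)) atTop (𝓝 0) :=
    tendsto_one_div_atTop_nhds_zero_nat
  have h1 : Tendsto (fun n : ℕ => ((treeCount n : ℝ) / (C * (n : ℝ) ^ (-5 / 2 : ℝ) * α' ^ n)) ^
      (1 / (n : ℝ))) atTop (𝓝 1) := by
    have := h.rpow hn0 (Or.inl one_ne_zero)
    simpa using this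
  have h2 : Tendsto (fun n : ℕ => C ^ (1 / (n : ℝ))) atTop (𝓝 1) := by
    have := (tendsto_const_nhds (x := C) (f := atTop (α := ℕ))).rpow hn0 (Or.inl hC.ne')
    simpa using this
  have h3 : Tendsto (fun n : ℕ => (n : ℝ) ^ ((-5 / 2) / (1 * (n : ℝ) + 0))) atTop (𝓝 1) :=
    (tendsto_rpow_div_mul_add (-5 / 2) 1 0 (by norm_num)).comp tendsto_natCast_atTop_atTop
  have h4 : Tendsto (fun n : ℕ => ((treeCount n : ℝ) / (C * (n : ℝ) ^ (-5 / 2 : ℝ) * α' ^ n)) ^
      (1 / (n : ℝ)) * C ^ (1 / (n : ℝ)) * (n : ℝ) ^ ((-5 / 2) / (1 * (n : ℝ) + 0)) * α') atTop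
      (𝓝 α') := by
    have := ((h1.mul h2).mul h3).mul_const α'
    simpa using this
  refine h4.congr' ?_
  filter_upwards [eventually_ge_atTop 1] with n hn
  have hn' : (0 : ℝ) < n := by exact_mod_cast hn
  have hp : (0 : ℝ) < (n : ℝ) ^ (-5 / 2 : ℝ) := Real.rpow_pos_of_pos hn' _
  have hD : 0 < C * (n : ℝ) ^ (-5 / 2 : ℝ) * α' ^ n := mul_pos (mul_pos hC hp) (pow_pos hα' n)
  have e1 : (n : ℝ) ^ ((-5 / 2) / (1 * (n : ℝ) + 0)) = ((n : ℝ) ^ (-5 / 2 : ℝ)) ^ (1 / (n : ℝ)) := by
    rw [← Real.rpow_mul hn'.le]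
    congr 1
    rw [one_mul, add_zero]
    ring
  have e2 : α' = (α' ^ n) ^ (1 / (n : ℝ)) := by
    rw [← Real.rpow_natCast, ← Real.rpow_mul hα'.le, mul_one_div_cancel hn'.ne', Real.rpow_one]
  calc ((treeCount n : ℝ) / (C * (n : ℝ) ^ (-5 / 2 : ℝ) * α' ^ n)) ^
      (1 / (n : ℝ)) * C ^ (1 / (n : ℝ)) * (n : ℝ) ^ ((-5 / 2) / (1 * (n : ℝ) + 0)) * α'
      = ((treeCount n : ℝ) / (C * (n : ℝ) ^ (-5 / 2 : ℝ) * α' ^ n)) ^
      (1 / (n : ℝ)) * C ^ (1 / (n : ℝ)) * ((n : ℝ) ^ (-5 / 2 : ℝ)) ^ (1 / (n : ℝ)) *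
        (α' ^ n) ^ (1 / (n : ℝ)) := by rw [e1, ← e2]
    _ = (treeCount n : ℝ) ^ (1 / (n : ℝ)) := by
      rw [← Real.mul_rpow (by positivity) hC.le, ← Real.mul_rpow (by positivity) hp.le,
        ← Real.mul_rpow (by positivity) (by positivity)]
      congr 1
      field_simp

/-- The main theorem. -/
theorem main : ∃ α : ℝ,
    Tendsto (fun n : ℕ => (numUnlabeledSpanningTrees (⊤ : SimpleGraph (Fin n)) : ℝ) ^
      (1 / (n : ℝ))) atTop (𝓝 α) ∧
    (∀ α' C : ℝ, 0 < α' → 0 < C →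
      Tendsto (fun n : ℕ => (numUnlabeledSpanningTrees (⊤ : SimpleGraph (Fin n)) : ℝ) /
        (C * (n : ℝ) ^ (-5 / 2 : ℝ) * α' ^ n)) atTop (𝓝 1) → α' = α) ∧
    1 ≤ α ∧
    ∀ ε : ℝ, 0 < ε → ε ≤ α → ∃ d₀ : ℕ, 0 < d₀ ∧
      ∀ d ≥ d₀, ∀ (n : ℕ) (G : SimpleGraph (Fin n)),
        G.Connected → (∀ v, (G.neighborSet v).ncard = d) →
        (α - ε) ^ n ≤ (numUnlabeledSpanningTrees G : ℝ) := by
  obtain ⟨α, h1, h2, h3⟩ := exists_growth
  refine ⟨α, h1, ?_, h2, ?_⟩
  · intro α' C hα' hC h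
    exact tendsto_nhds_unique (tendsto_of_formula hα' hC h) h1
  intro ε hε hεα
  by_cases hc : α - ε < 1
  · refine ⟨1, one_pos, ?_⟩
    intro d _ n G hG _
    calc (α - ε) ^ n ≤ 1 := pow_le_one₀ (by linarith) hc.le
      _ ≤ (numUnlabeledSpanningTrees G : ℝ) := by exact_mod_cast one_le_num hG
  · push Not at hc
    obtain ⟨d₀, hd₀⟩ := asymptotic (α - ε) (α - ε / 2) hc (by linarith)
      (h3 (α - ε / 2) (by linarith) (by linarith))
    refine ⟨d₀ + 1, Nat.succ_pos _, ?_⟩
    intro d hd n G hG hreg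
    apply hd₀ d (by omega) n G hG
    intro v
    rw [← hreg v, ← Set.ncard_coe_finset]
    congr 1
    ext u
    rw [Finset.mem_coe, mem_nb, SimpleGraph.mem_neighborSet]

end Pool.Agent.Helper33.Otter
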