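import Pool.Agent.Helper33.OtterDefs

/-!
Near perfect matchings between almost regular classes.
-/

namespace Pool.Agent.Helper33.Otter

open Finset

variable {V : Type*} [Fintype V] [DecidableEq V]

omit [Fintype V] in
lemma hall_deficiency (A : Finset V) (t : V → Finset V) (s : ℕ)
    (h : ∀ X ⊆ A, X.card ≤ (X.biUnion t).card + s) :
    ∃ (Dm : Finset V) (M : V → V), Dm ⊆ A ∧ (∀ v ∈ Dm, M v ∈ t v) ∧ Set.InjOn M Dm ∧
      (A \ Dm).card ≤ s := by
  classical
  let t' : {v // v ∈ A} → Finset (V ⊕ Fin s) := fun v => (t v.1).disjSum univ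
  have hall : ∀ X : Finset {v // v ∈ A}, X.card ≤ (X.biUnion t').card := by
    intro X
    rcases X.eq_empty_or_nonempty with rfl | ⟨x, hx⟩
    · simp
    · have h1 : ((X.image Subtype.val).biUnion t).disjSum (univ : Finset (Fin s)) ⊆
          X.biUnion t' := by
        intro z hz
        rw [mem_biUnion]
        rcases Finset.mem_disjSum.mp hz with ⟨a, ha, rfl⟩ | ⟨b, _, rfl⟩
        · rw [mem_biUnion] at ha
          obtain ⟨v, hv, hav⟩ := ha
          rw [mem_image] at hv
          obtain ⟨v', hv', rfl⟩ := hv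
          exact ⟨v', hv', Finset.inl_mem_disjSum.mpr hav⟩
        · exact ⟨x, hx, Finset.inr_mem_disjSum.mpr (mem_univ b)⟩
      have h2 := Finset.card_le_card h1
      rw [Finset.card_disjSum, Finset.card_univ, Fintype.card_fin] at h2
      have h3 := h (X.image Subtype.val) (by
        intro v hv
        rw [mem_image] at hv
        obtain ⟨v', _, rfl⟩ := hv
        exact v'.2)
      rw [Finset.card_image_of_injective _ Subtype.val_injective] at h3
      omega
  obtain ⟨f, hf, hft⟩ := (Finset.all_card_le_biUnion_card_iff_exists_injective t').mp hall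
  let M : V → V := fun v => if h : v ∈ A then (Sum.elim id (fun _ => v) (f ⟨v, h⟩)) else v
  let Dm : Finset V := A.filter (fun v => ∃ h : v ∈ A, (f ⟨v, h⟩).isLeft)
  have hinl : ∀ v ∈ Dm, ∃ h : v ∈ A, f ⟨v, h⟩ = Sum.inl (M v) := by
    intro v hv
    obtain ⟨hA, _, hl⟩ := Finset.mem_filter.mp hv
    refine ⟨hA, ?_⟩
    obtain ⟨y, hy⟩ := Sum.isLeft_iff.mp hl
    simp only [M, dif_pos hA, hy, Sum.elim_inl, id]
  refine ⟨Dm, M, Finset.filter_subset _ _, ?_, ?_, ?_⟩
  · intro v hv
    obtain ⟨hA, h1⟩ := hinl v hv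
    have h2 := hft ⟨v, hA⟩
    rw [h1] at h2
    exact Finset.inl_mem_disjSum.mp h2
  · intro v hv v' hv' he
    obtain ⟨hA, h1⟩ := hinl v hv
    obtain ⟨hA', h1'⟩ := hinl v' hv'
    rw [he, ← h1'] at h1
    exact congrArg Subtype.val (hf h1)
  · have hr : ∀ v ∈ A \ Dm, ∃ h : v ∈ A, ∃ b : Fin s, f ⟨v, h⟩ = Sum.inr b := by
      intro v hv
      obtain ⟨hA, hD⟩ := Finset.mem_sdiff.mp hv
      refine ⟨hA, ?_⟩
      have h1 : ¬ (f ⟨v, hA⟩).isLeft := fun h => hD (Finset.mem_filter.mpr ⟨hA, hA, h⟩)
      cases hfv : f ⟨v, hA⟩ with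
      | inl a => rw [hfv] at h1; simp at h1
      | inr b => exact ⟨b, rfl⟩
    calc (A \ Dm).card ≤ ((univ : Finset (Fin s)).image (Sum.inr : Fin s → V ⊕ Fin s)).card := by
          refine Finset.card_le_card_of_injOn
            (fun v => if h : v ∈ A then f ⟨v, h⟩ else Sum.inl v) ?_ ?_
          · intro v hv
            obtain ⟨hA, b, hb⟩ := hr v (by simpa using hv)
            rw [mem_coe]
            simp only [dif_pos hA, hb]
            exact Finset.mem_image_of_mem _ (mem_univ b)
          · intro v hv v' hv' he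
            obtain ⟨hA, _⟩ := hr v (by simpa using hv)
            obtain ⟨hA', _⟩ := hr v' (by simpa using hv')
            simp only [dif_pos hA, dif_pos hA'] at he
            exact congrArg Subtype.val (hf he)
      _ ≤ (univ : Finset (Fin s)).card := Finset.card_image_le
      _ = s := by simp

omit [Fintype V] in
theorem exists_matching (N : V → Finset V) (hsymm : ∀ a b, b ∈ N a → a ∈ N b)
    (A B Bad : Finset V) (d : ℕ) (lo hi : ℝ) (hd : ∀ v, (N v).card ≤ d) (hlohi : lo ≤ hi)
    (hhi : 0 < hi)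
    (h1 : ∀ a ∈ A, a ∉ Bad → lo ≤ ((N a ∩ B).card : ℝ))
    (h2 : ∀ b ∈ B, b ∉ Bad → ((N b ∩ A).card : ℝ) ≤ hi) :
    ∃ (Dm : Finset V) (M : V → V), Dm ⊆ A ∧ (∀ v ∈ Dm, M v ∈ N v ∧ M v ∈ B) ∧
      Set.InjOn M Dm ∧
      ((A \ Dm).card : ℝ) ≤ (1 - lo / hi) * A.card + (d / hi) * Bad.card + Bad.card := by
  classical
  set Ag := A \ Bad with hAg
  set Bg := B \ Bad with hBg
  set s : ℕ := ⌊(1 - lo / hi) * A.card + (d / hi) * Bad.card⌋₊ with hs
  have hratio : 0 ≤ 1 - lo / hi := by
    rw [sub_nonneg, div_le_one hhi]; exact hlohi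
  have hnn : 0 ≤ (1 - lo / hi) * (A.card : ℝ) + (d / hi) * Bad.card := by positivity
  have hall : ∀ X ⊆ Ag, X.card ≤ (X.biUnion (fun v => N v ∩ Bg)).card + s := by
    intro X hX
    set Y := X.biUnion (fun v => N v ∩ Bg) with hY
    -- double counting
    have e1 : ∑ a ∈ X, (N a ∩ B).card ≤ ∑ a ∈ X, (N a ∩ Bg).card + ∑ a ∈ X, (N a ∩ Bad).card := by
      rw [← Finset.sum_add_distrib]
      refine Finset.sum_le_sum ?_
      intro a _
      calc (N a ∩ B).card ≤ ((N a ∩ Bg) ∪ (N a ∩ Bad)).card := by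
            refine Finset.card_le_card ?_
            intro z hz
            simp only [mem_inter, mem_union, hBg, mem_sdiff] at hz ⊢
            tauto
        _ ≤ _ := Finset.card_union_le _ _
    have e2 : ∑ a ∈ X, (N a ∩ Bg).card ≤ ∑ b ∈ Y, (N b ∩ A).card := by
      have h3 := Finset.sum_card_bipartiteAbove_eq_sum_card_bipartiteBelow
        (s := X) (t := Y) (fun a b => b ∈ N a)
      have h4 : ∀ a ∈ X, (N a ∩ Bg).card ≤ (Finset.bipartiteAbove (fun a b => b ∈ N a) Y a).card := by
        intro a ha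
        refine Finset.card_le_card ?_
        intro z hz
        rw [Finset.mem_bipartiteAbove]
        refine ⟨?_, (Finset.mem_inter.mp hz).1⟩
        rw [hY, mem_biUnion]
        exact ⟨a, ha, hz⟩
      have h5 : ∀ b ∈ Y, (Finset.bipartiteBelow (fun a b => b ∈ N a) X b).card ≤ (N b ∩ A).card := by
        intro b _
        refine Finset.card_le_card ?_
        intro z hz
        rw [Finset.mem_bipartiteBelow] at hz
        rw [mem_inter]
        exact ⟨hsymm _ _ hz.2, (Finset.mem_sdiff.mp (hX hz.1)).1⟩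
      calc _ ≤ _ := Finset.sum_le_sum h4
        _ = _ := h3
        _ ≤ _ := Finset.sum_le_sum h5
    have e3 : ∑ a ∈ X, (N a ∩ Bad).card ≤ ∑ b ∈ Bad, d := by
      have h3 := Finset.sum_card_bipartiteAbove_eq_sum_card_bipartiteBelow
        (s := X) (t := Bad) (fun a b => b ∈ N a)
      have h4 : ∀ a ∈ X, (N a ∩ Bad).card ≤
          (Finset.bipartiteAbove (fun a b => b ∈ N a) Bad a).card := by
        intro a _
        refine Finset.card_le_card ?_
        intro z hz
        rw [Finset.mem_bipartiteAbove]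
        exact ⟨(Finset.mem_inter.mp hz).2, (Finset.mem_inter.mp hz).1⟩
      have h5 : ∀ b ∈ Bad, (Finset.bipartiteBelow (fun a b => b ∈ N a) X b).card ≤ d := by
        intro b _
        refine le_trans (Finset.card_le_card ?_) (hd b)
        intro z hz
        rw [Finset.mem_bipartiteBelow] at hz
        exact hsymm _ _ hz.2
      calc _ ≤ _ := Finset.sum_le_sum h4
        _ = _ := h3
        _ ≤ _ := Finset.sum_le_sum h5
    have f1 : lo * X.card ≤ ((∑ a ∈ X, (N a ∩ B).card : ℕ) : ℝ) := by
      push_cast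
      calc lo * X.card = ∑ a ∈ X, lo := by rw [Finset.sum_const, nsmul_eq_mul]; ring
        _ ≤ _ := by
          refine Finset.sum_le_sum ?_
          intro a ha
          have := Finset.mem_sdiff.mp (hX ha)
          exact h1 a this.1 this.2
    have f2 : ((∑ b ∈ Y, (N b ∩ A).card : ℕ) : ℝ) ≤ hi * Y.card := by
      push_cast
      calc _ ≤ ∑ b ∈ Y, hi := by
            refine Finset.sum_le_sum ?_
            intro b hb
            rw [hY, mem_biUnion] at hb
            obtain ⟨a, _, hb⟩ := hb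
            have h6 := Finset.mem_sdiff.mp (Finset.mem_inter.mp hb).2
            exact h2 b h6.1 h6.2
        _ = _ := by rw [Finset.sum_const, nsmul_eq_mul]; ring
    have f3 : ((∑ b ∈ Bad, d : ℕ) : ℝ) = d * Bad.card := by
      rw [Finset.sum_const, smul_eq_mul]; push_cast; ring
    have f4 : lo * X.card ≤ hi * Y.card + d * Bad.card := by
      have e1' : ((∑ a ∈ X, (N a ∩ B).card : ℕ) : ℝ) ≤
          ((∑ b ∈ Y, (N b ∩ A).card : ℕ) : ℝ) + ((∑ b ∈ Bad, d : ℕ) : ℝ) := by
        exact_mod_cast le_trans e1 (Nat.add_le_add e2 e3)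
      rw [f3] at e1'
      linarith
    have f5 : (X.card : ℝ) - Y.card ≤ (1 - lo / hi) * A.card + (d / hi) * Bad.card := by
      have hXA : (X.card : ℝ) ≤ A.card := by
        exact_mod_cast Finset.card_le_card (hX.trans Finset.sdiff_subset)
      have h7 : (lo / hi) * X.card ≤ Y.card + (d / hi) * Bad.card := by
        have : (lo * X.card) / hi ≤ (hi * Y.card + d * Bad.card) / hi :=
          div_le_div_of_nonneg_right f4 hhi.le
        calc (lo / hi) * X.card = (lo * X.card) / hi := by ring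
          _ ≤ _ := this
          _ = _ := by field_simp
      have h8 : (1 - lo / hi) * X.card ≤ (1 - lo / hi) * A.card :=
        mul_le_mul_of_nonneg_left hXA hratio
      nlinarith
    have f6 : X.card - Y.card ≤ s := by
      rw [hs]
      apply Nat.le_floor
      rcases le_total X.card Y.card with hh | hh
      · rw [Nat.sub_eq_zero_of_le hh]; simpa using hnn
      · rw [Nat.cast_sub hh]; exact f5
    omega
  obtain ⟨Dm, M, hDm, hM, hinj, hcard⟩ := hall_deficiency Ag _ s hall
  refine ⟨Dm, M, hDm.trans Finset.sdiff_subset, ?_, hinj, ?_⟩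
  · intro v hv
    have h3 := Finset.mem_inter.mp (hM v hv)
    exact ⟨h3.1, (Finset.mem_sdiff.mp h3.2).1⟩
  · have h3 : (A \ Dm).card ≤ (Ag \ Dm).card + Bad.card := by
      calc (A \ Dm).card ≤ ((Ag \ Dm) ∪ Bad).card := by
            refine Finset.card_le_card ?_
            intro z hz
            simp only [hAg, mem_sdiff, mem_union] at hz ⊢
            tauto
        _ ≤ _ := Finset.card_union_le _ _
    have h4 : ((Ag \ Dm).card : ℝ) ≤ (1 - lo / hi) * A.card + (d / hi) * Bad.card := by
      calc ((Ag \ Dm).card : ℝ) ≤ (s : ℝ) := by exact_mod_cast hcard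
        _ ≤ _ := Nat.floor_le hnn
    have h5 : ((A \ Dm).card : ℝ) ≤ (Ag \ Dm).card + Bad.card := by exact_mod_cast h3
    linarith

end Pool.Agent.Helper33.Otter
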