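import Pool.Agent.Helper33.OtterProb

/-!
Selection of a good labelling.
-/

namespace Pool.Agent.Helper33.Otter

open Finset

variable {V L : Type*} [Fintype V] [DecidableEq V] [Fintype L] [DecidableEq L]

/-- vertices with irregular degree into some class -/
noncomputable def badSet (N : V → Finset V) (𝒞 : Finset (Finset L)) (t : ℝ) (ω : V → L) :
    Finset V := by
  classical
  exact univ.filter (fun v => ∃ c ∈ 𝒞, t ≤ |(((N v).filter (fun u => ω u ∈ c)).card : ℝ) -
      (N v).card * (c.card / Fintype.card L)|)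

lemma badSet_sum [Nonempty L] (N : V → Finset V) (𝒞 : Finset (Finset L)) (t : ℝ) (ht : 0 < t)
    (d : ℕ) (hd : ∀ v, (N v).card ≤ d) :
    (∑ ω : V → L, ((badSet N 𝒞 t ω).card : ℝ)) * t ^ 2 ≤
      Fintype.card V * 𝒞.card * d * (Fintype.card L : ℝ) ^ (Fintype.card V) := by
  classical
  have h1 : ∀ ω : V → L, ((badSet N 𝒞 t ω).card : ℝ) ≤
      ∑ v : V, ∑ c ∈ 𝒞, (if t ≤ |(((N v).filter (fun u => ω u ∈ c)).card : ℝ) -
      (N v).card * (c.card / Fintype.card L)| then (1 : ℝ) else 0) := by
    intro ω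
    unfold badSet
    rw [Finset.card_filter]
    push_cast
    refine Finset.sum_le_sum ?_
    intro v _
    split_ifs with h
    · obtain ⟨c, hc, hct⟩ := h
      calc (1 : ℝ) = if t ≤ |(((N v).filter (fun u => ω u ∈ c)).card : ℝ) -
              (N v).card * (c.card / Fintype.card L)| then (1 : ℝ) else 0 := by rw [if_pos hct]
        _ ≤ _ := Finset.single_le_sum (f := fun c => if t ≤ |(((N v).filter
              (fun u => ω u ∈ c)).card : ℝ) -
              (N v).card * (c.card / Fintype.card L)| then (1 : ℝ) else 0)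
              (fun c _ => by split_ifs <;> norm_num) hc
    · exact Finset.sum_nonneg (fun c _ => by split_ifs <;> norm_num)
  have h2 : (∑ ω : V → L, ((badSet N 𝒞 t ω).card : ℝ)) ≤
      ∑ v : V, ∑ c ∈ 𝒞, ((univ.filter (fun ω : V → L => t ≤ |(((N v).filter
        (fun u => ω u ∈ c)).card : ℝ) - (N v).card * (c.card / Fintype.card L)|)).card : ℝ) := by
    refine le_trans (Finset.sum_le_sum (fun ω _ => h1 ω)) (le_of_eq ?_)
    rw [Finset.sum_comm]
    refine Finset.sum_congr rfl ?_
    intro v _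
    rw [Finset.sum_comm]
    refine Finset.sum_congr rfl ?_
    intro c _
    rw [Finset.card_filter]
    push_cast
    rfl
  calc (∑ ω : V → L, ((badSet N 𝒞 t ω).card : ℝ)) * t ^ 2
      ≤ (∑ v : V, ∑ c ∈ 𝒞, ((univ.filter (fun ω : V → L => t ≤ |(((N v).filter
        (fun u => ω u ∈ c)).card : ℝ) - (N v).card * (c.card / Fintype.card L)|)).card : ℝ))
          * t ^ 2 := mul_le_mul_of_nonneg_right h2 (sq_nonneg t)
    _ = ∑ v : V, ∑ c ∈ 𝒞, ((univ.filter (fun ω : V → L => t ≤ |(((N v).filter
        (fun u => ω u ∈ c)).card : ℝ) - (N v).card * (c.card / Fintype.card L)|)).card : ℝ)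
          * t ^ 2 := by
        rw [Finset.sum_mul]
        exact Finset.sum_congr rfl (fun v _ => by rw [Finset.sum_mul])
    _ ≤ ∑ v : V, ∑ c ∈ 𝒞, (d : ℝ) * (Fintype.card L : ℝ) ^ (Fintype.card V) := by
        refine Finset.sum_le_sum (fun v _ => Finset.sum_le_sum (fun c _ => ?_))
        refine le_trans (cheb (N v) c t ht) ?_
        refine mul_le_mul_of_nonneg_right ?_ (by positivity)
        exact_mod_cast hd v
    _ = _ := by
        rw [Finset.sum_const, Finset.sum_const, Finset.card_univ, nsmul_eq_mul, nsmul_eq_mul]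
        ring

/-- At least half of all labellings are good. -/
theorem many_good [Nonempty L] (N : V → Finset V) (𝒞 : Finset (Finset L)) (t β : ℝ)
    (ht : 0 < t) (hβ : 0 < β) (d : ℕ) (hd : ∀ v, (N v).card ≤ d) (c₁ c₂ : Finset L) (s : ℝ)
    (hs : 0 < s)
    (hβ' : 4 * (Fintype.card V * 𝒞.card * d) ≤ β * t ^ 2)
    (hs' : 8 * Fintype.card V ≤ s ^ 2) :
    (Fintype.card L : ℝ) ^ (Fintype.card V) ≤ 2 * ((univ.filter (fun ω : V → L =>
      ((badSet N 𝒞 t ω).card : ℝ) < β ∧
      |((univ.filter (fun u => ω u ∈ c₁)).card : ℝ) -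
        Fintype.card V * (c₁.card / Fintype.card L)| < s ∧
      |((univ.filter (fun u => ω u ∈ c₂)).card : ℝ) -
        Fintype.card V * (c₂.card / Fintype.card L)| < s)).card : ℝ) := by
  classical
  set W : ℝ := (Fintype.card L : ℝ) ^ (Fintype.card V) with hW
  have hW0 : 0 < W := by
    rw [hW]
    have : (0 : ℝ) < Fintype.card L := by exact_mod_cast Fintype.card_pos
    positivity
  set S₀ := univ.filter (fun ω : V → L => β ≤ ((badSet N 𝒞 t ω).card : ℝ)) with hS₀
  set S₁ := univ.filter (fun ω : V → L => s ≤ |((univ.filter (fun u => ω u ∈ c₁)).card : ℝ) -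
        (univ : Finset V).card * (c₁.card / Fintype.card L)|) with hS₁
  set S₂ := univ.filter (fun ω : V → L => s ≤ |((univ.filter (fun u => ω u ∈ c₂)).card : ℝ) -
        (univ : Finset V).card * (c₂.card / Fintype.card L)|) with hS₂
  have h0 : 4 * (S₀.card : ℝ) ≤ W := by
    have h1 : (S₀.card : ℝ) * β ≤ ∑ ω : V → L, ((badSet N 𝒞 t ω).card : ℝ) := by
      calc (S₀.card : ℝ) * β = ∑ ω ∈ S₀, β := by rw [Finset.sum_const, nsmul_eq_mul]
        _ ≤ ∑ ω ∈ S₀, ((badSet N 𝒞 t ω).card : ℝ) :=
            Finset.sum_le_sum (fun ω hω => (Finset.mem_filter.mp hω).2)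
        _ ≤ _ := Finset.sum_le_sum_of_subset_of_nonneg (Finset.filter_subset _ _)
            (fun _ _ _ => Nat.cast_nonneg _)
    have h2 := badSet_sum N 𝒞 t ht d hd
    have h3 : (S₀.card : ℝ) * β * t ^ 2 ≤ Fintype.card V * 𝒞.card * d * W :=
      le_trans (mul_le_mul_of_nonneg_right h1 (sq_nonneg t)) h2
    have h4 : (4 * (S₀.card : ℝ)) * (β * t ^ 2) ≤ W * (β * t ^ 2) := by
      calc (4 * (S₀.card : ℝ)) * (β * t ^ 2) = 4 * ((S₀.card : ℝ) * β * t ^ 2) := by ring
        _ ≤ 4 * (Fintype.card V * 𝒞.card * d * W) := by linarith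
        _ = (4 * (Fintype.card V * 𝒞.card * d)) * W := by ring
        _ ≤ (β * t ^ 2) * W := mul_le_mul_of_nonneg_right hβ' hW0.le
        _ = _ := by ring
    exact le_of_mul_le_mul_right h4 (by positivity)
  have hcheb : ∀ c : Finset L, 8 * ((univ.filter (fun ω : V → L =>
      s ≤ |((univ.filter (fun u => ω u ∈ c)).card : ℝ) -
        (univ : Finset V).card * (c.card / Fintype.card L)|)).card : ℝ) ≤ W := by
    intro c
    have h1 := cheb (univ : Finset V) c s hs
    rw [← hW] at h1
    have hs2 : 0 < s ^ 2 := by positivity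
    rw [Finset.card_univ] at h1
    have h4 : (8 * ((univ.filter (fun ω : V → L =>
      s ≤ |((univ.filter (fun u => ω u ∈ c)).card : ℝ) -
        (univ : Finset V).card * (c.card / Fintype.card L)|)).card : ℝ)) * s ^ 2 ≤ W * s ^ 2 := by
      rw [Finset.card_univ]
      calc _ ≤ 8 * (Fintype.card V * W) := by linarith
        _ = (8 * Fintype.card V) * W := by ring
        _ ≤ s ^ 2 * W := mul_le_mul_of_nonneg_right hs' hW0.le
        _ = _ := by ring
    exact le_of_mul_le_mul_right h4 hs2
  have h1 := hcheb c₁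
  have h2 := hcheb c₂
  rw [← hS₁] at h1
  rw [← hS₂] at h2
  set Gd := (univ.filter (fun ω : V → L =>
      ((badSet N 𝒞 t ω).card : ℝ) < β ∧
      |((univ.filter (fun u => ω u ∈ c₁)).card : ℝ) -
        Fintype.card V * (c₁.card / Fintype.card L)| < s ∧
      |((univ.filter (fun u => ω u ∈ c₂)).card : ℝ) -
        Fintype.card V * (c₂.card / Fintype.card L)| < s)) with hGd
  have hcov : (univ : Finset (V → L)) ⊆ Gd ∪ (S₀ ∪ (S₁ ∪ S₂)) := by
    intro ω _
    simp only [hGd, hS₀, hS₁, hS₂, mem_union, mem_filter, mem_univ, true_and, Finset.card_univ]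
    by_cases a1 : ((badSet N 𝒞 t ω).card : ℝ) < β
    · by_cases a2 : |((univ.filter (fun u => ω u ∈ c₁)).card : ℝ) -
        Fintype.card V * (c₁.card / Fintype.card L)| < s
      · by_cases a3 : |((univ.filter (fun u => ω u ∈ c₂)).card : ℝ) -
          Fintype.card V * (c₂.card / Fintype.card L)| < s
        · exact Or.inl ⟨a1, a2, a3⟩
        · exact Or.inr (Or.inr (Or.inr (not_lt.mp a3)))
      · exact Or.inr (Or.inr (Or.inl (not_lt.mp a2)))
    · exact Or.inr (Or.inl (not_lt.mp a1))
  have hle : (Fintype.card (V → L) : ℝ) ≤ Gd.card + (S₀.card + (S₁.card + S₂.card)) := by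
    have h5 := Finset.card_le_card hcov
    have h6 := Finset.card_union_le Gd (S₀ ∪ (S₁ ∪ S₂))
    have h7 := Finset.card_union_le S₀ (S₁ ∪ S₂)
    have h8 := Finset.card_union_le S₁ S₂
    rw [Finset.card_univ] at h5
    exact_mod_cast (by omega : Fintype.card (V → L) ≤ Gd.card + (S₀.card + (S₁.card + S₂.card)))
  rw [Fintype.card_fun] at hle
  push_cast at hle
  rw [← hW] at hle
  linarith

/-- averaging over the first coordinate -/
theorem exists_slice {A B : Type*} [Fintype A] [Fintype B] [DecidableEq A] [DecidableEq B]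
    [Nonempty A] (P : (V → A × B) → Prop) [DecidablePred P]
    (h : (Fintype.card (A × B) : ℝ) ^ (Fintype.card V) ≤ 2 * ((univ.filter P).card : ℝ)) :
    ∃ o : V → A, (Fintype.card B : ℝ) ^ (Fintype.card V) ≤
      2 * ((univ.filter (fun w : V → B => P (fun v => (o v, w v)))).card : ℝ) := by
  classical
  by_contra hcon
  push Not at hcon
  have h1 : ((univ.filter P).card : ℝ) =
      ∑ o : V → A, ((univ.filter (fun w : V → B => P (fun v => (o v, w v)))).card : ℝ) := by
    have h2 : (univ.filter P).card = ∑ o : V → A,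
        (univ.filter (fun w : V → B => P (fun v => (o v, w v)))).card := by
      rw [← Fintype.card_subtype]
      simp_rw [← Fintype.card_subtype]
      rw [← Fintype.card_sigma]
      refine Fintype.card_congr ?_
      refine
        { toFun := fun ω => ⟨fun v => (ω.1 v).1, ⟨fun v => (ω.1 v).2, ω.2⟩⟩
          invFun := fun p => ⟨fun v => (p.1 v, p.2.1 v), p.2.2⟩
          left_inv := fun ω => rfl
          right_inv := fun p => rfl }
    rw [h2]; push_cast; rfl
  have h3 : ∑ o : V → A, 2 * ((univ.filter (fun w : V → B => P (fun v => (o v, w v)))).card : ℝ)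
      < ∑ o : V → A, (Fintype.card B : ℝ) ^ (Fintype.card V) :=
    Finset.sum_lt_sum_of_nonempty Finset.univ_nonempty (fun o _ => hcon o)
  rw [← Finset.mul_sum, ← h1, Finset.sum_const, Finset.card_univ, Fintype.card_fun,
    nsmul_eq_mul] at h3
  rw [Fintype.card_prod] at h
  push_cast at h h3
  rw [mul_pow] at h
  linarith

end Pool.Agent.Helper33.Otter
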