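import Pool.Agent.Helper33.OtterPieces
import Pool.Agent.Helper33.OtterMatch
import Pool.Agent.Helper33.OtterSelect

/-!
Assembly.
-/

namespace Pool.Agent.Helper33.Otter

open Finset

set_option linter.unusedSectionVars false

variable {V : Type*} [Fintype V] [DecidableEq V]

lemma nb_symm (G : SimpleGraph V) (a b : V) (h : b ∈ nb G a) : a ∈ nb G b := by
  rw [mem_nb] at h ⊢; exact h.symm

section

variable {L : Type*} [Fintype L] [DecidableEq L]

lemma class_matching (G : SimpleGraph V) (d : ℕ) (hreg : ∀ v, (nb G v).card = d)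
    (𝒞 : Finset (Finset L)) (t : ℝ) (ht : 0 < t) (ω : V → L) (c c' : Finset L)
    (hc : c ∈ 𝒞) (hc' : c' ∈ 𝒞) (p : ℝ) (hp : 0 < p) (hcp : (c.card : ℝ) / Fintype.card L = p)
    (hcp' : (c'.card : ℝ) / Fintype.card L = p) (htd : t < d * p) :
    ∃ (Dm : Finset V) (M : V → V), Dm ⊆ univ.filter (fun u => ω u ∈ c) ∧
      (∀ v ∈ Dm, G.Adj v (M v) ∧ ω (M v) ∈ c') ∧ Set.InjOn M Dm ∧
      (((univ.filter (fun u => ω u ∈ c)) \ Dm).card : ℝ) ≤
        (2 * t / (d * p)) * (univ.filter (fun u => ω u ∈ c)).card +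
        (1 / p + 1) * (badSet (nb G) 𝒞 t ω).card := by
  classical
  set Bad := badSet (nb G) 𝒞 t ω with hBad
  have hdp : 0 < d * p := lt_trans ht htd
  have key : ∀ v, v ∉ Bad → ∀ c ∈ 𝒞, (c.card : ℝ) / Fintype.card L = p →
      |((nb G v ∩ univ.filter (fun u => ω u ∈ c)).card : ℝ) - d * p| < t := by
    intro v hv c hc hcp
    rw [hBad] at hv
    unfold badSet at hv
    rw [mem_filter] at hv
    push Not at hv
    have h1 := hv (mem_univ v) c hc
    rw [hreg v, hcp] at h1
    have h2 : nb G v ∩ univ.filter (fun u => ω u ∈ c) = (nb G v).filter (fun u => ω u ∈ c) := by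
      ext u; simp
    rw [h2]
    exact h1
  obtain ⟨Dm, M, h1, h2, h3, h4⟩ := exists_matching (nb G) (nb_symm G)
    (univ.filter (fun u => ω u ∈ c)) (univ.filter (fun u => ω u ∈ c')) Bad d
    (d * p - t) (d * p + t) (fun v => (hreg v).le) (by linarith) (by linarith)
    (fun a _ ha => by
      have := abs_lt.mp (key a ha c' hc' hcp')
      linarith [this.1])
    (fun b _ hb => by
      have := abs_lt.mp (key b hb c hc hcp)
      linarith [this.2])
  refine ⟨Dm, M, h1, ?_, h3, ?_⟩
  · intro v hv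
    obtain ⟨h5, h6⟩ := h2 v hv
    exact ⟨mem_nb.mp h5, (mem_filter.mp h6).2⟩
  · have e1 : 1 - (d * p - t) / (d * p + t) ≤ 2 * t / (d * p) := by
      have hpos : 0 < d * p + t := by linarith
      have : 1 - (d * p - t) / (d * p + t) = 2 * t / (d * p + t) := by
        field_simp
        ring
      rw [this]
      exact div_le_div_of_nonneg_left (by linarith) hdp (by linarith)
    have e2 : (d : ℝ) / (d * p + t) ≤ 1 / p := by
      rw [div_le_div_iff₀ (by linarith) hp]
      nlinarith
    have e3 : (0 : ℝ) ≤ (univ.filter (fun u => ω u ∈ c)).card := Nat.cast_nonneg _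
    have e4 : (0 : ℝ) ≤ Bad.card := Nat.cast_nonneg _
    calc _ ≤ _ := h4
      _ ≤ (2 * t / (d * p)) * (univ.filter (fun u => ω u ∈ c)).card + (1 / p) * Bad.card
          + Bad.card := by
          have := mul_le_mul_of_nonneg_right e1 e3
          have := mul_le_mul_of_nonneg_right e2 e4
          linarith
      _ = _ := by ring

end

section labels

variable {K m J : ℕ} [NeZero K]

/-- outer labels: role, position, type of non-roots -/
abbrev Lo (K m J : ℕ) := Fin K × Fin m × Fin J

/-- labels: outer label and type of roots -/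
abbrev Lab (K m J : ℕ) := Lo K m J × Fin J

/-- role `i` and type `j` -/
def cls (m : ℕ) (i : Fin K) (j : Fin J) : Finset (Lab K m J) :=
  if i = 0 then ({i} ×ˢ univ ×ˢ univ) ×ˢ {j} else ({i} ×ˢ univ ×ˢ {j}) ×ˢ univ

/-- roots with position `t` -/
def pcl (J : ℕ) (t : Fin m) : Finset (Lab K m J) := ({0} ×ˢ {t} ×ˢ univ) ×ˢ univ

/-- roots -/
def rcl (K m J : ℕ) [NeZero K] : Finset (Lab K m J) := ({0} ×ˢ univ ×ˢ univ) ×ˢ univ

lemma mem_cls {i : Fin K} {j : Fin J} {l : Lab K m J} :
    l ∈ cls m i j ↔ l.1.1 = i ∧ (if l.1.1 = 0 then l.2 else l.1.2.2) = j := by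
  obtain ⟨⟨a, b, c⟩, e⟩ := l
  unfold cls
  by_cases hi : i = 0
  · rw [if_pos hi]
    simp only [mem_product, mem_singleton, mem_univ, and_true]
    constructor
    · rintro ⟨h1, h2⟩
      refine ⟨h1, ?_⟩
      rw [if_pos (h1.trans hi)]; exact h2
    · rintro ⟨h1, h2⟩
      rw [if_pos (h1.trans hi)] at h2
      exact ⟨h1, h2⟩
  · rw [if_neg hi]
    simp only [mem_product, mem_singleton, mem_univ, true_and, and_true]
    constructor
    · rintro ⟨h1, h2⟩
      refine ⟨h1, ?_⟩
      rw [if_neg (h1 ▸ hi)]; exact h2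
    · rintro ⟨h1, h2⟩
      rw [if_neg (h1 ▸ hi)] at h2
      exact ⟨h1, h2⟩

lemma mem_pcl {t : Fin m} {l : Lab K m J} : l ∈ pcl J t ↔ l.1.1 = 0 ∧ l.1.2.1 = t := by
  obtain ⟨⟨a, b, c⟩, e⟩ := l
  simp only [pcl, mem_product, mem_singleton, mem_univ, and_true]

lemma mem_rcl {l : Lab K m J} : l ∈ rcl K m J ↔ l.1.1 = 0 := by
  obtain ⟨⟨a, b, c⟩, e⟩ := l
  simp only [rcl, mem_product, mem_singleton, mem_univ, and_true]

lemma cls_ratio (hm : 0 < m) (hJ : 0 < J) (i : Fin K) (j : Fin J) :
    ((cls m i j : Finset (Lab K m J)).card : ℝ) / Fintype.card (Lab K m J) = 1 / (K * J) := by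
  have h1 : (cls m i j : Finset (Lab K m J)).card = m * J := by
    unfold cls
    split_ifs <;> simp [Finset.card_product]
  have hK : 0 < K := Nat.pos_of_neZero K
  rw [h1]
  simp only [Fintype.card_prod, Fintype.card_fin]
  push_cast
  have h2 : (m : ℝ) ≠ 0 := by positivity
  have h3 : (J : ℝ) ≠ 0 := by positivity
  have h4 : (K : ℝ) ≠ 0 := by positivity
  field_simp

lemma pcl_ratio (hm : 0 < m) (hJ : 0 < J) (t : Fin m) :
    ((pcl J t : Finset (Lab K m J)).card : ℝ) / Fintype.card (Lab K m J) = 1 / (K * m) := by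
  have h1 : (pcl J t : Finset (Lab K m J)).card = J * J := by
    unfold pcl
    simp [Finset.card_product]
  have hK : 0 < K := Nat.pos_of_neZero K
  rw [h1]
  simp only [Fintype.card_prod, Fintype.card_fin]
  push_cast
  have h2 : (m : ℝ) ≠ 0 := by positivity
  have h3 : (J : ℝ) ≠ 0 := by positivity
  have h4 : (K : ℝ) ≠ 0 := by positivity
  field_simp

lemma rcl_ratio (hm : 0 < m) (hJ : 0 < J) :
    ((rcl K m J).card : ℝ) / Fintype.card (Lab K m J) = 1 / K := by
  have h1 : (rcl K m J).card = m * J * J := by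
    unfold rcl
    simp [Finset.card_product]
  have hK : 0 < K := Nat.pos_of_neZero K
  rw [h1]
  simp only [Fintype.card_prod, Fintype.card_fin]
  push_cast
  have h2 : (m : ℝ) ≠ 0 := by positivity
  have h3 : (J : ℝ) ≠ 0 := by positivity
  have h4 : (K : ℝ) ≠ 0 := by positivity
  field_simp

/-- the family of all classes used -/
def fam (K m J : ℕ) [NeZero K] : Finset (Finset (Lab K m J)) :=
  (univ : Finset (Fin K × Fin J)).image (fun p => cls m p.1 p.2) ∪
    (univ : Finset (Fin m)).image (fun t => pcl J t)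

lemma fam_card : (fam K m J).card ≤ K * J + m := by
  unfold fam
  refine (Finset.card_union_le _ _).trans (Nat.add_le_add ?_ ?_)
  · refine Finset.card_image_le.trans (le_of_eq ?_)
    simp
  · refine Finset.card_image_le.trans (le_of_eq ?_)
    simp

lemma cls_mem_fam (i : Fin K) (j : Fin J) : cls m i j ∈ fam K m J :=
  Finset.mem_union_left _ (Finset.mem_image_of_mem (fun p : Fin K × Fin J => cls m p.1 p.2)
    (mem_univ (i, j)))

lemma pcl_mem_fam (t : Fin m) : pcl J t ∈ fam K m J :=
  Finset.mem_union_right _ (Finset.mem_image_of_mem _ (mem_univ t))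

/-- roots -/
def rootsOf (o : V → Lo K m J) : Finset V := univ.filter (fun v => (o v).1 = 0)

/-- pieces for a good labelling -/
theorem good_pieces (G : SimpleGraph V) (d : ℕ) (hreg : ∀ v, (nb G v).card = d)
    (hm : 0 < m) (hJ : 0 < J) (par : Fin J → Fin K → Fin K) (hpar : ∀ j i, i ≠ 0 → par j i < i)
    (o : V → Lo K m J) (w : V → Fin J) (succ : V → Option V) (t β : ℝ) (ht : 0 < t)
    (htd : t < d * (1 / (K * J)))
    (hβ : ((badSet (nb G) (fam K m J) t (fun v => (o v, w v))).card : ℝ) < β) :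
    ∃ P : Pieces G (rootsOf o) succ par w,
      ((rootsOf o).card : ℝ) ≤ P.good.card +
        J * K * ((2 * t * (K * J) / d) * Fintype.card V + (K * J + 1) * β) := by
  classical
  set ω : V → Lab K m J := fun v => (o v, w v) with hω
  have hK : 0 < K := Nat.pos_of_neZero K
  have hKJ : (0 : ℝ) < K * J := by positivity
  have hd : (0 : ℝ) < d := by
    by_contra hcon
    have : (d : ℝ) * (1 / (K * J)) ≤ 0 := mul_nonpos_of_nonpos_of_nonneg (not_lt.mp hcon)
      (by positivity)
    linarith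
  set typ : V → Fin J := fun v => if (o v).1 = 0 then w v else (o v).2.2 with htyp
  have hmem : ∀ v i j, ω v ∈ cls m i j ↔ (o v).1 = i ∧ typ v = j := by
    intro v i j
    rw [mem_cls]
  have hex : ∀ (j : Fin J) (i : Fin K), ∃ (Dm : Finset V) (M : V → V),
      Dm ⊆ univ.filter (fun u => ω u ∈ cls m (par j i) j) ∧
      (∀ v ∈ Dm, G.Adj v (M v) ∧ ω (M v) ∈ cls m i j) ∧ Set.InjOn M Dm ∧
      (((univ.filter (fun u => ω u ∈ cls m (par j i) j)) \ Dm).card : ℝ) ≤
        (2 * t / (d * (1 / (K * J)))) * (univ.filter (fun u => ω u ∈ cls m (par j i) j)).card +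
        (1 / (1 / (K * J)) + 1) * (badSet (nb G) (fam K m J) t ω).card := by
    intro j i
    exact class_matching G d hreg (fam K m J) t ht ω _ _ (cls_mem_fam _ _) (cls_mem_fam _ _)
      (1 / (K * J)) (by positivity) (cls_ratio hm hJ _ _) (cls_ratio hm hJ _ _) htd
  choose Dm M h1 h2 h3 h4 using hex
  set U : ℝ := (2 * t * (K * J) / d) * Fintype.card V + (K * J + 1) * β with hU
  have hβ0 : 0 < β := lt_of_le_of_lt (Nat.cast_nonneg _) hβ
  have hU0 : 0 ≤ U := by rw [hU]; positivity
  obtain ⟨P, hP⟩ := exists_pieces (G := G) succ par hpar (fun v => (o v).1) typ w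
    (fun v hv => by simp only [htyp, if_pos hv]) M Dm ⌊U⌋₊
    (fun j i _ v hv => (hmem _ _ _).mp (h2 j i v hv).2)
    (fun j i _ v hv => (h2 j i v hv).1) (fun j i _ => h3 j i)
    (fun j i _ => by
      apply Nat.le_floor
      have e1 : univ.filter (fun v => ((o v).1 = par j i ∧ typ v = j) ∧ v ∉ Dm j i) =
          (univ.filter (fun u => ω u ∈ cls m (par j i) j)) \ Dm j i := by
        ext v
        simp only [mem_filter, mem_univ, true_and, mem_sdiff, hmem]
      rw [e1]
      refine le_trans (h4 j i) ?_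
      have e2 : ((univ.filter (fun u => ω u ∈ cls m (par j i) j)).card : ℝ) ≤
          Fintype.card V := by
        exact_mod_cast Finset.card_le_univ _
      have e3 : 2 * t / (d * (1 / (K * J))) = 2 * t * (K * J) / d := by field_simp
      have e4 : (1 : ℝ) / (1 / (K * J)) = K * J := by field_simp
      rw [e3, e4, hU]
      have e5 : (0 : ℝ) ≤ 2 * t * (K * J) / d := by positivity
      have e6 := mul_le_mul_of_nonneg_left e2 e5
      have e7 : ((K : ℝ) * J + 1) * (badSet (nb G) (fam K m J) t ω).card ≤ (K * J + 1) * β :=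
        mul_le_mul_of_nonneg_left hβ.le (by positivity)
      linarith)
  refine ⟨P, ?_⟩
  have h5 : ((rootsOf o).card : ℝ) ≤ P.good.card + J * K * (⌊U⌋₊ : ℝ) := by
    exact_mod_cast hP
  refine le_trans h5 ?_
  have h6 : (⌊U⌋₊ : ℝ) ≤ U := Nat.floor_le hU0
  have h7 : (0 : ℝ) ≤ J * K := by positivity
  have := mul_le_mul_of_nonneg_left h6 h7
  linarith

/-- chains for a good labelling -/
theorem good_path (G : SimpleGraph V) (d : ℕ) (hreg : ∀ v, (nb G v).card = d)
    (hm : 0 < m) (hJ : 0 < J)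
    (o : V → Lo K m J) (w : V → Fin J) (t β : ℝ) (ht : 0 < t)
    (htd : t < d * (1 / (K * m)))
    (hβ : ((badSet (nb G) (fam K m J) t (fun v => (o v, w v))).card : ℝ) < β) :
    ∃ succ : V → Option V,
      (∀ a b, succ a = some b → a ∈ rootsOf o ∧ b ∈ rootsOf o) ∧
      (∀ a b c, succ a = some c → succ b = some c → a = b) ∧
      (∀ a b, succ a = some b → G.Adj a b) ∧
      (∀ a b, succ a = some b → ((o a).2.1 : ℕ) < (o b).2.1) ∧
      (((rootsOf o).filter (fun r => succ r = none)).card : ℝ) ≤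
        (((univ : Finset V).filter (fun v => (o v).1 = 0 ∧ ((o v).2.1 : ℕ) = m - 1)).card : ℝ) +
        (2 * t * (K * m) / d) * Fintype.card V + m * (K * m + 1) * β := by
  classical
  set ω : V → Lab K m J := fun v => (o v, w v) with hω
  have hK : 0 < K := Nat.pos_of_neZero K
  have hd : (0 : ℝ) < d := by
    by_contra hcon
    have : (d : ℝ) * (1 / (K * m)) ≤ 0 := mul_nonpos_of_nonpos_of_nonneg (not_lt.mp hcon)
      (by positivity)
    linarith
  have hmem : ∀ v (s : Fin m), ω v ∈ pcl J s ↔ (o v).1 = 0 ∧ (o v).2.1 = s := by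
    intro v s
    rw [mem_pcl]
  have hnext : ∀ s : Fin m, ∃ s' : Fin m, (s : ℕ) + 1 < m → (s' : ℕ) = s + 1 := by
    intro s
    by_cases h : (s : ℕ) + 1 < m
    · exact ⟨⟨s + 1, h⟩, fun _ => rfl⟩
    · exact ⟨s, fun h' => absurd h' h⟩
  choose nx hnx using hnext
  have hex : ∀ (s : Fin m), ∃ (Dm : Finset V) (M : V → V),
      Dm ⊆ univ.filter (fun u => ω u ∈ pcl J s) ∧
      (∀ v ∈ Dm, G.Adj v (M v) ∧ ω (M v) ∈ pcl J (nx s)) ∧ Set.InjOn M Dm ∧
      (((univ.filter (fun u => ω u ∈ pcl J s)) \ Dm).card : ℝ) ≤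
        (2 * t / (d * (1 / (K * m)))) * (univ.filter (fun u => ω u ∈ pcl J s)).card +
        (1 / (1 / (K * m)) + 1) * (badSet (nb G) (fam K m J) t ω).card := by
    intro s
    exact class_matching G d hreg (fam K m J) t ht ω _ _ (pcl_mem_fam _) (pcl_mem_fam _)
      (1 / (K * m)) (by positivity) (pcl_ratio hm hJ _) (pcl_ratio hm hJ _) htd
  choose Dm M h1 h2 h3 h4 using hex
  let succ : V → Option V := fun v =>
    if ((o v).2.1 : ℕ) + 1 < m ∧ v ∈ Dm (o v).2.1 then some (M (o v).2.1 v) else none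
  have hs : ∀ a b, succ a = some b → ((o a).2.1 : ℕ) + 1 < m ∧ a ∈ Dm (o a).2.1 ∧
      M (o a).2.1 a = b := by
    intro a b h
    by_cases hc : ((o a).2.1 : ℕ) + 1 < m ∧ a ∈ Dm (o a).2.1
    · simp only [succ, if_pos hc] at h
      exact ⟨hc.1, hc.2, Option.some.inj h⟩
    · simp only [succ, if_neg hc] at h
      exact absurd h (by simp)
  have hs2 : ∀ a b, succ a = some b → (o a).1 = 0 ∧ (o b).1 = 0 ∧
      (o b).2.1 = nx (o a).2.1 ∧ G.Adj a b := by
    intro a b h
    obtain ⟨h5, h6, h7⟩ := hs a b h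
    have h8 := (mem_filter.mp (h1 _ h6)).2
    rw [hmem] at h8
    have h9 := h2 _ _ h6
    rw [hmem, h7] at h9
    exact ⟨h8.1, h9.2.1, h9.2.2, h9.1⟩
  refine ⟨succ, ?_, ?_, ?_, ?_, ?_⟩
  · intro a b h
    obtain ⟨h5, h6, _⟩ := hs2 a b h
    exact ⟨mem_filter.mpr ⟨mem_univ _, h5⟩, mem_filter.mpr ⟨mem_univ _, h6⟩⟩
  · intro a b c ha hb
    obtain ⟨a1, a2, a3⟩ := hs a c ha
    obtain ⟨b1, b2, b3⟩ := hs b c hb
    obtain ⟨_, _, a4, _⟩ := hs2 a c ha
    obtain ⟨_, _, b4, _⟩ := hs2 b c hb
    have e1 : (nx (o a).2.1 : ℕ) = nx (o b).2.1 := by rw [← a4, ← b4]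
    rw [hnx _ a1, hnx _ b1] at e1
    have e2 : (o a).2.1 = (o b).2.1 := Fin.ext (by omega)
    rw [← e2] at b2 b3
    exact h3 _ a2 b2 (a3.trans b3.symm)
  · intro a b h
    exact (hs2 a b h).2.2.2
  · intro a b h
    obtain ⟨a1, _, _⟩ := hs a b h
    obtain ⟨_, _, a4, _⟩ := hs2 a b h
    rw [a4, hnx _ a1]
    omega
  · -- count
    have hsub : (rootsOf o).filter (fun r => succ r = none) ⊆
        ((univ : Finset V).filter (fun v => (o v).1 = 0 ∧ ((o v).2.1 : ℕ) = m - 1)) ∪
        (univ : Finset (Fin m)).biUnion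
          (fun s => (univ.filter (fun u => ω u ∈ pcl J s)) \ Dm s) := by
      intro v hv
      rw [mem_filter] at hv
      have hv1 : (o v).1 = 0 := (mem_filter.mp hv.1).2
      rw [mem_union, mem_filter, mem_biUnion]
      by_cases h5 : ((o v).2.1 : ℕ) + 1 < m
      · right
        refine ⟨(o v).2.1, mem_univ _, ?_⟩
        rw [mem_sdiff, mem_filter, hmem]
        refine ⟨⟨mem_univ _, hv1, rfl⟩, ?_⟩
        intro h6
        have := hv.2
        simp only [succ, if_pos (And.intro h5 h6)] at this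
        exact absurd this (by simp)
      · left
        refine ⟨mem_univ _, hv1, ?_⟩
        have := (o v).2.1.isLt
        omega
    have hc1 := (Finset.card_le_card hsub).trans (Finset.card_union_le _ _)
    have hc2 : (((univ : Finset (Fin m)).biUnion
          (fun s => (univ.filter (fun u => ω u ∈ pcl J s)) \ Dm s)).card : ℝ) ≤
        (2 * t * (K * m) / d) * Fintype.card V + m * (K * m + 1) * β := by
      have hc3 : (((univ : Finset (Fin m)).biUnion
          (fun s => (univ.filter (fun u => ω u ∈ pcl J s)) \ Dm s)).card : ℝ) ≤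
          ∑ s : Fin m, (((univ.filter (fun u => ω u ∈ pcl J s)) \ Dm s).card : ℝ) := by
        exact_mod_cast Finset.card_biUnion_le
      have hc4 : ∑ s : Fin m, (((univ.filter (fun u => ω u ∈ pcl J s)) \ Dm s).card : ℝ) ≤
          ∑ s : Fin m, ((2 * t * (K * m) / d) * (univ.filter (fun u => ω u ∈ pcl J s)).card +
            (K * m + 1) * β) := by
        refine Finset.sum_le_sum ?_
        intro s _
        refine le_trans (h4 s) ?_
        have e3 : 2 * t / (d * (1 / (K * m))) = 2 * t * (K * m) / d := by field_simp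
        have e4 : (1 : ℝ) / (1 / (K * m)) = K * m := by field_simp
        rw [e3, e4]
        have e7 : ((K : ℝ) * m + 1) * (badSet (nb G) (fam K m J) t ω).card ≤ (K * m + 1) * β :=
          mul_le_mul_of_nonneg_left hβ.le (by positivity)
        linarith
      have hc5 : ∑ s : Fin m, ((univ.filter (fun u => ω u ∈ pcl J s)).card : ℝ) ≤
          Fintype.card V := by
        have hdisj : ∑ s : Fin m, (univ.filter (fun u => ω u ∈ pcl J s)).card =
            ((univ : Finset (Fin m)).biUnion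
              (fun s => univ.filter (fun u => ω u ∈ pcl J s))).card := by
          rw [Finset.card_biUnion]
          intro s _ s' _ hss
          rw [Function.onFun, Finset.disjoint_left]
          intro u hu hu'
          rw [mem_filter, hmem] at hu hu'
          exact hss (hu.2.2.symm.trans hu'.2.2)
        have : ∑ s : Fin m, (univ.filter (fun u => ω u ∈ pcl J s)).card ≤ Fintype.card V := by
          rw [hdisj]; exact Finset.card_le_univ _
        exact_mod_cast this
      refine hc3.trans (hc4.trans ?_)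
      rw [Finset.sum_add_distrib, ← Finset.mul_sum, Finset.sum_const, Finset.card_univ,
        Fintype.card_fin, nsmul_eq_mul]
      have e5 : (0 : ℝ) ≤ 2 * t * (K * m) / d := by positivity
      have e6 := mul_le_mul_of_nonneg_left hc5 e5
      linarith
    have hc6 : (((rootsOf o).filter (fun r => succ r = none)).card : ℝ) ≤
        (((univ : Finset V).filter (fun v => (o v).1 = 0 ∧ ((o v).2.1 : ℕ) = m - 1)).card : ℝ) +
        (((univ : Finset (Fin m)).biUnion
          (fun s => (univ.filter (fun u => ω u ∈ pcl J s)) \ Dm s)).card : ℝ) := by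
      exact_mod_cast hc1
    linarith

end labels

end Pool.Agent.Helper33.Otter
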