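import Pool.Agent.Helper33.OtterBuild

/-!
Pieces from matchings between role classes.
-/

namespace Pool.Agent.Helper33.Otter

open Finset

set_option linter.unusedSectionVars false

variable {V : Type*} [Fintype V] [DecidableEq V]

/-- embedding of the rooted tree with parent function `par` at `r`, following the maps `M i` -/
noncomputable def emb {K : ℕ} [NeZero K] (par : Fin K → Fin K) (hpar : ∀ i, i ≠ 0 → par i < i)
    (M : Fin K → V → V) (r : V) (i : Fin K) : V :=
  if _h : i = 0 then r else M i (emb par hpar M r (par i))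
termination_by i.val
decreasing_by exact hpar i _h

section

variable {K : ℕ} [NeZero K] {par : Fin K → Fin K} {hpar : ∀ i, i ≠ 0 → par i < i}
  {M : Fin K → V → V}

lemma emb_zero (r : V) : emb par hpar M r 0 = r := by
  rw [emb, dif_pos rfl]

lemma emb_ne {r : V} {i : Fin K} (h : i ≠ 0) :
    emb par hpar M r i = M i (emb par hpar M r (par i)) := by
  rw [emb, dif_neg h]

/-- roles of the images as long as all matchings are defined -/
lemma emb_role (cls : Fin K → Finset V) (Dm : Fin K → Finset V)
    (hM : ∀ i, i ≠ 0 → ∀ v ∈ Dm i, M i v ∈ cls i) {r : V} (hr : r ∈ cls 0) (n : ℕ)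
    (hgood : ∀ i : Fin K, i ≠ 0 → i.val < n → emb par hpar M r (par i) ∈ Dm i) :
    ∀ i : Fin K, i.val < n → emb par hpar M r i ∈ cls i := by
  intro i hi
  by_cases h : i = 0
  · rw [h, emb_zero]; exact hr
  · rw [emb_ne h]
    exact hM i h _ (hgood i h hi)

/-- injectivity -/
lemma emb_inj (Dm : Fin K → Finset V)
    (hMi : ∀ i, i ≠ 0 → Set.InjOn (M i) (Dm i)) {r r' : V} (n : ℕ)
    (hgood : ∀ i : Fin K, i ≠ 0 → i.val < n → emb par hpar M r (par i) ∈ Dm i)
    (hgood' : ∀ i : Fin K, i ≠ 0 → i.val < n → emb par hpar M r' (par i) ∈ Dm i) :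
    ∀ m : ℕ, ∀ i : Fin K, i.val = m → i.val < n →
      emb par hpar M r i = emb par hpar M r' i → r = r' := by
  intro m
  induction m using Nat.strong_induction_on with
  | _ m ih =>
    intro i him hi he
    by_cases h : i = 0
    · rw [h, emb_zero, emb_zero] at he; exact he
    · rw [emb_ne h, emb_ne h] at he
      have h1 := hMi i h (hgood i h hi) (hgood' i h hi) he
      have h2 : (par i).val < i.val := hpar i h
      exact ih (par i).val (him ▸ h2) (par i) rfl (lt_trans h2 hi) h1

end

theorem exists_pieces {G : SimpleGraph V} {K J : ℕ} [NeZero K] (succ : V → Option V)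
    (par : Fin J → Fin K → Fin K) (hpar : ∀ j i, i ≠ 0 → par j i < i)
    (role : V → Fin K) (typ : V → Fin J) (w : V → Fin J)
    (hw : ∀ v, role v = 0 → typ v = w v)
    (M : Fin J → Fin K → V → V) (Dm : Fin J → Fin K → Finset V) (u : ℕ)
    (hM : ∀ j i, i ≠ 0 → ∀ v ∈ Dm j i, role (M j i v) = i ∧ typ (M j i v) = j)
    (hMG : ∀ j i, i ≠ 0 → ∀ v ∈ Dm j i, G.Adj v (M j i v))
    (hMi : ∀ j i, i ≠ 0 → Set.InjOn (M j i) (Dm j i))
    (hu : ∀ j i, i ≠ 0 →
      (univ.filter (fun v => (role v = par j i ∧ typ v = j) ∧ v ∉ Dm j i)).card ≤ u) :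
    ∃ P : Pieces G (univ.filter (fun v => role v = 0)) succ par w,
      (univ.filter (fun v => role v = 0)).card ≤ P.good.card + J * K * u := by
  classical
  set R : Finset V := univ.filter (fun v => role v = 0) with hR
  let ψ : V → Fin K → V := fun r => emb (par (w r)) (hpar (w r)) (M (w r)) r
  set good : Finset V := R.filter (fun r => ∀ i : Fin K, i ≠ 0 →
    ψ r (par (w r) i) ∈ Dm (w r) i) with hgood
  have hgR : good ⊆ R := Finset.filter_subset _ _
  have hrole : ∀ r ∈ R, ∀ n : ℕ, (∀ i : Fin K, i ≠ 0 → i.val < n →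
      ψ r (par (w r) i) ∈ Dm (w r) i) → ∀ i : Fin K, i.val < n →
      role (ψ r i) = i ∧ typ (ψ r i) = w r := by
    intro r hr n hn i hi
    have h0 : role r = 0 := (Finset.mem_filter.mp hr).2
    have h1 := emb_role (hpar := hpar (w r)) (fun i => univ.filter (fun v => role v = i ∧ typ v = w r))
      (Dm (w r)) (M := M (w r)) (r := r) (by
        intro i hi v hv
        simp only [mem_filter, mem_univ, true_and]
        exact hM _ i hi v hv) (by
        simp only [mem_filter, mem_univ, true_and]
        exact ⟨h0, hw r h0⟩) n hn i hi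
    simpa using h1
  have hroleg : ∀ r ∈ good, ∀ i, role (ψ r i) = i ∧ typ (ψ r i) = w r := by
    intro r hr i
    refine hrole r (hgR hr) K ?_ i i.isLt
    intro i hi _
    exact (Finset.mem_filter.mp hr).2 i hi
  let P : Pieces G R succ par w :=
    { good := good
      ψ := ψ
      good_sub := hgR
      ψ_zero := fun r => emb_zero r
      inj := by
        intro r hr r' hr' i i' h
        obtain ⟨h1, h2⟩ := hroleg r hr i
        obtain ⟨h3, h4⟩ := hroleg r' hr' i'
        have hii : i = i' := by rw [← h1, ← h3, h]
        have hww : w r = w r' := by rw [← h2, ← h4, h]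
        subst hii
        refine ⟨?_, rfl⟩
        have h5 : ψ r' i = emb (par (w r)) (hpar (w r)) (M (w r)) r' i := by
          simp only [ψ, hww]
        have h6 : ∀ i : Fin K, ψ r' i = emb (par (w r)) (hpar (w r)) (M (w r)) r' i := by
          intro i; simp only [ψ, hww]
        refine emb_inj (hpar := hpar (w r)) (Dm (w r)) (hMi (w r)) K ?_ ?_ i.val i rfl i.isLt
          (h.trans h5)
        · intro i hi _
          exact (Finset.mem_filter.mp hr).2 i hi
        · intro i hi _
          have h7 := (Finset.mem_filter.mp hr').2 i hi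
          rw [← hww, h6] at h7
          exact h7
      notR := by
        intro r hr i hi h
        have h1 := (hroleg r hr i).1
        have h2 := (Finset.mem_filter.mp h).2
        exact hi (h1 ▸ h2)
      adj := by
        intro r hr i hi
        have h1 := (Finset.mem_filter.mp hr).2 i hi
        have h2 := hMG (w r) i hi _ h1
        have h3 : ψ r i = M (w r) i (ψ r (par (w r) i)) := emb_ne hi
        rw [h3]
        exact h2.symm }
  refine ⟨P, ?_⟩
  -- bad roots
  have hbad : (R \ good).card ≤ J * K * u := by
    have hex : ∀ r ∈ R \ good, ∃ i : Fin K, i ≠ 0 ∧ ψ r (par (w r) i) ∉ Dm (w r) i ∧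
        ∀ i' : Fin K, i' ≠ 0 → i'.val < i.val → ψ r (par (w r) i') ∈ Dm (w r) i' := by
      intro r hr
      rw [mem_sdiff] at hr
      have h1 : ¬ ∀ i : Fin K, i ≠ 0 → ψ r (par (w r) i) ∈ Dm (w r) i :=
        fun h => hr.2 (Finset.mem_filter.mpr ⟨hr.1, h⟩)
      push Not at h1
      obtain ⟨i0, h2, h3⟩ := h1
      obtain ⟨i, hi, hmin⟩ := Finset.exists_min_image
        (univ.filter (fun i : Fin K => i ≠ 0 ∧ ψ r (par (w r) i) ∉ Dm (w r) i))
        (fun i => i.val) ⟨i0, by simp [h2, h3]⟩
      simp only [mem_filter, mem_univ, true_and] at hi hmin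
      refine ⟨i, hi.1, hi.2, ?_⟩
      intro i' hi' hlt
      by_contra hne
      exact absurd (hmin i' ⟨hi', hne⟩) (by omega)
    choose! ii hii using hex
    set U : Finset (Fin J × Fin K × V) := (univ ×ˢ (univ.filter (fun i : Fin K => i ≠ 0)) ×ˢ
      univ).filter (fun p => (role p.2.2 = par p.1 p.2.1 ∧ typ p.2.2 = p.1) ∧
        p.2.2 ∉ Dm p.1 p.2.1) with hU
    have hUcard : U.card ≤ J * K * u := by
      calc U.card ≤ ∑ p ∈ ((univ : Finset (Fin J)) ×ˢ
            (univ.filter (fun i : Fin K => i ≠ 0))), u := by
            have h1 : U = ((univ : Finset (Fin J)) ×ˢ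
              (univ.filter (fun i : Fin K => i ≠ 0))).biUnion (fun p =>
                (univ.filter (fun v => (role v = par p.1 p.2 ∧ typ v = p.1) ∧
                  v ∉ Dm p.1 p.2)).image (fun v => (p.1, p.2, v))) := by
              ext ⟨j, i, v⟩
              simp only [hU, mem_filter, mem_product, mem_univ, true_and, and_true, mem_biUnion,
                mem_image, Prod.exists]
              constructor
              · rintro ⟨h1, h2⟩
                exact ⟨j, i, h1, v, h2, rfl⟩
              · rintro ⟨j', i', h1, v', h2, h3⟩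
                simp only [Prod.mk.injEq] at h3
                obtain ⟨rfl, rfl, rfl⟩ := h3
                exact ⟨h1, h2⟩
            rw [h1]
            refine Finset.card_biUnion_le.trans (Finset.sum_le_sum ?_)
            intro p hp
            simp only [mem_product, mem_univ, true_and, mem_filter] at hp
            exact Finset.card_image_le.trans (hu p.1 p.2 hp)
        _ = ((univ : Finset (Fin J)) ×ˢ
            (univ.filter (fun i : Fin K => i ≠ 0))).card * u := by
            rw [Finset.sum_const, smul_eq_mul]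
        _ ≤ (J * K) * u := by
            refine Nat.mul_le_mul_right _ ?_
            rw [Finset.card_product]
            refine Nat.mul_le_mul (by simp) ?_
            calc _ ≤ (univ : Finset (Fin K)).card := Finset.card_filter_le _ _
              _ = K := by simp
    refine le_trans ?_ hUcard
    refine Finset.card_le_card_of_injOn
      (fun r => (w r, ii r, ψ r (par (w r) (ii r)))) ?_ ?_
    · intro r hr
      have hr' : r ∈ R \ good := by simpa using hr
      obtain ⟨h1, h2, h3⟩ := hii r hr'
      have hrR := (Finset.mem_sdiff.mp hr').1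
      rw [mem_coe, hU, mem_filter]
      refine ⟨by simp [h1], ?_, h2⟩
      exact hrole r hrR (ii r).val h3 _ (hpar (w r) (ii r) h1)
    · intro r hr r' hr' h
      have hr1 : r ∈ R \ good := by simpa using hr
      have hr2 : r' ∈ R \ good := by simpa using hr'
      simp only [Prod.mk.injEq] at h
      obtain ⟨hww, hi, he⟩ := h
      obtain ⟨h1, h2, h3⟩ := hii r hr1
      obtain ⟨h1', h2', h3'⟩ := hii r' hr2
      have h6 : ∀ i : Fin K, ψ r' i = emb (par (w r)) (hpar (w r)) (M (w r)) r' i := by
        intro i; simp only [ψ, hww]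
      rw [← hww, ← hi, h6] at he
      refine emb_inj (hpar := hpar (w r)) (Dm (w r)) (hMi (w r)) (ii r).val h3 ?_ _ _ rfl
        (hpar (w r) (ii r) h1) he
      intro i hi0 hlt
      rw [← h6]
      have := h3' i hi0 (by rw [← hi]; exact hlt)
      rw [← hww] at this
      exact this
  have h1 := Finset.card_sdiff_add_card_eq_card hgR
  change R.card ≤ good.card + J * K * u
  omega

end Pool.Agent.Helper33.Otter
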