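import Mathlib

/-!
Second moment estimates for random labellings.
-/

namespace Pool.Agent.Helper33.Otter

open Finset

variable {V L : Type*} [Fintype V] [DecidableEq V] [Fintype L] [DecidableEq L]

omit [DecidableEq L] in
lemma sum_prod_label (F : V → L → ℝ) :
    ∑ ω : V → L, ∏ v, F v (ω v) = ∏ v, ∑ l, F v l := by
  have h := (Finset.prod_univ_sum (fun _ : V => (univ : Finset L)) F).symm
  rw [Fintype.piFinset_univ] at h
  exact h

omit [DecidableEq L] in
lemma sum_single (u : V) (g : L → ℝ) :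
    ∑ ω : V → L, g (ω u) = (Fintype.card L : ℝ) ^ (Fintype.card V - 1) * ∑ l, g l := by
  have h1 : ∀ ω : V → L, g (ω u) = ∏ v, (if v = u then g (ω v) else 1) := by
    intro ω
    rw [Finset.prod_ite_eq' univ u (fun v => g (ω v))]
    simp
  simp_rw [h1]
  rw [sum_prod_label (fun v l => if v = u then g l else 1)]
  have h2 : ∀ v, (∑ l, if v = u then g l else (1 : ℝ)) =
      if v = u then ∑ l, g l else (Fintype.card L : ℝ) := by
    intro v
    split_ifs <;> simp
  simp_rw [h2]
  rw [Finset.prod_ite, Finset.prod_const, Finset.prod_const, mul_comm]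
  have h3 : (univ.filter (fun v => v = u)).card = 1 := by
    rw [Finset.card_eq_one]; exact ⟨u, by ext; simp⟩
  have h4 : (univ.filter (fun v => ¬ v = u)).card = Fintype.card V - 1 := by
    have := Finset.card_filter_add_card_filter_not (s := (univ : Finset V)) (fun v => v = u)
    rw [h3, Finset.card_univ] at this
    omega
  rw [h3, h4, pow_one]

omit [DecidableEq L] in
lemma sum_pair {u u' : V} (hu : u ≠ u') (h : L → ℝ) (h0 : ∑ l, h l = 0) :
    ∑ ω : V → L, h (ω u) * h (ω u') = 0 := by
  have h1 : ∀ ω : V → L, h (ω u) * h (ω u') =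
      ∏ v, (if v = u ∨ v = u' then h (ω v) else 1) := by
    intro ω
    rw [Finset.prod_ite, Finset.prod_const_one, mul_one]
    have : univ.filter (fun v => v = u ∨ v = u') = {u, u'} := by ext; simp
    rw [this, Finset.prod_pair hu]
  simp_rw [h1]
  rw [sum_prod_label (fun v l => if v = u ∨ v = u' then h l else 1)]
  apply Finset.prod_eq_zero (mem_univ u)
  simp [h0]

omit [DecidableEq L] in
lemma second_moment (U : Finset V) (h : L → ℝ) (h0 : ∑ l, h l = 0) :
    ∑ ω : V → L, (∑ u ∈ U, h (ω u)) ^ 2 =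
      U.card * ((Fintype.card L : ℝ) ^ (Fintype.card V - 1) * ∑ l, (h l) ^ 2) := by
  have h1 : ∀ ω : V → L, (∑ u ∈ U, h (ω u)) ^ 2 = ∑ u ∈ U, ∑ u' ∈ U, h (ω u) * h (ω u') := by
    intro ω
    rw [sq, Finset.sum_mul_sum]
  simp_rw [h1]
  rw [Finset.sum_comm]
  have h2 : ∀ u ∈ U, ∑ ω : V → L, ∑ u' ∈ U, h (ω u) * h (ω u') =
      (Fintype.card L : ℝ) ^ (Fintype.card V - 1) * ∑ l, (h l) ^ 2 := by
    intro u hu
    rw [Finset.sum_comm, Finset.sum_eq_single_of_mem u hu]
    · rw [← sum_single u (fun l => (h l) ^ 2)]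
      exact Finset.sum_congr rfl (fun ω _ => by ring)
    · intro u' _ hne
      exact sum_pair (Ne.symm hne) h h0
  rw [Finset.sum_congr rfl h2, Finset.sum_const, nsmul_eq_mul]

lemma cheb [Nonempty L] (U : Finset V) (c : Finset L) (t : ℝ) (ht : 0 < t) :
    ((univ.filter (fun ω : V → L => t ≤ |((U.filter (fun u => ω u ∈ c)).card : ℝ) -
      U.card * (c.card / Fintype.card L)|)).card : ℝ) * t ^ 2 ≤
      U.card * (Fintype.card L : ℝ) ^ (Fintype.card V) := by
  set p : ℝ := c.card / Fintype.card L with hp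
  have hL : (0 : ℝ) < Fintype.card L := by exact_mod_cast Fintype.card_pos
  have hp0 : 0 ≤ p := by positivity
  have hp1 : p ≤ 1 := by
    rw [hp, div_le_one hL]
    exact_mod_cast Finset.card_le_univ c
  let h : L → ℝ := fun l => (if l ∈ c then 1 else 0) - p
  have h0 : ∑ l, h l = 0 := by
    simp only [h, Finset.sum_sub_distrib, Finset.sum_const, Finset.card_univ, nsmul_eq_mul]
    rw [Finset.sum_ite_mem, Finset.univ_inter, Finset.sum_const, nsmul_eq_mul, hp]
    field_simp
    ring
  have hX : ∀ ω : V → L, ∑ u ∈ U, h (ω u) = ((U.filter (fun u => ω u ∈ c)).card : ℝ) -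
      U.card * p := by
    intro ω
    simp only [h, Finset.sum_sub_distrib, Finset.sum_const, nsmul_eq_mul]
    congr 1
    rw [Finset.sum_ite, Finset.sum_const, Finset.sum_const_zero, add_zero, nsmul_eq_mul, mul_one]
  have hsq : ∑ l, (h l) ^ 2 ≤ Fintype.card L := by
    calc ∑ l, (h l) ^ 2 ≤ ∑ l : L, (1 : ℝ) := by
          refine Finset.sum_le_sum ?_
          intro l _
          simp only [h]
          split_ifs <;> nlinarith
      _ = _ := by simp
  have hm := second_moment U h h0
  rcases isEmpty_or_nonempty V with hV | hV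
  · have hU : U = ∅ := Finset.eq_empty_of_isEmpty U
    subst hU
    have : ∀ ω : V → L, ¬ t ≤ |(((∅ : Finset V).filter (fun u => ω u ∈ c)).card : ℝ) -
      (∅ : Finset V).card * p| := by
      intro ω
      simp
      exact ht
    rw [Finset.filter_false_of_mem (fun ω _ => this ω)]
    simp
  have hcard : (Fintype.card L : ℝ) ^ (Fintype.card V - 1) * Fintype.card L =
      (Fintype.card L : ℝ) ^ (Fintype.card V) := by
    rw [← pow_succ, Nat.sub_add_cancel Fintype.card_pos]
  calc ((univ.filter (fun ω : V → L => t ≤ |((U.filter (fun u => ω u ∈ c)).card : ℝ) -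
      U.card * p|)).card : ℝ) * t ^ 2
      = ∑ ω ∈ univ.filter (fun ω : V → L => t ≤ |((U.filter (fun u => ω u ∈ c)).card : ℝ) -
      U.card * p|), t ^ 2 := by rw [Finset.sum_const, nsmul_eq_mul]
    _ ≤ ∑ ω ∈ univ.filter (fun ω : V → L => t ≤ |((U.filter (fun u => ω u ∈ c)).card : ℝ) -
      U.card * p|), (∑ u ∈ U, h (ω u)) ^ 2 := by
        refine Finset.sum_le_sum ?_
        intro ω hω
        have := (Finset.mem_filter.mp hω).2
        rw [hX, ← sq_abs (_ - _)]
        exact pow_le_pow_left₀ ht.le this 2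
    _ ≤ ∑ ω : V → L, (∑ u ∈ U, h (ω u)) ^ 2 :=
        Finset.sum_le_sum_of_subset_of_nonneg (Finset.filter_subset _ _)
          (fun _ _ _ => sq_nonneg _)
    _ = U.card * ((Fintype.card L : ℝ) ^ (Fintype.card V - 1) * ∑ l, (h l) ^ 2) := hm
    _ ≤ U.card * ((Fintype.card L : ℝ) ^ (Fintype.card V - 1) * Fintype.card L) := by
        refine mul_le_mul_of_nonneg_left ?_ (Nat.cast_nonneg _)
        exact mul_le_mul_of_nonneg_left hsq (by positivity)
    _ = _ := by rw [hcard]

end Pool.Agent.Helper33.Otter
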